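import Pool.Agent.Lib.MP_774a5f_nt.LD.Stmts

/-!
# Basic facts: `X t n = n^{-it}`, Markov's inequality on `[a, b]`
-/

namespace Pool.Agent.Lib.MP_774a5f_nt.LD

open MeasureTheory Complex Set
open ArithmeticFunction (vonMangoldt)
open scoped ComplexConjugate Nat

lemma norm_X (t : ℝ) (n : ℕ) : ‖X t n‖ = 1 := MP774a5f.norm_ph _ _

lemma X_mul (t : ℝ) {m n : ℕ} (hm : m ≠ 0) (hn : n ≠ 0) : X t (m * n) = X t m * X t n :=
  MP774a5f.ph_mul _ hm hn

lemma continuous_X (n : ℕ) : Continuous fun t : ℝ => X t n :=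
  (MP774a5f.continuous_ph n).comp continuous_neg

lemma X_one (t : ℝ) : X t 1 = 1 := by
  simp [X, MP774a5f.ph]

lemma X_pow (t : ℝ) {n : ℕ} (hn : n ≠ 0) (k : ℕ) : X t (n ^ k) = X t n ^ k := by
  induction k with
  | zero => simp [X_one]
  | succ k ih => rw [pow_succ, X_mul t (pow_ne_zero _ hn) hn, ih, pow_succ]

lemma X_def (t : ℝ) (n : ℕ) : X t n = Complex.exp ((-t * Real.log n : ℝ) * I) := rfl

/-- `n^{-it}` as a complex power. -/
lemma X_eq_cpow (t : ℝ) {n : ℕ} (hn : n ≠ 0) : X t n = (n : ℂ) ^ (-(t * I : ℂ)) := by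
  rw [X_def, Complex.cpow_def_of_ne_zero (by exact_mod_cast hn)]
  congr 1
  rw [← Complex.natCast_log]
  push_cast
  ring

/-- Markov's inequality on an interval. -/
lemma markov {F : ℝ → ℝ} (hF : Continuous F) (h0 : ∀ t, 0 ≤ F t) {a b δ : ℝ} (hab : a ≤ b)
    (hδ : 0 < δ) :
    volume {t : ℝ | t ∈ Icc a b ∧ δ ≤ F t} ≤ ENNReal.ofReal ((∫ t in a..b, F t) / δ) := by
  have hint : Integrable F (volume.restrict (Icc a b)) :=
    (hF.continuousOn).integrableOn_Icc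
  have h1 := mul_meas_ge_le_integral_of_nonneg (μ := volume.restrict (Icc a b))
    (Filter.Eventually.of_forall h0) hint δ
  have h2 : (∫ t in a..b, F t) = ∫ t, F t ∂(volume.restrict (Icc a b)) := by
    rw [intervalIntegral.integral_of_le hab, integral_Icc_eq_integral_Ioc]
  have hset : MeasurableSet {t : ℝ | δ ≤ F t} := measurableSet_le measurable_const hF.measurable
  have h3 : volume {t : ℝ | t ∈ Icc a b ∧ δ ≤ F t} =
      (volume.restrict (Icc a b)) {t : ℝ | δ ≤ F t} := by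
    rw [Measure.restrict_apply hset]
    congr 1
    ext t
    simp only [mem_ofPred_eq, mem_inter_iff]
    tauto
  have hfin : volume {t : ℝ | t ∈ Icc a b ∧ δ ≤ F t} ≠ ⊤ := by
    refine ne_of_lt (lt_of_le_of_lt (measure_mono (fun t ht => ht.1)) ?_)
    simp
  rw [← ENNReal.ofReal_toReal hfin]
  apply ENNReal.ofReal_le_ofReal
  rw [le_div_iff₀ hδ, h2, h3, mul_comm]
  exact h1

lemma rot_eq (θ t : ℝ) : MP774a5f.rotLogDeriv θ t = (Complex.exp (-(θ : ℂ) * I) * Z t).re := rfl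

lemma rot_le (θ t : ℝ) : MP774a5f.rotLogDeriv θ t ≤ ‖Z t‖ := by
  rw [rot_eq]
  refine (Complex.re_le_norm _).trans ?_
  rw [norm_mul, ← Complex.ofReal_neg, Complex.norm_exp_ofReal_mul_I, one_mul]

lemma mem_Pri {a b p : ℕ} : p ∈ Pri a b ↔ a < p ∧ p ≤ b ∧ p.Prime := by
  simp [Pri, and_assoc]

lemma cp_nonneg (p : ℕ) : 0 ≤ cp p := by
  unfold cp
  positivity

end Pool.Agent.Lib.MP_774a5f_nt.LD
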