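import Pool.Agent.Lib.MP_774a5f_nt.LD.Base81

/-!
# Sizes (module St8)
-/

set_option autoImplicit false

namespace Pool.Agent.Lib.MP_774a5f_nt.LD

open MP774a5f

namespace M10x

lemma Pri_zero (y : ℕ) : Pri 0 y = Pr y := by
  ext p
  simp only [Pri, Pr, Finset.mem_filter, Finset.mem_Ioc, Finset.mem_Icc]
  rfl

lemma card_QQ (y : ℕ) : (QQ y).divisors.card = ∏ p ∈ Pr y, (dd y p + 1) := by
  classical
  unfold QQ
  have key : ∀ s : Finset ℕ, (∀ p ∈ s, p.Prime) →
      (∏ p ∈ s, p ^ dd y p).divisors.card = ∏ p ∈ s, (dd y p + 1) := by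
    intro s
    induction s using Finset.induction_on with
    | empty => simp
    | insert a s ha ih =>
      intro hs
      have hpa := hs a (Finset.mem_insert_self a s)
      rw [Finset.prod_insert ha, Finset.prod_insert ha, Nat.Coprime.card_divisors_mul,
        Nat.divisors_prime_pow hpa, Finset.card_map, Finset.card_range,
        ih fun p hp => hs p (Finset.mem_insert_of_mem hp)]
      apply Nat.Coprime.prod_right
      intro q hq
      refine Nat.Coprime.pow _ _ ?_
      exact (Nat.coprime_primes hpa (hs q (Finset.mem_insert_of_mem hq))).2 fun h => ha (h ▸ hq)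
  exact key _ fun p hp => (Finset.mem_filter.1 hp).2

lemma log_tau (y : ℕ) : Real.log (tau y) = ∑ p ∈ Pr y, Real.log ((dd y p : ℝ) + 1) := by
  unfold tau
  rw [card_QQ, Nat.cast_prod, Real.log_prod]
  · exact Finset.sum_congr rfl fun p _ => by push_cast; rfl
  · intro p _
    positivity

lemma one_sub_mu (y p : ℕ) : 1 - mu y p = 1 / ((dd y p : ℝ) + 1) := by
  unfold mu
  have : (dd y p : ℝ) + 1 ≠ 0 := by positivity
  field_simp
  ring

lemma mu_nonneg (y p : ℕ) : 0 ≤ mu y p := by unfold mu; positivity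

lemma mu_le_one (y p : ℕ) : mu y p ≤ 1 := by
  have := one_sub_mu y p
  have h : (0 : ℝ) ≤ 1 / ((dd y p : ℝ) + 1) := by positivity
  linarith

lemma one_sub_mu_le {y p : ℕ} (hy : 1 ≤ y) (hp : 0 < p) :
    1 - mu y p ≤ Real.sqrt p / Real.sqrt y := by
  have hy' : (0 : ℝ) < y := by exact_mod_cast hy
  have hp' : (0 : ℝ) < p := by exact_mod_cast hp
  have hsy : 0 < Real.sqrt y := Real.sqrt_pos.2 hy'
  have hsp : 0 < Real.sqrt p := Real.sqrt_pos.2 hp'
  have h := le_dd (y := y) hp
  rw [one_sub_mu, div_le_div_iff₀ (by positivity) hsy]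
  rw [div_le_iff₀ hsp] at h
  linarith

lemma partC {y : ℕ} (hy : 1 ≤ y) : ∑ p ∈ Pri 0 y, cp p * (1 - mu y p) ≤ 2 * Real.log 4 := by
  have hy' : (0 : ℝ) < y := by exact_mod_cast hy
  have hsy : 0 < Real.sqrt y := Real.sqrt_pos.2 hy'
  rw [Pri_zero]
  calc ∑ p ∈ Pr y, cp p * (1 - mu y p)
      ≤ ∑ p ∈ Pr y, (1 / Real.sqrt y) * (Real.log p / Real.sqrt p) := by
        refine Finset.sum_le_sum fun p hp => ?_
        have hpp := (Finset.mem_filter.1 hp).2
        have hp' : (0 : ℝ) < p := by exact_mod_cast hpp.pos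
        have hsp : 0 < Real.sqrt p := Real.sqrt_pos.2 hp'
        calc cp p * (1 - mu y p) ≤ cp p * (Real.sqrt p / Real.sqrt y) :=
              mul_le_mul_of_nonneg_left (one_sub_mu_le hy hpp.pos) (cp_nonneg p)
          _ = (1 / Real.sqrt y) * (Real.log p / Real.sqrt p) := by
              unfold cp
              rw [show Real.log p / (p : ℝ) = Real.log p / (Real.sqrt p * Real.sqrt p) by
                rw [Real.mul_self_sqrt hp'.le]]
              field_simp
    _ = (1 / Real.sqrt y) * ∑ p ∈ Pr y, Real.log p / Real.sqrt p := by rw [Finset.mul_sum]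
    _ ≤ (1 / Real.sqrt y) * (2 * Real.log 4 * Real.sqrt y) :=
        mul_le_mul_of_nonneg_left (sum_log_div_sqrt_le y) (by positivity)
    _ = 2 * Real.log 4 := by field_simp

/-- `log x ≤ x ^ a / a` -/
lemma log_le_pow {x : ℝ} (hx : 0 < x) {a : ℝ} (ha : 0 < a) : Real.log x ≤ x ^ a / a :=
  Real.log_le_rpow_div hx.le ha

lemma partA {y : ℕ} (hy : 2 ≤ y) :
    Real.log (tau y) ≤ (24 + 8 * Real.log 4) * y / Real.log y := by
  have hy1 : (2 : ℝ) ≤ y := by exact_mod_cast hy
  have hy' : (0 : ℝ) < y := by linarith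
  have hly : 0 < Real.log y := Real.log_pos (by linarith)
  have hsy : 0 < Real.sqrt y := Real.sqrt_pos.2 hy'
  have hss : Real.sqrt y * Real.sqrt y = y := Real.mul_self_sqrt hy'.le
  rw [log_tau, ← Finset.sum_filter_add_sum_filter_not (Pr y) (fun p : ℕ => (p : ℝ) ≤ Real.sqrt y)]
  have hterm : ∀ p ∈ Pr y, 0 < (p : ℝ) ∧ (dd y p : ℝ) + 1 ≤ 2 * (Real.sqrt y / Real.sqrt p) := by
    intro p hp
    have hpp := (Finset.mem_filter.1 hp).2
    have hpy : p ≤ y := (Finset.mem_Icc.1 (Finset.mem_filter.1 hp).1).2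
    have hp' : (0 : ℝ) < p := by exact_mod_cast hpp.pos
    have hsp : 0 < Real.sqrt p := Real.sqrt_pos.2 hp'
    refine ⟨hp', ?_⟩
    have h1 := dd_le (y := y) hpp.pos
    have h2 : 1 ≤ Real.sqrt y / Real.sqrt p := by
      rw [le_div_iff₀ hsp, one_mul]
      exact Real.sqrt_le_sqrt (by exact_mod_cast hpy)
    linarith
  -- small primes
  have h1 : ∑ p ∈ (Pr y).filter (fun p : ℕ => (p : ℝ) ≤ Real.sqrt y), Real.log ((dd y p : ℝ) + 1) ≤
      24 * y / Real.log y := by
    have hc : ((Pr y).filter (fun p : ℕ => (p : ℝ) ≤ Real.sqrt y)).card ≤ ⌊Real.sqrt y⌋₊ := by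
      calc _ ≤ (Finset.Icc 1 ⌊Real.sqrt y⌋₊).card := by
            refine Finset.card_le_card fun p hp => ?_
            rw [Finset.mem_filter] at hp
            have hpp := (Finset.mem_filter.1 hp.1).2
            rw [Finset.mem_Icc]
            exact ⟨hpp.one_lt.le, Nat.le_floor hp.2⟩
        _ = _ := by simp
    have hc' : (((Pr y).filter (fun p : ℕ => (p : ℝ) ≤ Real.sqrt y)).card : ℝ) ≤ Real.sqrt y :=
      (by exact_mod_cast hc : (((Pr y).filter (fun p : ℕ => (p : ℝ) ≤ Real.sqrt y)).card : ℝ) ≤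
        (⌊Real.sqrt y⌋₊ : ℝ)).trans (Nat.floor_le hsy.le)
    have hq : 0 < (y : ℝ) ^ (1 / 4 : ℝ) := Real.rpow_pos_of_pos hy' _
    have hqq : (y : ℝ) ^ (1 / 4 : ℝ) * (y : ℝ) ^ (1 / 4 : ℝ) = Real.sqrt y := by
      rw [← Real.rpow_add hy', Real.sqrt_eq_rpow]
      norm_num
    have hq1 : 1 ≤ (y : ℝ) ^ (1 / 4 : ℝ) := Real.one_le_rpow (by linarith) (by norm_num)
    have hlog : Real.log y ≤ 4 * (y : ℝ) ^ (1 / 4 : ℝ) := by
      have := log_le_pow hy' (show (0 : ℝ) < 1 / 4 by norm_num)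
      linarith
    have hb : ∀ p ∈ (Pr y).filter (fun p : ℕ => (p : ℝ) ≤ Real.sqrt y),
        Real.log ((dd y p : ℝ) + 1) ≤ 6 * (y : ℝ) ^ (1 / 4 : ℝ) := by
      intro p hp
      rw [Finset.mem_filter] at hp
      have hpp := (Finset.mem_filter.1 hp.1).2
      obtain ⟨hp', h2⟩ := hterm p hp.1
      have hp1 : (1 : ℝ) ≤ p := by exact_mod_cast hpp.one_lt.le
      have h3 : Real.sqrt y / Real.sqrt p ≤ Real.sqrt y :=
        div_le_self hsy.le (Real.one_le_sqrt.2 hp1)
      have h4 : (dd y p : ℝ) + 1 ≤ 2 * Real.sqrt y := by linarith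
      calc Real.log ((dd y p : ℝ) + 1) ≤ Real.log (2 * Real.sqrt y) :=
            Real.log_le_log (by positivity) h4
        _ = Real.log 2 + Real.log y / 2 := by
            rw [Real.log_mul (by norm_num) hsy.ne', Real.log_sqrt hy'.le]
        _ ≤ 6 * (y : ℝ) ^ (1 / 4 : ℝ) := by
            have := Real.log_two_lt_d9
            linarith
    calc _ ≤ ∑ _p ∈ (Pr y).filter (fun p : ℕ => (p : ℝ) ≤ Real.sqrt y),
          6 * (y : ℝ) ^ (1 / 4 : ℝ) := Finset.sum_le_sum hb
      _ = (((Pr y).filter (fun p : ℕ => (p : ℝ) ≤ Real.sqrt y)).card : ℝ) *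
          (6 * (y : ℝ) ^ (1 / 4 : ℝ)) := by rw [Finset.sum_const, nsmul_eq_mul]
      _ ≤ Real.sqrt y * (6 * (y : ℝ) ^ (1 / 4 : ℝ)) :=
          mul_le_mul_of_nonneg_right hc' (by positivity)
      _ ≤ 24 * y / Real.log y := by
          rw [le_div_iff₀ hly]
          calc Real.sqrt y * (6 * (y : ℝ) ^ (1 / 4 : ℝ)) * Real.log y
              ≤ Real.sqrt y * (6 * (y : ℝ) ^ (1 / 4 : ℝ)) * (4 * (y : ℝ) ^ (1 / 4 : ℝ)) :=
                mul_le_mul_of_nonneg_left hlog (by positivity)
            _ = 24 * (Real.sqrt y * ((y : ℝ) ^ (1 / 4 : ℝ) * (y : ℝ) ^ (1 / 4 : ℝ))) := by ring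
            _ = 24 * y := by rw [hqq, hss]
  -- large primes
  have h2 : ∑ p ∈ (Pr y).filter (fun p : ℕ => ¬ (p : ℝ) ≤ Real.sqrt y),
      Real.log ((dd y p : ℝ) + 1) ≤ 8 * Real.log 4 * y / Real.log y := by
    calc _ ≤ ∑ p ∈ (Pr y).filter (fun p : ℕ => ¬ (p : ℝ) ≤ Real.sqrt y),
          (4 * Real.sqrt y / Real.log y) * (Real.log p / Real.sqrt p) := by
          refine Finset.sum_le_sum fun p hp => ?_
          rw [Finset.mem_filter, not_le] at hp
          obtain ⟨hp', h3⟩ := hterm p hp.1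
          have hsp : 0 < Real.sqrt p := Real.sqrt_pos.2 hp'
          have h4 : Real.log y / 2 ≤ Real.log p := by
            rw [← Real.log_sqrt hy'.le]
            exact Real.log_le_log hsy hp.2.le
          have h5 : Real.log ((dd y p : ℝ) + 1) ≤ 2 * (Real.sqrt y / Real.sqrt p) :=
            (Real.log_le_log (by positivity) h3).trans
              ((Real.log_le_sub_one_of_pos (by positivity)).trans (by linarith))
          refine h5.trans ?_
          have h6 : 1 ≤ 2 * Real.log p / Real.log y := by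
            rw [le_div_iff₀ hly]; linarith
          calc 2 * (Real.sqrt y / Real.sqrt p)
              ≤ 2 * (Real.sqrt y / Real.sqrt p) * (2 * Real.log p / Real.log y) :=
                le_mul_of_one_le_right (by positivity) h6
            _ = (4 * Real.sqrt y / Real.log y) * (Real.log p / Real.sqrt p) := by
                field_simp
                ring
      _ ≤ ∑ p ∈ Pr y, (4 * Real.sqrt y / Real.log y) * (Real.log p / Real.sqrt p) := by
          refine Finset.sum_le_sum_of_subset_of_nonneg (Finset.filter_subset _ _) fun p hp _ => ?_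
          have hpp := (Finset.mem_filter.1 hp).2
          have : 0 ≤ Real.log p := Real.log_nonneg (by exact_mod_cast hpp.one_lt.le)
          positivity
      _ = (4 * Real.sqrt y / Real.log y) * ∑ p ∈ Pr y, Real.log p / Real.sqrt p := by
          rw [Finset.mul_sum]
      _ ≤ (4 * Real.sqrt y / Real.log y) * (2 * Real.log 4 * Real.sqrt y) :=
          mul_le_mul_of_nonneg_left (sum_log_div_sqrt_le y) (by positivity)
      _ = 8 * Real.log 4 * (Real.sqrt y * Real.sqrt y) / Real.log y := by ring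
      _ = 8 * Real.log 4 * y / Real.log y := by rw [hss]
  calc _ ≤ 24 * y / Real.log y + 8 * Real.log 4 * y / Real.log y := add_le_add h1 h2
    _ = _ := by ring

lemma partB (K : ℝ) (hK : ∀ y Y : ℕ, 1 ≤ y → ∑ p ∈ Pri y Y, cp p ^ 2 ≤ K / Real.sqrt y) :
    ∃ K' : ℝ, 0 ≤ K' ∧ ∀ y Y : ℕ, 1 ≤ y →
      ∑ p ∈ Pri 0 Y, cp p ^ 2 * (1 - mu y p ^ 2) ≤ (K' + K) / Real.sqrt y := by
  classical
  have hs : Summable fun n : ℕ => 128 / (n : ℝ) ^ (5 / 4 : ℝ) := by
    have := (Real.summable_one_div_nat_rpow (p := (5 / 4 : ℝ))).2 (by norm_num)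
    simpa [div_eq_mul_inv] using this.mul_left 128
  have hnn : ∀ n : ℕ, 0 ≤ 128 / (n : ℝ) ^ (5 / 4 : ℝ) := fun n => by positivity
  refine ⟨∑' n : ℕ, 128 / (n : ℝ) ^ (5 / 4 : ℝ), tsum_nonneg hnn, fun y Y hy => ?_⟩
  have hy' : (0 : ℝ) < y := by exact_mod_cast hy
  have hsy : 0 < Real.sqrt y := Real.sqrt_pos.2 hy'
  rw [← Finset.sum_filter_add_sum_filter_not (Pri 0 Y) (fun p : ℕ => p ≤ y), add_div]
  refine add_le_add ?_ ?_
  · calc _ ≤ ∑ p ∈ (Pri 0 Y).filter (fun p : ℕ => p ≤ y),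
          (1 / Real.sqrt y) * (128 / (p : ℝ) ^ (5 / 4 : ℝ)) := by
          refine Finset.sum_le_sum fun p hp => ?_
          rw [Finset.mem_filter, mem_Pri] at hp
          obtain ⟨⟨_, _, hpp⟩, hpy⟩ := hp
          have hp' : (0 : ℝ) < p := by exact_mod_cast hpp.pos
          have hp1 : (1 : ℝ) ≤ p := by exact_mod_cast hpp.one_lt.le
          have hsp : 0 < Real.sqrt p := Real.sqrt_pos.2 hp'
          have h1 : 1 - mu y p ^ 2 ≤ 2 * (Real.sqrt p / Real.sqrt y) := by
            have h2 := one_sub_mu_le (y := y) hy hpp.pos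
            have h3 := mu_le_one y p
            have h4 := mu_nonneg y p
            nlinarith
          have h5 : cp p ^ 2 ≤ 64 * (p : ℝ) ^ (1 / 4 : ℝ) / (p : ℝ) ^ 2 := by
            unfold cp
            rw [div_pow]
            refine div_le_div_of_nonneg_right ?_ (by positivity)
            have h6 := log_le_pow hp' (show (0 : ℝ) < 1 / 8 by norm_num)
            have h7 : Real.log p ≤ 8 * (p : ℝ) ^ (1 / 8 : ℝ) := by linarith
            calc Real.log p ^ 2 ≤ (8 * (p : ℝ) ^ (1 / 8 : ℝ)) ^ 2 :=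
                  pow_le_pow_left₀ (Real.log_nonneg hp1) h7 2
              _ = 64 * ((p : ℝ) ^ (1 / 8 : ℝ) * (p : ℝ) ^ (1 / 8 : ℝ)) := by ring
              _ = 64 * (p : ℝ) ^ (1 / 4 : ℝ) := by
                  rw [← Real.rpow_add hp']; norm_num
          calc cp p ^ 2 * (1 - mu y p ^ 2)
              ≤ cp p ^ 2 * (2 * (Real.sqrt p / Real.sqrt y)) :=
                mul_le_mul_of_nonneg_left h1 (sq_nonneg _)
            _ ≤ (64 * (p : ℝ) ^ (1 / 4 : ℝ) / (p : ℝ) ^ 2) * (2 * (Real.sqrt p / Real.sqrt y)) :=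
                mul_le_mul_of_nonneg_right h5 (by positivity)
            _ = (1 / Real.sqrt y) * (128 / (p : ℝ) ^ (5 / 4 : ℝ)) := by
                have e1 : (p : ℝ) ^ (1 / 4 : ℝ) * Real.sqrt p * (p : ℝ) ^ (5 / 4 : ℝ) =
                    (p : ℝ) ^ 2 := by
                  rw [Real.sqrt_eq_rpow, ← Real.rpow_add hp', ← Real.rpow_add hp',
                    ← Real.rpow_natCast]
                  norm_num
                have e2 : (p : ℝ) ^ (5 / 4 : ℝ) ≠ 0 := (Real.rpow_pos_of_pos hp' _).ne'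
                field_simp
                rw [← e1]
                ring
      _ = (1 / Real.sqrt y) * ∑ p ∈ (Pri 0 Y).filter (fun p : ℕ => p ≤ y),
          128 / (p : ℝ) ^ (5 / 4 : ℝ) := by rw [Finset.mul_sum]
      _ ≤ (1 / Real.sqrt y) * ∑' n : ℕ, 128 / (n : ℝ) ^ (5 / 4 : ℝ) :=
          mul_le_mul_of_nonneg_left (hs.sum_le_tsum _ fun n _ => hnn n) (by positivity)
      _ = _ := by ring
  · calc _ ≤ ∑ p ∈ Pri y Y, cp p ^ 2 := by
          have hsub : (Pri 0 Y).filter (fun p : ℕ => ¬ p ≤ y) ⊆ Pri y Y := by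
            intro p hp
            rw [Finset.mem_filter, mem_Pri, not_le] at hp
            exact mem_Pri.2 ⟨hp.2, hp.1.2.1, hp.1.2.2⟩
          calc _ ≤ ∑ p ∈ (Pri 0 Y).filter (fun p : ℕ => ¬ p ≤ y), cp p ^ 2 := by
                refine Finset.sum_le_sum fun p _ => ?_
                refine mul_le_of_le_one_right (sq_nonneg _) ?_
                have := sq_nonneg (mu y p)
                linarith
            _ ≤ _ := Finset.sum_le_sum_of_subset_of_nonneg hsub fun p _ _ => sq_nonneg _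
      _ ≤ K / Real.sqrt y := hK y Y hy

end M10x

open M10x in
theorem st8 (h : St4) : St8 := by
  obtain ⟨K, hK0, -, hK⟩ := h
  obtain ⟨K', hK', hB⟩ := partB K hK
  have hl4 : 0 ≤ Real.log 4 := Real.log_nonneg (by norm_num)
  refine ⟨24 + 8 * Real.log 4 + K' + K, by positivity, fun y hy => ?_, fun y Y hy => ?_,
    fun y hy => ?_⟩
  · have hy1 : (2 : ℝ) ≤ y := by exact_mod_cast hy
    have hly : 0 < Real.log y := Real.log_pos (by linarith)
    refine (partA hy).trans ?_
    refine div_le_div_of_nonneg_right ?_ hly.le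
    refine mul_le_mul_of_nonneg_right ?_ (by positivity)
    linarith
  · refine (hB y Y hy).trans ?_
    refine div_le_div_of_nonneg_right ?_ (Real.sqrt_nonneg _)
    linarith
  · exact (partC hy).trans (by linarith)

end Pool.Agent.Lib.MP_774a5f_nt.LD
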