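import Pool.Agent.Lib.MP_774a5f_nt.LD.Stmts

/-!
# Steering and completely multiplicative extension (modules St9, St10)
-/

set_option autoImplicit false

namespace Pool.Agent.Lib.MP_774a5f_nt.LD

open Complex

theorem st9 : St9 := by
  intro ε F r w hε hr hw
  have key : ∀ F : Finset ℕ, (∀ p ∈ F, 0 ≤ r p ∧ r p ≤ ε) → ∀ w : ℂ,
      ∃ x : ℕ → ℂ, (∀ p, ‖x p‖ = 1) ∧
        ‖(∑ p ∈ F, (r p : ℂ) * x p) - w‖ ≤ max ε (‖w‖ - ∑ p ∈ F, r p) := by
    intro F
    induction F using Finset.induction_on with
    | empty =>
      intro _ w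
      exact ⟨fun _ => 1, fun _ => norm_one, by simp⟩
    | insert a F ha ih =>
      intro hF w
      have hra := hF a (Finset.mem_insert_self a F)
      have hF' : ∀ p ∈ F, 0 ≤ r p ∧ r p ≤ ε := fun p hp => hF p (Finset.mem_insert_of_mem hp)
      have hsum : 0 ≤ ∑ p ∈ F, r p := Finset.sum_nonneg fun p hp => (hF' p hp).1
      obtain ⟨u, hu, hwu⟩ : ∃ u : ℂ, ‖u‖ = 1 ∧ w = ‖w‖ * u := by
        by_cases h : w = 0
        · exact ⟨1, norm_one, by simp [h]⟩
        · have h' : (‖w‖ : ℂ) ≠ 0 := by exact_mod_cast (norm_pos_iff.2 h).ne'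
          refine ⟨w / ‖w‖, ?_, by field_simp⟩
          rw [norm_div, norm_real, norm_norm, div_self (norm_pos_iff.2 h).ne']
      obtain ⟨x, hx, hxw⟩ := ih hF' (w - r a * u)
      refine ⟨Function.update x a u, fun p => ?_, ?_⟩
      · by_cases hp : p = a
        · rw [hp, Function.update_self]; exact hu
        · rw [Function.update_of_ne hp]; exact hx p
      · have e1 : ∑ p ∈ F, (r p : ℂ) * Function.update x a u p = ∑ p ∈ F, (r p : ℂ) * x p := by
          refine Finset.sum_congr rfl fun p hp => ?_
          have : p ≠ a := fun h => ha (h ▸ hp)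
          rw [Function.update_of_ne this]
        rw [Finset.sum_insert ha, Finset.sum_insert ha, Function.update_self, e1]
        have e2 : (r a : ℂ) * u + ∑ p ∈ F, (r p : ℂ) * x p - w =
            (∑ p ∈ F, (r p : ℂ) * x p) - (w - r a * u) := by ring
        rw [e2]
        have e3 : ‖w - r a * u‖ = |‖w‖ - r a| := by
          have : w - r a * u = ((‖w‖ - r a : ℝ) : ℂ) * u := by
            push_cast
            linear_combination hwu
          rw [this, norm_mul, hu, mul_one, norm_real, Real.norm_eq_abs]
        rw [e3] at hxw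
        refine hxw.trans ?_
        rcases le_total (r a) ‖w‖ with h | h
        · rw [abs_of_nonneg (by linarith)]
          exact max_le_max le_rfl (by linarith)
        · rw [abs_of_nonpos (by linarith)]
          refine max_le (le_max_left _ _) ((le_trans ?_ (le_max_left _ _)))
          have := norm_nonneg w
          linarith [hra.2]
  obtain ⟨x, hx, h⟩ := key F hr w
  exact ⟨x, hx, h.trans (max_le le_rfl (by linarith))⟩

theorem st10 : St10 := by
  intro x hx
  refine ⟨fun n => n.factorization.prod fun p k => x p ^ k, ⟨?_, ?_⟩, ?_⟩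
  · intro m n hm hn
    show (m * n).factorization.prod _ = _
    rw [Nat.factorization_mul hm hn]
    exact Finsupp.prod_add_index' (fun _ => pow_zero _) fun _ _ _ => pow_add _ _ _
  · intro n _
    show ‖n.factorization.prod _‖ = 1
    unfold Finsupp.prod
    rw [norm_prod]
    exact Finset.prod_eq_one fun p _ => by rw [norm_pow, hx, one_pow]
  · intro p hp
    show p.factorization.prod _ = _
    rw [hp.factorization]
    have h1 : (Finsupp.single p 1).prod (fun q k => x q ^ k) = x p ^ 1 :=
      Finsupp.prod_single_index (pow_zero _)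
    rw [h1, pow_one]

end Pool.Agent.Lib.MP_774a5f_nt.LD
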