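import Pool.Agent.Lib.MP_774a5f_nt.LD.Base81
import Pool.Agent.Lib.MP_a17b09_nt.Divisor

/-!
# Module M3: `ζ'/ζ(1+it) = -S(t) + o(1)` outside a small set
-/

namespace Pool.Agent.Lib.MP_774a5f_nt.LD

open MeasureTheory Complex Set
open ArithmeticFunction (vonMangoldt)
open scoped ComplexConjugate Nat

/-- truncated divisor sum -/
noncomputable def cv (N M : ℕ) (a : ℕ → ℝ) (k : ℕ) : ℝ :=
  ∑ p ∈ k.divisorsAntidiagonal with (p.1 ≤ N ∧ p.2 ≤ M), a p.2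

lemma prod_poly (N M : ℕ) (a : ℕ → ℝ) (t : ℝ) :
    (∑ m ∈ Finset.Icc 1 N, ((1 / m : ℝ) : ℂ) * X t m) *
      (∑ d ∈ Finset.Icc 1 M, ((a d / d : ℝ) : ℂ) * X t d) =
    ∑ k ∈ Finset.Icc 1 (N * M), ((cv N M a k / k : ℝ) : ℂ) * X t k := by
  rw [Finset.sum_mul_sum, ← Finset.sum_product']
  have hmaps : ∀ p ∈ Finset.Icc 1 N ×ˢ Finset.Icc 1 M, p.1 * p.2 ∈ Finset.Icc 1 (N * M) := by
    intro p hp
    simp only [Finset.mem_product, Finset.mem_Icc] at hp ⊢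
    exact ⟨Nat.mul_pos hp.1.1 hp.2.1, Nat.mul_le_mul hp.1.2 hp.2.2⟩
  rw [← Finset.sum_fiberwise_of_maps_to hmaps]
  refine Finset.sum_congr rfl fun k hk => ?_
  have hk1 := (Finset.mem_Icc.1 hk).1
  have hfib : (Finset.Icc 1 N ×ˢ Finset.Icc 1 M).filter (fun p => p.1 * p.2 = k) =
      k.divisorsAntidiagonal.filter (fun p => p.1 ≤ N ∧ p.2 ≤ M) := by
    ext p
    simp only [Finset.mem_filter, Finset.mem_product, Finset.mem_Icc,
      Nat.mem_divisorsAntidiagonal]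
    constructor
    · rintro ⟨⟨⟨h1, h2⟩, h3, h4⟩, h5⟩
      exact ⟨⟨h5, by omega⟩, h2, h4⟩
    · rintro ⟨⟨h5, h6⟩, h2, h4⟩
      have : 0 < p.1 * p.2 := by omega
      have h7 := Nat.pos_of_mul_pos_right this |> fun h => h
      exact ⟨⟨⟨Nat.pos_of_ne_zero (by rintro h; rw [h] at this; simp at this), h2⟩,
        Nat.pos_of_ne_zero (by rintro h; rw [h] at this; simp at this), h4⟩, h5⟩
  rw [hfib, cv, Finset.sum_div, Complex.ofReal_sum, Finset.sum_mul]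
  refine Finset.sum_congr rfl fun p hp => ?_
  have hp' := Nat.mem_divisorsAntidiagonal.1 (Finset.mem_filter.1 hp).1
  have h1 : p.1 ≠ 0 := by rintro h; rw [h] at hp'; simp at hp'; omega
  have h2 : p.2 ≠ 0 := by rintro h; rw [h] at hp'; simp at hp'; omega
  rw [← hp'.1, X_mul t h1 h2]
  push_cast
  have h1' : (p.1 : ℂ) ≠ 0 := by exact_mod_cast h1
  have h2' : (p.2 : ℂ) ≠ 0 := by exact_mod_cast h2
  field_simp

lemma cv_small {N M : ℕ} {a : ℕ → ℝ} {k : ℕ} (h1 : k ≤ M) (h2 : M ≤ N) :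
    cv N M a k = ∑ d ∈ k.divisors, a d := by
  rw [cv, Finset.filter_true_of_mem]
  · exact Nat.sum_divisorsAntidiagonal' (fun _ d => a d)
  · intro p hp
    have hp' := Nat.mem_divisorsAntidiagonal.1 hp
    have h3 : p.1 ≤ k := Nat.le_of_dvd (by omega) (Dvd.intro _ hp'.1)
    have h4 : p.2 ≤ k := Nat.le_of_dvd (by omega) (Dvd.intro_left _ hp'.1)
    exact ⟨by omega, by omega⟩

lemma cv_abs_le (N M : ℕ) (a : ℕ → ℝ) (k : ℕ) :
    |cv N M a k| ≤ ∑ d ∈ k.divisors, |a d| := by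
  have e : ∑ p ∈ k.divisorsAntidiagonal, |a p.2| = ∑ d ∈ k.divisors, |a d| :=
    Nat.sum_divisorsAntidiagonal' (fun _ d => |a d|)
  rw [cv, ← e]
  refine (Finset.abs_sum_le_sum_abs _ _).trans ?_
  exact Finset.sum_le_sum_of_subset_of_nonneg (Finset.filter_subset _ _)
    (fun _ _ _ => abs_nonneg _)

lemma floor_facts {T : ℝ} (hT : 16 ≤ T) : (1 : ℝ) ≤ (⌊√T⌋₊ : ℝ) ∧ √T / 2 ≤ (⌊√T⌋₊ : ℝ) ∧
    (⌊√T⌋₊ : ℝ) ≤ √T ∧ (⌊T ^ 2⌋₊ : ℝ) ≤ T ^ 2 ∧ ⌊√T⌋₊ ≤ ⌊T ^ 2⌋₊ := by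
  have h4 : (4 : ℝ) ≤ √T := by
    apply Real.le_sqrt_of_sq_le
    norm_num
    exact hT
  have h1 := Nat.lt_floor_add_one √T
  refine ⟨?_, by linarith, Nat.floor_le (by linarith), Nat.floor_le (by positivity), ?_⟩
  · linarith
  · apply Nat.floor_le_floor
    have h2 : √T * √T = T := Real.mul_self_sqrt (by linarith)
    nlinarith

lemma sum_one_div_le (n : ℕ) :
    ∑ k ∈ Finset.Icc 1 n, (1 : ℝ) / k ≤ 1 + Real.log n := by
  have h := harmonic_le_one_add_log n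
  have e : ((harmonic n : ℚ) : ℝ) = ∑ k ∈ Finset.Icc 1 n, (1 : ℝ) / k := by
    rw [harmonic_eq_sum_Icc]
    push_cast
    simp
  linarith

lemma tail_ms (h1 : St1) (K : ℝ) : ∃ K' : ℝ, 0 < K' ∧ ∀ T : ℝ, 16 ≤ T →
    ∀ a : ℕ → ℂ, (∀ k : ℕ, ⌊√T⌋₊ < k → ‖a k‖ ≤ K * (k : ℝ) ^ (-(9 / 10) : ℝ)) →
    ∫ t in T..(2 * T), ‖∑ k ∈ Finset.Ioc ⌊√T⌋₊ (⌊T ^ 2⌋₊ * ⌊√T⌋₊), a k * X t k‖ ^ 2 ≤
      K' * T ^ (3 / 4 : ℝ) := by
  have hs : Summable fun n : ℕ => (n : ℝ) ^ (-(13 / 10) : ℝ) :=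
    Real.summable_nat_rpow.2 (by norm_num)
  set B : ℝ := ∑' n : ℕ, (n : ℝ) ^ (-(13 / 10) : ℝ) with hB
  have hB0 : 0 ≤ B := tsum_nonneg fun n => by positivity
  refine ⟨K ^ 2 * (2 * B + 6 * 441) + 1, by positivity, ?_⟩
  intro T hT a ha
  obtain ⟨hM1, hM2, hM3, hN1, hMN⟩ := floor_facts hT
  set M : ℕ := ⌊√T⌋₊ with hM
  set N : ℕ := ⌊T ^ 2⌋₊ with hN
  have hT0 : 0 < T := by linarith
  have hM1' : 1 ≤ M := by exact_mod_cast hM1
  have hNM1 : 1 ≤ N * M := Nat.mul_pos (by omega) hM1'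
  have hNM : ((N * M : ℕ) : ℝ) ≤ T ^ (5 / 2 : ℝ) := by
    push_cast
    calc (N : ℝ) * M ≤ T ^ 2 * √T := by gcongr
      _ = T ^ (5 / 2 : ℝ) := by
        rw [Real.sqrt_eq_rpow, ← Real.rpow_natCast, ← Real.rpow_add hT0]
        norm_num
  have hlogNM : Real.log (N * M : ℕ) ≤ 5 / 2 * Real.log T := by
    calc Real.log (N * M : ℕ) ≤ Real.log (T ^ (5 / 2 : ℝ)) :=
          Real.log_le_log (by exact_mod_cast hNM1) hNM
      _ = _ := Real.log_rpow hT0 _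
  have hlogT : Real.log T ≤ 8 * T ^ (1 / 8 : ℝ) := by
    have := Real.log_le_rpow_div hT0.le (show (0 : ℝ) < 1 / 8 by norm_num)
    linarith
  have hT8 : 1 ≤ T ^ (1 / 8 : ℝ) := Real.one_le_rpow (by linarith) (by norm_num)
  have hl1 : 1 + Real.log (N * M : ℕ) ≤ 21 * T ^ (1 / 8 : ℝ) := by linarith
  have hl0 : 0 ≤ Real.log (N * M : ℕ) := Real.log_nonneg (by exact_mod_cast hNM1)
  have hl2 : (1 + Real.log (N * M : ℕ)) ^ 2 ≤ 441 * T ^ (1 / 4 : ℝ) := by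
    calc (1 + Real.log (N * M : ℕ)) ^ 2 ≤ (21 * T ^ (1 / 8 : ℝ)) ^ 2 := by gcongr
      _ = 441 * T ^ (1 / 4 : ℝ) := by
        rw [mul_pow, ← Real.rpow_natCast, ← Real.rpow_natCast, ← Real.rpow_mul hT0.le]
        norm_num
  have hmv := h1 (Finset.Ioc M (N * M)) (N * M) a T (2 * T)
    (fun n hn => ⟨by have := (Finset.mem_Ioc.1 hn).1; omega, (Finset.mem_Ioc.1 hn).2⟩)
    (by linarith)
  refine hmv.trans ?_
  have hMpow : (M : ℝ) ^ (-(1 / 2) : ℝ) ≤ 2 * T ^ (-(1 / 4) : ℝ) := by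
    have h2 : (M : ℝ) ^ (-(1 / 2) : ℝ) ≤ (√T / 2) ^ (-(1 / 2) : ℝ) :=
      Real.rpow_le_rpow_of_nonpos (by positivity) hM2 (by norm_num)
    refine h2.trans ?_
    rw [Real.div_rpow (by positivity) (by norm_num), Real.sqrt_eq_rpow, ← Real.rpow_mul hT0.le]
    have h3 : (1 : ℝ) / 2 ≤ (2 : ℝ) ^ (-(1 / 2) : ℝ) := by
      have : (2 : ℝ) ^ (-1 : ℝ) ≤ (2 : ℝ) ^ (-(1 / 2) : ℝ) :=
        Real.rpow_le_rpow_of_exponent_le (by norm_num) (by norm_num)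
      rw [Real.rpow_neg_one] at this
      linarith
    rw [div_le_iff₀ (by positivity)]
    have h4 : (1 / 2 * -(1 / 2) : ℝ) = -(1 / 4) := by norm_num
    rw [h4]
    have h5 : 0 ≤ T ^ (-(1 / 4) : ℝ) := by positivity
    nlinarith
  have hterm : ∀ k ∈ Finset.Ioc M (N * M),
      ‖a k‖ ^ 2 * ((2 * T - T) + 6 * k * (1 + Real.log (N * M : ℕ))) ≤
      K ^ 2 * (2 * T ^ (3 / 4 : ℝ)) * (k : ℝ) ^ (-(13 / 10) : ℝ) +
      K ^ 2 * (6 * (1 + Real.log (N * M : ℕ)) * T ^ (1 / 2 : ℝ)) * (1 / k) := by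
    intro k hk
    have hk' := Finset.mem_Ioc.1 hk
    have hk0 : (0 : ℝ) < k := by
      have : 0 < k := by omega
      exact_mod_cast this
    have hMk : (M : ℝ) ≤ k := by exact_mod_cast hk'.1.le
    have hak : ‖a k‖ ^ 2 ≤ K ^ 2 * (k : ℝ) ^ (-(9 / 5) : ℝ) := by
      calc ‖a k‖ ^ 2 ≤ (K * (k : ℝ) ^ (-(9 / 10) : ℝ)) ^ 2 := by
            gcongr
            exact ha k hk'.1
        _ = _ := by
            rw [mul_pow, ← Real.rpow_natCast, ← Real.rpow_natCast, ← Real.rpow_mul hk0.le]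
            norm_num
    have e1 : (k : ℝ) ^ (-(9 / 5) : ℝ) * T ≤
        2 * T ^ (3 / 4 : ℝ) * (k : ℝ) ^ (-(13 / 10) : ℝ) := by
      have h2 : (k : ℝ) ^ (-(9 / 5) : ℝ) =
          (k : ℝ) ^ (-(1 / 2) : ℝ) * (k : ℝ) ^ (-(13 / 10) : ℝ) := by
        rw [← Real.rpow_add hk0]; norm_num
      have h3 : (k : ℝ) ^ (-(1 / 2) : ℝ) ≤ (M : ℝ) ^ (-(1 / 2) : ℝ) :=
        Real.rpow_le_rpow_of_nonpos (by linarith) hMk (by norm_num)
      have h4 : T ^ (-(1 / 4) : ℝ) * T = T ^ (3 / 4 : ℝ) := by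
        have := Real.rpow_add hT0 (-(1 / 4)) 1
        rw [Real.rpow_one] at this
        rw [← this]; norm_num
      calc (k : ℝ) ^ (-(9 / 5) : ℝ) * T
          = (k : ℝ) ^ (-(1 / 2) : ℝ) * T * (k : ℝ) ^ (-(13 / 10) : ℝ) := by rw [h2]; ring
        _ ≤ (2 * T ^ (-(1 / 4) : ℝ)) * T * (k : ℝ) ^ (-(13 / 10) : ℝ) := by
            gcongr
            exact h3.trans hMpow
        _ = _ := by rw [← h4]; ring
    have e2 : (k : ℝ) ^ (-(9 / 5) : ℝ) * k ≤ T ^ (1 / 2 : ℝ) * (1 / k) := by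
      have h2 : (k : ℝ) ^ (-(9 / 5) : ℝ) * k = (k : ℝ) ^ (1 / 5 : ℝ) * (1 / k) := by
        have a1 : (k : ℝ) ^ (-(9 / 5) : ℝ) * (k : ℝ) ^ (1 : ℝ) = (k : ℝ) ^ (-(4 / 5) : ℝ) := by
          rw [← Real.rpow_add hk0]; norm_num
        have a2 : (k : ℝ) ^ (1 / 5 : ℝ) * (k : ℝ) ^ (-1 : ℝ) = (k : ℝ) ^ (-(4 / 5) : ℝ) := by
          rw [← Real.rpow_add hk0]; norm_num
        rw [Real.rpow_one] at a1
        rw [Real.rpow_neg_one, inv_eq_one_div] at a2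
        rw [a1, a2]
      rw [h2]
      have h3 : (k : ℝ) ^ (1 / 5 : ℝ) ≤ (T ^ (5 / 2 : ℝ)) ^ (1 / 5 : ℝ) := by
        apply Real.rpow_le_rpow hk0.le _ (by norm_num)
        exact le_trans (by exact_mod_cast hk'.2) hNM
      have h4 : (T ^ (5 / 2 : ℝ)) ^ (1 / 5 : ℝ) = T ^ (1 / 2 : ℝ) := by
        rw [← Real.rpow_mul hT0.le]; norm_num
      rw [h4] at h3
      gcongr
    have hfac : 0 ≤ 6 * (1 + Real.log (N * M : ℕ)) := by linarith
    calc ‖a k‖ ^ 2 * ((2 * T - T) + 6 * k * (1 + Real.log (N * M : ℕ)))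
        ≤ (K ^ 2 * (k : ℝ) ^ (-(9 / 5) : ℝ)) *
          ((2 * T - T) + 6 * k * (1 + Real.log (N * M : ℕ))) := by
          gcongr
          have : 0 ≤ 6 * (k : ℝ) * (1 + Real.log (N * M : ℕ)) := by positivity
          linarith
      _ = K ^ 2 * ((k : ℝ) ^ (-(9 / 5) : ℝ) * T) +
          K ^ 2 * (6 * (1 + Real.log (N * M : ℕ)) * ((k : ℝ) ^ (-(9 / 5) : ℝ) * k)) := by ring
      _ ≤ K ^ 2 * (2 * T ^ (3 / 4 : ℝ) * (k : ℝ) ^ (-(13 / 10) : ℝ)) +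
          K ^ 2 * (6 * (1 + Real.log (N * M : ℕ)) * (T ^ (1 / 2 : ℝ) * (1 / k))) := by
          gcongr
      _ = _ := by ring
  refine (Finset.sum_le_sum hterm).trans ?_
  rw [Finset.sum_add_distrib, ← Finset.mul_sum, ← Finset.mul_sum]
  have s1 : ∑ k ∈ Finset.Ioc M (N * M), (k : ℝ) ^ (-(13 / 10) : ℝ) ≤ B :=
    hs.sum_le_tsum _ (fun n _ => by positivity)
  have s2 : ∑ k ∈ Finset.Ioc M (N * M), (1 : ℝ) / k ≤ 1 + Real.log (N * M : ℕ) := by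
    refine le_trans (Finset.sum_le_sum_of_subset_of_nonneg ?_ (fun _ _ _ => by positivity))
      (sum_one_div_le (N * M))
    intro k hk
    have := Finset.mem_Ioc.1 hk
    exact Finset.mem_Icc.2 ⟨by omega, this.2⟩
  have h34 : T ^ (1 / 4 : ℝ) * T ^ (1 / 2 : ℝ) = T ^ (3 / 4 : ℝ) := by
    rw [← Real.rpow_add hT0]; norm_num
  calc K ^ 2 * (2 * T ^ (3 / 4 : ℝ)) * ∑ k ∈ Finset.Ioc M (N * M), (k : ℝ) ^ (-(13 / 10) : ℝ) +
      K ^ 2 * (6 * (1 + Real.log (N * M : ℕ)) * T ^ (1 / 2 : ℝ)) *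
        ∑ k ∈ Finset.Ioc M (N * M), (1 : ℝ) / k
      ≤ K ^ 2 * (2 * T ^ (3 / 4 : ℝ)) * B +
      K ^ 2 * (6 * (1 + Real.log (N * M : ℕ)) * T ^ (1 / 2 : ℝ)) *
        (1 + Real.log (N * M : ℕ)) := by gcongr
    _ = K ^ 2 * (2 * T ^ (3 / 4 : ℝ)) * B +
      K ^ 2 * 6 * ((1 + Real.log (N * M : ℕ)) ^ 2 * T ^ (1 / 2 : ℝ)) := by ring
    _ ≤ K ^ 2 * (2 * T ^ (3 / 4 : ℝ)) * B +
      K ^ 2 * 6 * ((441 * T ^ (1 / 4 : ℝ)) * T ^ (1 / 2 : ℝ)) := by gcongr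
    _ = K ^ 2 * (2 * B + 6 * 441) * T ^ (3 / 4 : ℝ) := by rw [← h34]; ring
    _ ≤ (K ^ 2 * (2 * B + 6 * 441) + 1) * T ^ (3 / 4 : ℝ) := by
        have : 0 ≤ T ^ (3 / 4 : ℝ) := by positivity
        nlinarith


/-- coefficients of `D_1 - D S` -/
noncomputable def f1 (N M k : ℕ) : ℝ :=
  (if k ≤ N then Real.log k else 0) - cv N M (fun n => vonMangoldt n) k

lemma f1_small {N M k : ℕ} (h1 : k ≤ M) (h2 : M ≤ N) : f1 N M k = 0 := by
  rw [f1, if_pos (h1.trans h2), cv_small h1 h2, ArithmeticFunction.vonMangoldt_sum, sub_self]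

lemma f1_abs (N M k : ℕ) : |f1 N M k| ≤ 2 * Real.log k := by
  have h1 := cv_abs_le N M (fun n => vonMangoldt n) k
  have h2 : ∑ d ∈ k.divisors, |vonMangoldt d| = Real.log k := by
    rw [← ArithmeticFunction.vonMangoldt_sum]
    exact Finset.sum_congr rfl fun d _ => abs_of_nonneg ArithmeticFunction.vonMangoldt_nonneg
  rw [h2] at h1
  have h3 : |(if k ≤ N then Real.log k else 0)| ≤ Real.log k := by
    split_ifs
    · rw [abs_of_nonneg (Real.log_natCast_nonneg k)]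
    · rw [abs_zero]; exact Real.log_natCast_nonneg k
  rw [f1]
  refine (abs_sub _ _).trans ?_
  linarith

lemma G1_eq {N M : ℕ} (hM : 1 ≤ M) (hMN : M ≤ N) (t : ℝ) :
    (∑ m ∈ Finset.Icc 1 N, ((Real.log m / m : ℝ) : ℂ) * X t m) -
      (∑ m ∈ Finset.Icc 1 N, ((1 / m : ℝ) : ℂ) * X t m) *
      (∑ d ∈ Finset.Icc 1 M, ((vonMangoldt d / d : ℝ) : ℂ) * X t d) =
    ∑ k ∈ Finset.Ioc M (N * M), ((f1 N M k / k : ℝ) : ℂ) * X t k := by
  have hNM : N ≤ N * M := Nat.le_mul_of_pos_right N hM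
  rw [prod_poly N M (fun n => vonMangoldt n) t]
  have e1 : ∑ m ∈ Finset.Icc 1 N, ((Real.log m / m : ℝ) : ℂ) * X t m =
      ∑ k ∈ Finset.Icc 1 (N * M), (((if k ≤ N then Real.log k else 0) / k : ℝ) : ℂ) * X t k := by
    have hsub : Finset.Icc 1 N ⊆ Finset.Icc 1 (N * M) := Finset.Icc_subset_Icc_right hNM
    rw [← Finset.sum_subset hsub]
    · refine Finset.sum_congr rfl fun k hk => ?_
      rw [if_pos (Finset.mem_Icc.1 hk).2]
    · intro k hk hk'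
      have : ¬ k ≤ N := fun h => hk' (Finset.mem_Icc.2 ⟨(Finset.mem_Icc.1 hk).1, h⟩)
      rw [if_neg this]
      simp
  rw [e1, ← Finset.sum_sub_distrib]
  have hsub : Finset.Ioc M (N * M) ⊆ Finset.Icc 1 (N * M) := by
    intro k hk
    have := Finset.mem_Ioc.1 hk
    exact Finset.mem_Icc.2 ⟨by omega, this.2⟩
  rw [← Finset.sum_subset hsub]
  · refine Finset.sum_congr rfl fun k hk => ?_
    rw [f1]
    push_cast
    ring
  · intro k hk hk'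
    have hkM : k ≤ M := by
      by_contra h
      exact hk' (Finset.mem_Ioc.2 ⟨by omega, (Finset.mem_Icc.1 hk).2⟩)
    have h0 := f1_small hkM hMN
    rw [f1] at h0
    have h0' : (((if k ≤ N then Real.log k else 0) : ℝ) : ℂ) =
        ((cv N M (fun n => vonMangoldt n) k : ℝ) : ℂ) := by
      rw [sub_eq_zero.1 h0]
    rw [Complex.ofReal_div, Complex.ofReal_div, h0']
    ring

lemma moeb_sum {k : ℕ} :
    ∑ d ∈ k.divisors, ((ArithmeticFunction.moebius d : ℤ) : ℝ) = if k = 1 then 1 else 0 := by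
  have h := congrArg (fun f : ArithmeticFunction ℤ => f k) ArithmeticFunction.moebius_mul_coe_zeta
  simp only [ArithmeticFunction.coe_mul_zeta_apply, ArithmeticFunction.one_apply] at h
  have h2 := congrArg (fun z : ℤ => (z : ℝ)) h
  push_cast at h2
  exact h2

lemma G2_eq {N M : ℕ} (hM : 1 ≤ M) (hMN : M ≤ N) (t : ℝ) :
    (∑ m ∈ Finset.Icc 1 N, ((1 / m : ℝ) : ℂ) * X t m) *
      (∑ d ∈ Finset.Icc 1 M, ((((ArithmeticFunction.moebius d : ℤ) : ℝ) / d : ℝ) : ℂ) * X t d) - 1 =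
    ∑ k ∈ Finset.Ioc M (N * M),
      ((cv N M (fun n => ((ArithmeticFunction.moebius n : ℤ) : ℝ)) k / k : ℝ) : ℂ) * X t k := by
  rw [prod_poly N M (fun n => ((ArithmeticFunction.moebius n : ℤ) : ℝ)) t]
  have hN1 : 1 ≤ N * M := Nat.mul_pos (by omega) hM
  have e1 : (1 : ℂ) = ∑ k ∈ Finset.Icc 1 (N * M), (if k = 1 then (1 : ℂ) else 0) := by
    rw [Finset.sum_ite_eq' (Finset.Icc 1 (N * M)) 1 (fun _ => (1 : ℂ)),
      if_pos (Finset.mem_Icc.2 ⟨le_rfl, hN1⟩)]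
  rw [e1, ← Finset.sum_sub_distrib]
  have hsub : Finset.Ioc M (N * M) ⊆ Finset.Icc 1 (N * M) := by
    intro k hk
    have := Finset.mem_Ioc.1 hk
    exact Finset.mem_Icc.2 ⟨by omega, this.2⟩
  rw [← Finset.sum_subset hsub]
  · refine Finset.sum_congr rfl fun k hk => ?_
    have : k ≠ 1 := by have := Finset.mem_Ioc.1 hk; omega
    rw [if_neg this, sub_zero]
  · intro k hk hk'
    have hk1 := (Finset.mem_Icc.1 hk).1
    have hkM : k ≤ M := by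
      by_contra h
      exact hk' (Finset.mem_Ioc.2 ⟨by omega, (Finset.mem_Icc.1 hk).2⟩)
    rw [cv_small hkM hMN, moeb_sum]
    by_cases h : k = 1
    · subst h
      simp [X_one]
    · simp [h]


/-- pointwise step -/
lemma point {T C : ℝ} (hT : 16 ≤ T) (hC : 0 < C)
    (hc1 : C / √T ≤ 1 / (4 * Real.log T))
    (hc2 : 4 * (Real.log T) ^ 2 *
      (C / √T * (1 + (Real.log T) ^ 2) + T ^ (-(1 / 20) : ℝ)) ≤ 1)
    {ζ ζ' D D1 Mo S : ℂ}
    (hz : ‖ζ - D‖ ≤ C / √T) (hz' : ‖ζ' + D1‖ ≤ C / √T)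
    (hMo : ‖Mo‖ ≤ Real.log T) (hS : ‖S‖ ≤ (Real.log T) ^ 2)
    (hG1 : ‖D1 - D * S‖ ≤ T ^ (-(1 / 20) : ℝ)) (hG2 : ‖D * Mo - 1‖ ≤ 1 / 2) :
    ‖ζ' / ζ + S‖ ≤ 1 / Real.log T := by
  have hL : 0 < Real.log T := Real.log_pos (by linarith)
  have hD : 1 / (2 * Real.log T) ≤ ‖D‖ := by
    have h1 : 1 / 2 ≤ ‖D * Mo‖ := by
      have h2 := norm_sub_norm_le (1 : ℂ) (1 - D * Mo)
      rw [sub_sub_cancel, norm_one, norm_sub_rev] at h2
      linarith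
    rw [norm_mul] at h1
    rw [div_le_iff₀ (by positivity)]
    have h3 : ‖D‖ * ‖Mo‖ ≤ ‖D‖ * Real.log T := by gcongr
    linarith
  have hζ : 1 / (4 * Real.log T) ≤ ‖ζ‖ := by
    have h2 := norm_sub_norm_le D (D - ζ)
    rw [sub_sub_cancel, norm_sub_rev] at h2
    have h3 : 1 / (2 * Real.log T) = 1 / (4 * Real.log T) + 1 / (4 * Real.log T) := by
      field_simp
      norm_num
    linarith
  have hζ0 : 0 < ‖ζ‖ := lt_of_lt_of_le (by positivity) hζ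
  have hζne : ζ ≠ 0 := norm_pos_iff.1 hζ0
  have hnum : ‖ζ' + ζ * S‖ ≤
      C / √T * (1 + (Real.log T) ^ 2) + T ^ (-(1 / 20) : ℝ) := by
    have e : ζ' + ζ * S = (ζ' + D1) + (ζ - D) * S - (D1 - D * S) := by ring
    rw [e]
    have h1 := norm_sub_le ((ζ' + D1) + (ζ - D) * S) (D1 - D * S)
    have h2 := norm_add_le (ζ' + D1) ((ζ - D) * S)
    have h3 : ‖(ζ - D) * S‖ ≤ C / √T * (Real.log T) ^ 2 := by
      rw [norm_mul]
      gcongr
    linarith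
  have e : ζ' / ζ + S = (ζ' + ζ * S) / ζ := by
    field_simp
  rw [e, norm_div, div_le_div_iff₀ hζ0 hL, one_mul]
  set A : ℝ := C / √T * (1 + (Real.log T) ^ 2) + T ^ (-(1 / 20) : ℝ) with hA
  have h4 : A * Real.log T ≤ 1 / (4 * Real.log T) := by
    rw [le_div_iff₀ (by positivity)]
    calc A * Real.log T * (4 * Real.log T) = 4 * (Real.log T) ^ 2 * A := by ring
      _ ≤ 1 := hc2
  calc ‖ζ' + ζ * S‖ * Real.log T ≤ A * Real.log T := by gcongr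
    _ ≤ _ := h4.trans hζ

lemma Mo_le {T : ℝ} (hT : 16 ≤ T) (t : ℝ) :
    ‖∑ d ∈ Finset.Icc 1 ⌊√T⌋₊,
      ((((ArithmeticFunction.moebius d : ℤ) : ℝ) / d : ℝ) : ℂ) * X t d‖ ≤ Real.log T := by
  obtain ⟨hM1, hM2, hM3, hN1, hMN⟩ := floor_facts hT
  have hT0 : 0 < T := by linarith
  have hlog : Real.log (⌊√T⌋₊ : ℝ) ≤ 1 / 2 * Real.log T := by
    calc Real.log (⌊√T⌋₊ : ℝ) ≤ Real.log √T := Real.log_le_log (by linarith) hM3
      _ = 1 / 2 * Real.log T := by rw [Real.log_sqrt hT0.le]; ring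
  have hl2 : 2 ≤ Real.log T := by
    have h1 : Real.exp 2 ≤ 16 := by
      have h2 : Real.exp 1 < 2.7182818286 := Real.exp_one_lt_d9
      have h3 : Real.exp 2 = Real.exp 1 ^ 2 := by rw [← Real.exp_nat_mul]; norm_num
      rw [h3]
      nlinarith [Real.exp_pos 1]
    rw [Real.le_log_iff_exp_le hT0]
    linarith
  refine (norm_sum_le _ _).trans ?_
  have h1 : ∀ d ∈ Finset.Icc 1 ⌊√T⌋₊,
      ‖((((ArithmeticFunction.moebius d : ℤ) : ℝ) / d : ℝ) : ℂ) * X t d‖ ≤ 1 / d := by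
    intro d hd
    rw [norm_mul, norm_X, mul_one, Complex.norm_real, Real.norm_eq_abs, abs_div, Nat.abs_cast]
    gcongr
    have := ArithmeticFunction.abs_moebius_le_one (n := d)
    exact_mod_cast this
  refine (Finset.sum_le_sum h1).trans ((sum_one_div_le _).trans ?_)
  linarith

lemma S_le {T : ℝ} (hT : 16 ≤ T) (t : ℝ) : ‖SS T t‖ ≤ (Real.log T) ^ 2 := by
  obtain ⟨hM1, hM2, hM3, hN1, hMN⟩ := floor_facts hT
  have hT0 : 0 < T := by linarith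
  have hlog : Real.log (⌊√T⌋₊ : ℝ) ≤ 1 / 2 * Real.log T := by
    calc Real.log (⌊√T⌋₊ : ℝ) ≤ Real.log √T := Real.log_le_log (by linarith) hM3
      _ = 1 / 2 * Real.log T := by rw [Real.log_sqrt hT0.le]; ring
  have hl2 : 2 ≤ Real.log T := by
    have h1 : Real.exp 2 ≤ 16 := by
      have h2 : Real.exp 1 < 2.7182818286 := Real.exp_one_lt_d9
      have h3 : Real.exp 2 = Real.exp 1 ^ 2 := by rw [← Real.exp_nat_mul]; norm_num
      rw [h3]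
      nlinarith [Real.exp_pos 1]
    rw [Real.le_log_iff_exp_le hT0]
    linarith
  rw [SS]
  refine (norm_sum_le _ _).trans ?_
  have h1 : ∀ d ∈ Finset.Icc 1 ⌊√T⌋₊,
      ‖((vonMangoldt d / d : ℝ) : ℂ) * X t d‖ ≤ (1 / 2 * Real.log T) * (1 / d) := by
    intro d hd
    have hd' := Finset.mem_Icc.1 hd
    have hd0 : (0 : ℝ) < d := by exact_mod_cast hd'.1
    rw [norm_mul, norm_X, mul_one, Complex.norm_real, Real.norm_eq_abs, abs_div, Nat.abs_cast,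
      abs_of_nonneg ArithmeticFunction.vonMangoldt_nonneg, div_eq_mul_one_div]
    have h2 : vonMangoldt d ≤ 1 / 2 * Real.log T := by
      refine ArithmeticFunction.vonMangoldt_le_log.trans (le_trans ?_ hlog)
      exact Real.log_le_log hd0 (by exact_mod_cast hd'.2)
    gcongr
  refine (Finset.sum_le_sum h1).trans ?_
  rw [← Finset.mul_sum]
  have h3 := sum_one_div_le ⌊√T⌋₊
  have h4 : ∑ k ∈ Finset.Icc 1 ⌊√T⌋₊, (1 : ℝ) / k ≤ Real.log T := by linarith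
  calc 1 / 2 * Real.log T * ∑ k ∈ Finset.Icc 1 ⌊√T⌋₊, (1 : ℝ) / k
      ≤ 1 / 2 * Real.log T * Real.log T := by gcongr
    _ ≤ (Real.log T) ^ 2 := by nlinarith


open Filter in
/-- powers of the logarithm are small -/
lemma ev_log (k : ℕ) {ε : ℝ} (hε : 0 < ε) (c : ℝ) (hc : 0 < c) :
    ∀ᶠ T : ℝ in atTop, (Real.log T) ^ k ≤ c * T ^ ε := by
  have h := (isLittleO_log_rpow_rpow_atTop (s := ε) (k : ℝ) hε).def hc
  filter_upwards [h, eventually_gt_atTop (1 : ℝ)] with T hT h1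
  rw [Real.rpow_natCast, Real.norm_eq_abs, Real.norm_eq_abs,
    abs_of_nonneg (by have := Real.log_pos h1; positivity),
    abs_of_nonneg (by positivity)] at hT
  exact hT

open Filter in
theorem st3 (h1 : St1) (h2 : St2) : St3 := by
  obtain ⟨C, T2, hC, hT2, hz⟩ := h2
  obtain ⟨Cd, hCd1, hCd⟩ :=
    Pool.Agent.Lib.MP_a17b09_nt.card_divisors_le (1 / 10) (by norm_num)
  obtain ⟨K1, hK1, hms1⟩ := tail_ms h1 20
  obtain ⟨K2, hK2, hms2⟩ := tail_ms h1 Cd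
  -- eventual conditions
  have ev1 : ∀ᶠ T : ℝ in atTop, C / √T ≤ 1 / (4 * Real.log T) := by
    filter_upwards [ev_log 1 (show (0 : ℝ) < 1 / 2 by norm_num) (1 / (4 * C)) (by positivity),
      eventually_gt_atTop (1 : ℝ)] with T hT hT1
    have hL : 0 < Real.log T := Real.log_pos hT1
    rw [pow_one, ← Real.sqrt_eq_rpow, div_mul_eq_mul_div, one_mul,
      le_div_iff₀ (by positivity)] at hT
    rw [div_le_div_iff₀ (by positivity) (by positivity)]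
    linarith
  have ev2 : ∀ᶠ T : ℝ in atTop, 4 * (Real.log T) ^ 2 *
      (C / √T * (1 + (Real.log T) ^ 2) + T ^ (-(1 / 20) : ℝ)) ≤ 1 := by
    filter_upwards [ev_log 2 (show (0 : ℝ) < 1 / 20 by norm_num) (1 / 16) (by positivity),
      ev_log 2 (show (0 : ℝ) < 1 / 2 by norm_num) (1 / (16 * C)) (by positivity),
      ev_log 4 (show (0 : ℝ) < 1 / 2 by norm_num) (1 / (16 * C)) (by positivity),
      eventually_gt_atTop (1 : ℝ)] with T a1 a2 a4 hT1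
    have hT0 : 0 < T := by linarith
    have hL : 0 < Real.log T := Real.log_pos hT1
    have hs : 0 < √T := Real.sqrt_pos.2 hT0
    rw [← Real.sqrt_eq_rpow] at a2 a4
    have e1 : 4 * (Real.log T) ^ 2 * (C / √T * (1 + (Real.log T) ^ 2)) =
        4 * C * ((Real.log T) ^ 2 + (Real.log T) ^ 4) / √T := by
      field_simp
    have b1 : 4 * C * ((Real.log T) ^ 2 + (Real.log T) ^ 4) / √T ≤ 1 / 2 := by
      rw [div_le_iff₀ hs]
      have c1 : (Real.log T) ^ 2 + (Real.log T) ^ 4 ≤ 1 / (8 * C) * √T := by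
        have : 1 / (8 * C) * √T = 1 / (16 * C) * √T + 1 / (16 * C) * √T := by
          field_simp; norm_num
        linarith
      calc 4 * C * ((Real.log T) ^ 2 + (Real.log T) ^ 4)
          ≤ 4 * C * (1 / (8 * C) * √T) := by gcongr
        _ = 1 / 2 * √T := by field_simp; norm_num
    have b2 : 4 * (Real.log T) ^ 2 * T ^ (-(1 / 20) : ℝ) ≤ 1 / 2 := by
      have c1 : T ^ (1 / 20 : ℝ) * T ^ (-(1 / 20) : ℝ) = 1 := by
        rw [← Real.rpow_add hT0]; norm_num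
      calc 4 * (Real.log T) ^ 2 * T ^ (-(1 / 20) : ℝ)
          ≤ 4 * (1 / 16 * T ^ (1 / 20 : ℝ)) * T ^ (-(1 / 20) : ℝ) := by gcongr
        _ = 1 / 4 * (T ^ (1 / 20 : ℝ) * T ^ (-(1 / 20) : ℝ)) := by ring
        _ ≤ 1 / 2 := by rw [c1]; norm_num
    rw [mul_add, e1]
    linarith
  have ev3 : ∀ᶠ T : ℝ in atTop, K1 * T ^ (17 / 20 : ℝ) + 4 * K2 * T ^ (3 / 4 : ℝ) ≤
      T ^ (9 / 10 : ℝ) := by
    filter_upwards [(tendsto_rpow_atTop (show (0 : ℝ) < 1 / 20 by norm_num)).eventually_ge_atTop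
      (K1 + 4 * K2), eventually_gt_atTop (1 : ℝ)] with T hT hT1
    have hT0 : 0 < T := by linarith
    have c1 : T ^ (9 / 10 : ℝ) = T ^ (1 / 20 : ℝ) * T ^ (17 / 20 : ℝ) := by
      rw [← Real.rpow_add hT0]; norm_num
    have c2 : T ^ (3 / 4 : ℝ) ≤ T ^ (17 / 20 : ℝ) :=
      Real.rpow_le_rpow_of_exponent_le hT1.le (by norm_num)
    rw [c1]
    calc K1 * T ^ (17 / 20 : ℝ) + 4 * K2 * T ^ (3 / 4 : ℝ)
        ≤ K1 * T ^ (17 / 20 : ℝ) + 4 * K2 * T ^ (17 / 20 : ℝ) := by gcongr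
      _ = (K1 + 4 * K2) * T ^ (17 / 20 : ℝ) := by ring
      _ ≤ _ := by gcongr
  obtain ⟨T3, hT3⟩ := (ev1.and (ev2.and ev3)).exists_forall_of_atTop
  refine ⟨max 16 (max T2 T3), le_max_left _ _, ?_⟩
  intro T hT
  have hT16 : 16 ≤ T := (le_max_left _ _).trans hT
  have hTT2 : T2 ≤ T := (le_max_left _ _).trans ((le_max_right _ _).trans hT)
  have hTT3 : T3 ≤ T := (le_max_right _ _).trans ((le_max_right _ _).trans hT)
  obtain ⟨hc1, hc2, hc3⟩ := hT3 T hTT3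
  have hT0 : 0 < T := by linarith
  obtain ⟨hM1, hM2, hM3, hN1, hMN⟩ := floor_facts hT16
  set M : ℕ := ⌊√T⌋₊ with hM
  set N : ℕ := ⌊T ^ 2⌋₊ with hN
  have hM1' : 1 ≤ M := by exact_mod_cast hM1
  -- coefficient bounds
  have hco1 : ∀ k : ℕ, M < k → ‖((f1 N M k / k : ℝ) : ℂ)‖ ≤ 20 * (k : ℝ) ^ (-(9 / 10) : ℝ) := by
    intro k hk
    have hk0 : (0 : ℝ) < k := by
      have : 0 < k := by omega
      exact_mod_cast this
    have hlog := Real.log_le_rpow_div hk0.le (show (0 : ℝ) < 1 / 10 by norm_num)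
    rw [Complex.norm_real, Real.norm_eq_abs, abs_div, Nat.abs_cast, div_le_iff₀ hk0]
    have e : (k : ℝ) ^ (-(9 / 10) : ℝ) * k = (k : ℝ) ^ (1 / 10 : ℝ) := by
      have := Real.rpow_add hk0 (-(9 / 10)) 1
      rw [Real.rpow_one] at this
      rw [← this]; norm_num
    rw [mul_assoc, e]
    have := f1_abs N M k
    have h3 : (k : ℝ) ^ (1 / 10 : ℝ) / (1 / 10) = 10 * (k : ℝ) ^ (1 / 10 : ℝ) := by ring
    rw [h3] at hlog
    linarith
  have hco2 : ∀ k : ℕ, M < k →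
      ‖((cv N M (fun n => ((ArithmeticFunction.moebius n : ℤ) : ℝ)) k / k : ℝ) : ℂ)‖ ≤
        Cd * (k : ℝ) ^ (-(9 / 10) : ℝ) := by
    intro k hk
    have hkpos : 0 < k := by omega
    have hk0 : (0 : ℝ) < k := by exact_mod_cast hkpos
    rw [Complex.norm_real, Real.norm_eq_abs, abs_div, Nat.abs_cast, div_le_iff₀ hk0]
    have e : (k : ℝ) ^ (-(9 / 10) : ℝ) * k = (k : ℝ) ^ (1 / 10 : ℝ) := by
      have := Real.rpow_add hk0 (-(9 / 10)) 1
      rw [Real.rpow_one] at this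
      rw [← this]; norm_num
    rw [mul_assoc, e]
    refine le_trans ?_ (hCd k hkpos)
    refine (cv_abs_le _ _ _ _).trans ?_
    calc ∑ d ∈ k.divisors, |((ArithmeticFunction.moebius d : ℤ) : ℝ)|
        ≤ ∑ _d ∈ k.divisors, (1 : ℝ) := by
          refine Finset.sum_le_sum fun d _ => ?_
          have := ArithmeticFunction.abs_moebius_le_one (n := d)
          exact_mod_cast this
      _ = (k.divisors.card : ℝ) := by simp
  -- the two polynomials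
  set G1 : ℝ → ℂ := fun t => ∑ k ∈ Finset.Ioc M (N * M), ((f1 N M k / k : ℝ) : ℂ) * X t k with hG1
  set G2 : ℝ → ℂ := fun t => ∑ k ∈ Finset.Ioc M (N * M),
    ((cv N M (fun n => ((ArithmeticFunction.moebius n : ℤ) : ℝ)) k / k : ℝ) : ℂ) * X t k with hG2
  have hG1c : Continuous fun t => ‖G1 t‖ ^ 2 := by
    have : Continuous G1 := continuous_finsetSum _ fun k _ => continuous_const.mul (continuous_X k)
    exact this.norm.pow 2
  have hG2c : Continuous fun t => ‖G2 t‖ ^ 2 := by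
    have : Continuous G2 := continuous_finsetSum _ fun k _ => continuous_const.mul (continuous_X k)
    exact this.norm.pow 2
  have i1 := hms1 T hT16 (fun k => ((f1 N M k / k : ℝ) : ℂ)) hco1
  have i2 := hms2 T hT16
    (fun k => ((cv N M (fun n => ((ArithmeticFunction.moebius n : ℤ) : ℝ)) k / k : ℝ) : ℂ)) hco2
  have m1 := markov hG1c (fun t => by positivity) (a := T) (b := 2 * T)
    (δ := T ^ (-(1 / 10) : ℝ)) (by linarith) (by positivity)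
  have m2 := markov hG2c (fun t => by positivity) (a := T) (b := 2 * T)
    (δ := 1 / 4) (by linarith) (by norm_num)
  have hsub : {t : ℝ | t ∈ Icc T (2 * T) ∧ 1 / Real.log T < ‖Z t + SS T t‖} ⊆
      {t : ℝ | t ∈ Icc T (2 * T) ∧ T ^ (-(1 / 10) : ℝ) ≤ ‖G1 t‖ ^ 2} ∪
      {t : ℝ | t ∈ Icc T (2 * T) ∧ 1 / 4 ≤ ‖G2 t‖ ^ 2} := by
    intro t ht
    obtain ⟨ht1, ht2⟩ := ht
    by_contra hcon
    have hn : ¬ (T ^ (-(1 / 10) : ℝ) ≤ ‖G1 t‖ ^ 2) ∧ ¬ (1 / 4 ≤ ‖G2 t‖ ^ 2) :=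
      ⟨fun h => hcon (Or.inl ⟨ht1, h⟩), fun h => hcon (Or.inr ⟨ht1, h⟩)⟩
    obtain ⟨n1, n2⟩ := hn
    push Not at n1 n2
    have b1 : ‖G1 t‖ ≤ T ^ (-(1 / 20) : ℝ) := by
      apply le_of_lt
      apply lt_of_pow_lt_pow_left₀ 2 (by positivity)
      calc ‖G1 t‖ ^ 2 < T ^ (-(1 / 10) : ℝ) := n1
        _ = (T ^ (-(1 / 20) : ℝ)) ^ 2 := by
          rw [← Real.rpow_natCast, ← Real.rpow_mul hT0.le]; norm_num
    have b2 : ‖G2 t‖ ≤ 1 / 2 := by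
      apply le_of_lt
      apply lt_of_pow_lt_pow_left₀ 2 (by positivity)
      calc ‖G2 t‖ ^ 2 < 1 / 4 := n2
        _ = (1 / 2 : ℝ) ^ 2 := by norm_num
    rw [hG1] at b1
    rw [hG2] at b2
    simp only at b1 b2
    rw [← G1_eq hM1' hMN t] at b1
    rw [← G2_eq hM1' hMN t] at b2
    obtain ⟨z1, z2⟩ := hz T t hTT2 ht1.1 ht1.2
    have := point hT16 hC hc1 hc2 z1 z2 (Mo_le hT16 t) (S_le hT16 t) b1 b2
    exact absurd ht2 (not_lt.2 this)
  refine (measure_mono hsub).trans ((measure_union_le _ _).trans ((add_le_add m1 m2).trans ?_))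
  have p1 : 0 ≤ ∫ t in T..(2 * T), ‖G1 t‖ ^ 2 :=
    intervalIntegral.integral_nonneg (by linarith) fun t _ => by positivity
  have p2 : 0 ≤ ∫ t in T..(2 * T), ‖G2 t‖ ^ 2 :=
    intervalIntegral.integral_nonneg (by linarith) fun t _ => by positivity
  rw [← ENNReal.ofReal_add (by positivity) (by positivity)]
  apply ENNReal.ofReal_le_ofReal
  refine le_trans ?_ hc3
  have e1 : (∫ t in T..(2 * T), ‖G1 t‖ ^ 2) / T ^ (-(1 / 10) : ℝ) ≤ K1 * T ^ (17 / 20 : ℝ) := by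
    rw [div_le_iff₀ (by positivity)]
    have : K1 * T ^ (17 / 20 : ℝ) * T ^ (-(1 / 10) : ℝ) = K1 * T ^ (3 / 4 : ℝ) := by
      rw [mul_assoc, ← Real.rpow_add hT0]; norm_num
    rw [this]
    exact i1
  have e2 : (∫ t in T..(2 * T), ‖G2 t‖ ^ 2) / (1 / 4) ≤ 4 * K2 * T ^ (3 / 4 : ℝ) := by
    rw [div_le_iff₀ (by norm_num)]
    calc _ ≤ K2 * T ^ (3 / 4 : ℝ) := i2
      _ = _ := by ring
  linarith

end Pool.Agent.Lib.MP_774a5f_nt.LD
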