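import Pool.Agent.Lib.MP_774a5f_nt.LD.M12c_81
import Pool.Agent.Lib.MP_774a5f_nt.LD.M3_81

/-!
# Module M12: Theorem A
-/

namespace Pool.Agent.Lib.MP_774a5f_nt.LD

open MeasureTheory Complex Set Filter
open ArithmeticFunction (vonMangoldt)
open scoped ComplexConjugate Nat

lemma cp_le {δ : ℝ} (hδ : 0 < δ) : ∃ N2 : ℕ, ∀ p : ℕ, N2 < p → cp p ≤ δ := by
  refine ⟨⌈(2 / δ) ^ 2⌉₊, fun p hp => ?_⟩
  have h1 : (2 / δ) ^ 2 ≤ p := by
    calc (2 / δ) ^ 2 ≤ (⌈(2 / δ) ^ 2⌉₊ : ℝ) := Nat.le_ceil _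
      _ ≤ p := by exact_mod_cast hp.le
  have hp0 : (0 : ℝ) < p := lt_of_lt_of_le (by positivity) h1
  have h2 : 2 / δ ≤ √p := Real.le_sqrt_of_sq_le h1
  have hs : 0 < √(p : ℝ) := Real.sqrt_pos.2 hp0
  have h3 : Real.log p ≤ 2 * √p := by
    have := Real.log_le_rpow_div hp0.le (show (0 : ℝ) < 1 / 2 by norm_num)
    rw [← Real.sqrt_eq_rpow] at this
    linarith
  unfold cp
  rw [div_le_iff₀ hp0]
  have h4 : √(p : ℝ) * √p = p := Real.mul_self_sqrt hp0.le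
  have h5 : 2 ≤ √p * δ := by rwa [div_le_iff₀ hδ] at h2
  calc Real.log p ≤ 2 * √p := h3
    _ ≤ (√p * δ) * √p := by gcongr
    _ = δ * (√p * √p) := by ring
    _ = δ * p := by rw [h4]

/-- conditions for large `y` -/
lemma ev_y (a b c d : ℝ) : ∀ᶠ y : ℝ in atTop,
    a / √y ≤ 1 / 32 ∧ b / √y ≤ 1 / 32 ∧ c / y ≤ 1 / 8 ∧ d ≤ Real.log y := by
  have h1 : Tendsto (fun y : ℝ => a / √y) atTop (nhds 0) :=
    tendsto_const_nhds.div_atTop Real.tendsto_sqrt_atTop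
  have h2 : Tendsto (fun y : ℝ => b / √y) atTop (nhds 0) :=
    tendsto_const_nhds.div_atTop Real.tendsto_sqrt_atTop
  have h3 : Tendsto (fun y : ℝ => c / y) atTop (nhds 0) :=
    tendsto_const_nhds.div_atTop tendsto_id
  filter_upwards [h1.eventually_le_const (show (0 : ℝ) < 1 / 32 by norm_num),
    h2.eventually_le_const (show (0 : ℝ) < 1 / 32 by norm_num),
    h3.eventually_le_const (show (0 : ℝ) < 1 / 8 by norm_num),
    Real.tendsto_log_atTop.eventually_ge_atTop d] with y a1 a2 a3 a4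
  exact ⟨a1, a2, a3, a4⟩

/-- conditions for large `T` -/
lemma ev_T (a b e : ℝ) (he : 0 < e) : ∀ᶠ T : ℝ in atTop,
    a * (16 * T ^ (1 / 2 : ℝ) * T ^ (1 / 16 : ℝ) * (T ^ (1 / 64 : ℝ)) ^ 2 *
      (Real.log T) ^ 2) + b * (T ^ (1 / 16 : ℝ) * (T ^ (1 / 64 : ℝ)) ^ 2) ≤ T / 32 ∧
    (T ^ (1 / 64 : ℝ)) ^ 2 * T ^ (9 / 10 : ℝ) ≤ T / 32 ∧
    4 * T ^ (1 / 16 : ℝ) * (T ^ (1 / 64 : ℝ)) ^ 2 ≤ T / 32 ∧
    (T ^ (1 / 16 : ℝ)) ^ 2 * (T ^ (1 / 64 : ℝ)) ^ 2 ≤ T / 32 ∧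
    1 / Real.log T ≤ e ∧ Real.log T / 64 ≤ √T ∧ 4 ≤ Real.log T ∧ 0 < Real.log (Real.log T) := by
  have hlarge : ∀ c : ℝ, 0 < c → ∀ K : ℝ, ∀ᶠ T : ℝ in atTop, K ≤ T ^ c := fun c hc K =>
    (tendsto_rpow_atTop hc).eventually_ge_atTop K
  filter_upwards [ev_log 2 (show (0 : ℝ) < 1 / 16 by norm_num) 1 one_pos,
    ev_log 1 (show (0 : ℝ) < 1 / 2 by norm_num) 1 one_pos,
    hlarge (5 / 16) (by norm_num) (64 * (16 * |a|)),
    hlarge (29 / 32) (by norm_num) (64 * |b|),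
    hlarge (11 / 160) (by norm_num) 32,
    hlarge (29 / 32) (by norm_num) 128,
    hlarge (27 / 32) (by norm_num) 32,
    Real.tendsto_log_atTop.eventually_ge_atTop (1 / e),
    Real.tendsto_log_atTop.eventually_ge_atTop 4,
    eventually_gt_atTop (1 : ℝ)] with T l2 l1 e1 e2 e3 e4 e5 e6 e7 hT1
  have hT0 : 0 < T := by linarith
  have p64 : (T ^ (1 / 64 : ℝ)) ^ 2 = T ^ (1 / 32 : ℝ) := by
    rw [← Real.rpow_natCast, ← Real.rpow_mul hT0.le]; norm_num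
  have p16 : (T ^ (1 / 16 : ℝ)) ^ 2 = T ^ (1 / 8 : ℝ) := by
    rw [← Real.rpow_natCast, ← Real.rpow_mul hT0.le]; norm_num
  have addp : ∀ x y z : ℝ, x + y = z → T ^ x * T ^ y = T ^ z := by
    intro x y z h
    rw [← Real.rpow_add hT0, h]
  have hT1' : T ^ (1 : ℝ) = T := Real.rpow_one T
  rw [p64, p16]
  refine ⟨?_, ?_, ?_, ?_, ?_, ?_, e7, Real.log_pos (by linarith)⟩
  · have q1 : a * (16 * T ^ (1 / 2 : ℝ) * T ^ (1 / 16 : ℝ) * T ^ (1 / 32 : ℝ) *
        (Real.log T) ^ 2) ≤ T / 64 := by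
      have r1 : T ^ (1 / 2 : ℝ) * T ^ (1 / 16 : ℝ) * T ^ (1 / 32 : ℝ) * T ^ (1 / 16 : ℝ) =
          T ^ (21 / 32 : ℝ) := by
        rw [addp (1 / 2) (1 / 16) (9 / 16) (by norm_num),
          addp (9 / 16) (1 / 32) (19 / 32) (by norm_num),
          addp (19 / 32) (1 / 16) (21 / 32) (by norm_num)]
      have r2 : T ^ (5 / 16 : ℝ) * T ^ (21 / 32 : ℝ) ≤ T := by
        rw [addp (5 / 16) (21 / 32) (31 / 32) (by norm_num)]
        nth_rewrite 2 [← hT1']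
        exact Real.rpow_le_rpow_of_exponent_le hT1.le (by norm_num)
      calc a * (16 * T ^ (1 / 2 : ℝ) * T ^ (1 / 16 : ℝ) * T ^ (1 / 32 : ℝ) * (Real.log T) ^ 2)
          ≤ |a| * (16 * T ^ (1 / 2 : ℝ) * T ^ (1 / 16 : ℝ) * T ^ (1 / 32 : ℝ) *
            (Real.log T) ^ 2) := by
            gcongr
            exact le_abs_self a
        _ ≤ |a| * (16 * T ^ (1 / 2 : ℝ) * T ^ (1 / 16 : ℝ) * T ^ (1 / 32 : ℝ) *
            (1 * T ^ (1 / 16 : ℝ))) := by gcongr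
        _ = (64 * (16 * |a|)) * (T ^ (1 / 2 : ℝ) * T ^ (1 / 16 : ℝ) * T ^ (1 / 32 : ℝ) *
            T ^ (1 / 16 : ℝ)) / 64 := by ring
        _ ≤ T ^ (5 / 16 : ℝ) * T ^ (21 / 32 : ℝ) / 64 := by
            rw [r1]
            gcongr
        _ ≤ T / 64 := by gcongr
    have q2 : b * (T ^ (1 / 16 : ℝ) * T ^ (1 / 32 : ℝ)) ≤ T / 64 := by
      have r2 : T ^ (29 / 32 : ℝ) * T ^ (3 / 32 : ℝ) = T := by
        rw [addp (29 / 32) (3 / 32) 1 (by norm_num), hT1']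
      rw [addp (1 / 16) (1 / 32) (3 / 32) (by norm_num)]
      calc b * T ^ (3 / 32 : ℝ) ≤ |b| * T ^ (3 / 32 : ℝ) := by
            gcongr
            exact le_abs_self b
        _ = (64 * |b|) * T ^ (3 / 32 : ℝ) / 64 := by ring
        _ ≤ T ^ (29 / 32 : ℝ) * T ^ (3 / 32 : ℝ) / 64 := by gcongr
        _ = T / 64 := by rw [r2]
    linarith
  · rw [addp (1 / 32) (9 / 10) (149 / 160) (by norm_num)]
    have r2 : T ^ (11 / 160 : ℝ) * T ^ (149 / 160 : ℝ) = T := by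
      rw [addp (11 / 160) (149 / 160) 1 (by norm_num), hT1']
    have r3 : 0 < T ^ (149 / 160 : ℝ) := by positivity
    nlinarith
  · rw [mul_assoc, addp (1 / 16) (1 / 32) (3 / 32) (by norm_num)]
    have r2 : T ^ (29 / 32 : ℝ) * T ^ (3 / 32 : ℝ) = T := by
      rw [addp (29 / 32) (3 / 32) 1 (by norm_num), hT1']
    have r3 : 0 < T ^ (3 / 32 : ℝ) := by positivity
    nlinarith
  · rw [addp (1 / 8) (1 / 32) (5 / 32) (by norm_num)]
    have r2 : T ^ (27 / 32 : ℝ) * T ^ (5 / 32 : ℝ) = T := by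
      rw [addp (27 / 32) (5 / 32) 1 (by norm_num), hT1']
    have r3 : 0 < T ^ (5 / 32 : ℝ) := by positivity
    nlinarith
  · have hL : 0 < Real.log T := by linarith
    rw [div_le_iff₀ hL]
    rw [div_le_iff₀ he] at e6
    linarith
  · rw [pow_one, one_mul, ← Real.sqrt_eq_rpow] at l1
    have : 0 < Real.log T := by linarith
    linarith

theorem stA (h3 : St3) (h7 : St7) (h8 : St8) (h9 : St9) (h10 : St10) : StA := by
  intro ε hε
  obtain ⟨T3, hT3, hE⟩ := h3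
  obtain ⟨K8, hK8, h8a, h8b, h8c⟩ := h8
  obtain ⟨C2, hC20, hC2⟩ := MP774a5f.nonprime_bound
  obtain ⟨Cm, hCm0, hCm⟩ := MP774a5f.mertens_low
  obtain ⟨N1, hN1⟩ := tail_exists hC2 (show 0 < ε / 8 by positivity)
  obtain ⟨N2, hN2⟩ := cp_le (show 0 < ε / 8 by positivity)
  set N0 : ℕ := max N1 N2 with hN0
  have hcp : ∀ p : ℕ, N0 < p → cp p ≤ ε / 8 := fun p hp =>
    hN2 p (lt_of_le_of_lt (le_max_right _ _) hp)
  have hA1 : A1 N0 ≤ C2 := by
    have := hC2 (Finset.Icc 1 N0) 1 le_rfl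
    simpa [A1] using this
  set B2 : ℝ := ∑ p ∈ Pri 0 N0, cp p with hB2
  have hB20 : 0 ≤ B2 := Finset.sum_nonneg fun p _ => cp_nonneg p
  set D : ℝ := 32 * K3 N0 ^ 2 * N0 / ε ^ 2 with hD
  obtain ⟨y0, hy0⟩ := (ev_y (16 / ε ^ 2 * K8) (D * (N0 * (2 * √N0))) (D * (N0 * N0)) K8
    ).exists_forall_of_atTop
  set κ : ℝ := Cm + K8 + 2 * B2 + C2 + |y0| + N0 + 2 with hκ
  have hκ1 : 2 ≤ κ := by
    have := abs_nonneg y0
    have h2 : (0 : ℝ) ≤ N0 := Nat.cast_nonneg _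
    linarith
  obtain ⟨T4, hT4⟩ := (ev_T (16 / ε ^ 2) (D * (N0 * (16 * N0))) (ε / 4) (by positivity)
    ).exists_forall_of_atTop
  refine ⟨max (κ + 5) (3 + 2 * K8 * Real.exp κ), max 16 (max T3 T4),
    le_trans (by linarith) (le_max_left _ _), le_max_left _ _, ?_⟩
  intro T w hT hw
  set C : ℝ := max (κ + 5) (3 + 2 * K8 * Real.exp κ) with hC
  have hT16 : 16 ≤ T := (le_max_left _ _).trans hT
  have hTT3 : T3 ≤ T := (le_max_left _ _).trans ((le_max_right _ _).trans hT)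
  have hTT4 : T4 ≤ T := (le_max_right _ _).trans ((le_max_right _ _).trans hT)
  obtain ⟨u1, u2, u3, u4, u5, u6, u7, u8⟩ := hT4 T hTT4
  have hT0 : 0 < T := by linarith
  have hL : 0 < Real.log T := by linarith
  have hw0 : 0 ≤ ‖w‖ := norm_nonneg w
  -- the choice of y
  set y : ℕ := ⌈Real.exp (‖w‖ + κ)⌉₊ with hy
  have hylow : Real.exp (‖w‖ + κ) ≤ y := Nat.le_ceil _
  have hexp1 : 1 ≤ Real.exp (‖w‖ + κ) := Real.one_le_exp (by linarith)
  have hyup : (y : ℝ) ≤ 2 * Real.exp (‖w‖ + κ) := by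
    have := (Nat.ceil_lt_add_one (Real.exp_pos (‖w‖ + κ)).le).le
    linarith
  have hexpκ : Real.exp κ ≤ y := (Real.exp_le_exp.2 (by linarith)).trans hylow
  have hκy : κ + 1 ≤ y := (Real.add_one_le_exp κ).trans hexpκ
  have hyy0 : y0 ≤ y := by
    have := le_abs_self y0
    have h2 : (0 : ℝ) ≤ N0 := Nat.cast_nonneg _
    linarith
  obtain ⟨v1, v2, v3, v4⟩ := hy0 y hyy0
  have hN0y : N0 ≤ y := by
    have := abs_nonneg y0
    have : (N0 : ℝ) ≤ y := by linarith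
    exact_mod_cast this
  have hy2 : 2 ≤ y := by
    have : (2 : ℝ) ≤ y := by linarith
    exact_mod_cast this
  have hy1 : 1 ≤ y := by omega
  have hypos : (0 : ℝ) < y := by exact_mod_cast hy1
  have hlogy : ‖w‖ + κ ≤ Real.log y := by
    rw [Real.le_log_iff_exp_le hypos]
    exact hylow
  -- y is small compared with log T
  have hyT : (y : ℝ) ≤ Real.log T / 64 := by
    have h1 : Real.exp (‖w‖ + κ) ≤ Real.exp (Real.log (Real.log T) - 5) := by
      apply Real.exp_le_exp.2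
      have : κ + 5 ≤ C := le_max_left _ _
      linarith
    have h2 : Real.exp (Real.log (Real.log T) - 5) = Real.log T * Real.exp (-5) := by
      rw [sub_eq_add_neg, Real.exp_add, Real.exp_log hL]
    have h3 : Real.exp (-5) ≤ 1 / 128 := by
      rw [Real.exp_neg, ← one_div]
      apply one_div_le_one_div_of_le (by norm_num)
      have h4 : (2.7182818283 : ℝ) < Real.exp 1 := Real.exp_one_gt_d9
      have h5 : Real.exp 5 = Real.exp 1 ^ 5 := by rw [← Real.exp_nat_mul]; norm_num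
      rw [h5]
      calc (128 : ℝ) ≤ 2.7182818283 ^ 5 := by norm_num
        _ ≤ Real.exp 1 ^ 5 := by gcongr
    rw [h2] at h1
    have h4 : Real.log T * Real.exp (-5) ≤ Real.log T * (1 / 128) := by gcongr
    linarith
  have hyM : y ≤ ⌊√T⌋₊ := Nat.le_floor (hyT.trans u6)
  obtain ⟨χ, hχ, hχ1, hst⟩ := steer h9 h10 (show 0 ≤ ε / 8 by positivity) h8c hCm hA1 hN0y hy1
    hcp (w := w) (by
      have := abs_nonneg y0
      have h2 : (0 : ℝ) ≤ N0 := Nat.cast_nonneg _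
      linarith)
  have hτpos : 0 < tau y := by
    unfold tau
    have h1 : 1 ∈ (MP774a5f.QQ y).divisors :=
      Nat.mem_divisors.2 ⟨one_dvd _, (MP774a5f.QQ_pos y).ne'⟩
    have h2 : 0 < (MP774a5f.QQ y).divisors.card := Finset.card_pos.2 ⟨1, h1⟩
    exact_mod_cast h2
  have hτlog := h8a y hy2
  have hlogy0 : 0 < Real.log y := by linarith
  have hτ : tau y ≤ T ^ (1 / 64 : ℝ) := by
    rw [← Real.log_le_log_iff hτpos (by positivity), Real.log_rpow hT0]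
    refine hτlog.trans ?_
    rw [div_le_iff₀ hlogy0]
    calc K8 * y ≤ Real.log y * y := by gcongr
      _ ≤ Real.log y * (Real.log T / 64) := by gcongr
      _ = 1 / 64 * Real.log T * Real.log y := by ring
  have hQ : (MP774a5f.QQ y : ℝ) ≤ T ^ (1 / 16 : ℝ) := by
    have hQpos : (0 : ℝ) < MP774a5f.QQ y := by exact_mod_cast MP774a5f.QQ_pos y
    rw [← Real.log_le_log_iff hQpos (by positivity), Real.log_rpow hT0]
    refine (MP774a5f.log_QQ y).trans ?_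
    have h1 : Real.log 4 ≤ 2 := by
      have : Real.log 4 = 2 * Real.log 2 := by
        rw [show (4 : ℝ) = 2 ^ 2 by norm_num, Real.log_pow]; norm_num
      have h2 := Real.log_two_lt_d9
      linarith
    calc 2 * Real.log 4 * y ≤ 2 * 2 * (Real.log T / 64) := by gcongr
      _ = 1 / 16 * Real.log T := by ring
  have hS : ∑ p ∈ Pri 0 ⌊√T⌋₊, cp p ≤ Real.log T := by
    have hM1 := (floor_facts hT16).1
    have hM3 := (floor_facts hT16).2.2.1
    have hM1' : 1 ≤ ⌊√T⌋₊ := by exact_mod_cast hM1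
    have h1 := MP774a5f.mertens_upper ⌊√T⌋₊ hM1'
    have h2 : ∑ p ∈ Pri 0 ⌊√T⌋₊, cp p ≤ Real.log (⌊√T⌋₊ : ℝ) + Real.log 4 := by
      rw [← Pr_eq]
      exact h1
    have h3 : Real.log (⌊√T⌋₊ : ℝ) ≤ 1 / 2 * Real.log T := by
      calc Real.log (⌊√T⌋₊ : ℝ) ≤ Real.log √T := Real.log_le_log (by linarith) hM3
        _ = 1 / 2 * Real.log T := by rw [Real.log_sqrt hT0.le]; ring
    have h4 : Real.log 4 ≤ 2 := by
      have : Real.log 4 = 2 * Real.log 2 := by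
        rw [show (4 : ℝ) = 2 ^ 2 by norm_num, Real.log_pow]; norm_num
      have h2 := Real.log_two_lt_d9
      linarith
    linarith
  have hcount := count hT16 h7 h8b hε hN0y hy1 hyM hχ hχ1 hst
    (hN1 N0 ⌊√T⌋₊ (le_max_left _ _)) u5 (hE T hTT3) hS hQ hτ
    (by rw [← mul_div_assoc]; exact v1)
    (by
      have e : D * (N0 * (2 * (√(N0 : ℝ) / √(y : ℝ)))) =
          D * (N0 * (2 * √(N0 : ℝ))) / √(y : ℝ) := by ring
      rw [← hD, e]; exact v2)
    (by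
      have e : D * ((N0 : ℝ) * (N0 / y)) = D * (N0 * N0) / y := by ring
      rw [← hD, e]; exact v3)
    (by
      refine le_trans (le_of_eq ?_) u1
      rw [← hD]
      ring) u2 u3 u4
  -- conclusion
  set G : Set ℝ := {t : ℝ | t ∈ Icc T (2 * T) ∧ ‖Z t - w‖ ≤ ε} with hG
  have hfin : volume G ≠ ⊤ := by
    refine ne_of_lt (lt_of_le_of_lt (measure_mono (fun t ht => ht.1 : G ⊆ Icc T (2 * T))) ?_)
    simp
  have hreal : ENNReal.ofReal (volume.real G) = volume G := ENNReal.ofReal_toReal hfin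
  rw [← hreal]
  apply ENNReal.ofReal_le_ofReal
  refine le_trans ?_ hcount
  have hlog8 : Real.log 8 ≤ 3 := by
    have : Real.log 8 = 3 * Real.log 2 := by
      rw [show (8 : ℝ) = 2 ^ 3 by norm_num, Real.log_pow]; norm_num
    have h2 := Real.log_two_lt_d9
    linarith
  have hratio : 1 ≤ Real.exp ‖w‖ / (1 + ‖w‖) := by
    rw [le_div_iff₀ (by positivity)]
    have := Real.add_one_le_exp ‖w‖
    linarith
  have hτbound : Real.log (tau y) ≤ 2 * K8 * Real.exp κ * (Real.exp ‖w‖ / (1 + ‖w‖)) := by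
    refine hτlog.trans ?_
    calc K8 * y / Real.log y ≤ K8 * (2 * Real.exp (‖w‖ + κ)) / (1 + ‖w‖) := by
          gcongr
          linarith
      _ = _ := by rw [Real.exp_add]; ring
  have hfinal : Real.log (8 * tau y) ≤ C * Real.exp ‖w‖ / (1 + ‖w‖) := by
    rw [Real.log_mul (by norm_num) hτpos.ne']
    have h1 : 3 + 2 * K8 * Real.exp κ ≤ C := le_max_right _ _
    have h2 : 0 ≤ Real.exp ‖w‖ / (1 + ‖w‖) := by positivity
    calc Real.log 8 + Real.log (tau y)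
        ≤ 3 * (Real.exp ‖w‖ / (1 + ‖w‖)) +
          2 * K8 * Real.exp κ * (Real.exp ‖w‖ / (1 + ‖w‖)) := by linarith
      _ = (3 + 2 * K8 * Real.exp κ) * (Real.exp ‖w‖ / (1 + ‖w‖)) := by ring
      _ ≤ C * (Real.exp ‖w‖ / (1 + ‖w‖)) := by gcongr
      _ = _ := by ring
  rw [Real.exp_neg, ← div_eq_mul_inv]
  have h8τ : 0 < 8 * tau y := by positivity
  have : 8 * tau y ≤ Real.exp (C * Real.exp ‖w‖ / (1 + ‖w‖)) := by
    rw [← Real.log_le_iff_le_exp h8τ]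
    exact hfinal
  gcongr

end Pool.Agent.Lib.MP_774a5f_nt.LD
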