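import Pool.Agent.Lib.MP_774a5f_nt.LD.Base81
import Pool.Agent.Lib.MP_774a5f_nt.Weighted
import Pool.Agent.Lib.MP_774a5f_nt.Transfer

/-!
# Module M12, part a: the weighted count and the pointwise decomposition
-/

namespace Pool.Agent.Lib.MP_774a5f_nt.LD

open MeasureTheory Complex Set
open ArithmeticFunction (vonMangoldt)
open scoped ComplexConjugate Nat

lemma continuousOn_Z : ContinuousOn Z (Ioi 0) := by
  intro t ht
  have h1 : DifferentiableAt ℂ (MP774a5f.g 0) (1 + t * Complex.I) :=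
    MP774a5f.g_differentiableAt 0 (by simp) (by simpa using ht)
  have h3 : ContinuousAt (fun x : ℝ => (1 : ℂ) + x * Complex.I) t := by fun_prop
  have h4 : ContinuousAt (fun x : ℝ => MP774a5f.g 0 (1 + x * Complex.I)) t :=
    ContinuousAt.comp (g := MP774a5f.g 0) h1.continuousAt h3
  have e : Z = fun x : ℝ => MP774a5f.g 0 (1 + x * Complex.I) := by
    funext x
    simp [Z, MP774a5f.g]
  rw [e]
  exact h4.continuousWithinAt

lemma continuous_SS (T : ℝ) : Continuous (SS T) := by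
  unfold SS
  exact continuous_finsetSum _ fun k _ => continuous_const.mul (continuous_X k)

lemma meas_G {T : ℝ} (hT : 0 < T) (w : ℂ) (ε : ℝ) :
    MeasurableSet {t : ℝ | t ∈ Icc T (2 * T) ∧ ‖Z t - w‖ ≤ ε} := by
  have hc : ContinuousOn (fun t => ‖Z t - w‖) (Icc T (2 * T)) :=
    ((continuousOn_Z.mono fun x hx => lt_of_lt_of_le hT hx.1).sub continuousOn_const).norm
  have := hc.preimage_isClosed_of_isClosed isClosed_Icc (isClosed_Iic (a := ε))
  exact this.measurableSet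

lemma meas_E {T : ℝ} (hT : 0 < T) (c : ℝ) :
    MeasurableSet {t : ℝ | t ∈ Icc T (2 * T) ∧ c < ‖Z t + SS T t‖} := by
  have hc : ContinuousOn (fun t => ‖Z t + SS T t‖) (Icc T (2 * T)) :=
    ((continuousOn_Z.mono fun x hx => lt_of_lt_of_le hT hx.1).add
      (continuous_SS T).continuousOn).norm
  have h1 := hc.preimage_isClosed_of_isClosed isClosed_Icc (isClosed_Iic (a := c))
  have h2 : {t : ℝ | t ∈ Icc T (2 * T) ∧ c < ‖Z t + SS T t‖} =
      Icc T (2 * T) \ (Icc T (2 * T) ∩ (fun t => ‖Z t + SS T t‖) ⁻¹' Iic c) := by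
    ext t
    simp only [mem_ofPred_eq, mem_sdiff, mem_inter_iff, mem_preimage, mem_Iic, not_and, not_le]
    constructor
    · rintro ⟨h, h'⟩
      exact ⟨h, fun _ => h'⟩
    · rintro ⟨h, h'⟩
      exact ⟨h, h' h⟩
  rw [h2]
  exact measurableSet_Icc.diff h1.measurableSet

/-- the weighted count -/
lemma weighted_count {T τ : ℝ} (hT : 0 < T) (hτ : 0 < τ) {R : ℝ → ℂ} (hR : Continuous R)
    (hRτ : ∀ t, ‖R t‖ ≤ τ) {Φ : ℝ → ℝ} (hΦ : Continuous Φ) (hΦ0 : ∀ t, 0 ≤ Φ t)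
    {G E : Set ℝ} (hG : MeasurableSet G) (hE : MeasurableSet E) (hGs : G ⊆ Icc T (2 * T))
    (hEs : E ⊆ Icc T (2 * T)) (h : ∀ t ∈ Icc T (2 * T), t ∉ G → t ∉ E → 1 ≤ Φ t) :
    ∫ t in T..(2 * T), ‖R t‖ ^ 2 ≤ 2 * τ ^ 2 * volume.real G +
      (∫ t in T..(2 * T), ‖R t‖ ^ 4) / (8 * τ ^ 2) + τ ^ 2 * volume.real E +
      ∫ t in T..(2 * T), Φ t * ‖R t‖ ^ 2 := by
  have hTT : T ≤ 2 * T := by linarith
  simp only [intervalIntegral.integral_of_le hTT, ← integral_Icc_eq_integral_Ioc]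
  set μ : Measure ℝ := volume.restrict (Icc T (2 * T)) with hμ
  have iR4 : Integrable (fun t => ‖R t‖ ^ 4) μ := ((hR.norm.pow 4).continuousOn).integrableOn_Icc
  have iR2 : Integrable (fun t => ‖R t‖ ^ 2) μ := ((hR.norm.pow 2).continuousOn).integrableOn_Icc
  have iΦ : Integrable (fun t => Φ t * ‖R t‖ ^ 2) μ :=
    ((hΦ.mul (hR.norm.pow 2)).continuousOn).integrableOn_Icc
  have iG : Integrable (G.indicator fun _ => (2 * τ ^ 2 : ℝ)) μ :=
    (integrable_const _).indicator hG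
  have iE : Integrable (E.indicator fun _ => (τ ^ 2 : ℝ)) μ :=
    (integrable_const _).indicator hE
  have eG : ∫ t, (G.indicator fun _ => (2 * τ ^ 2 : ℝ)) t ∂μ = 2 * τ ^ 2 * volume.real G := by
    rw [integral_indicator_const _ hG, smul_eq_mul, hμ, measureReal_restrict_apply hG,
      inter_eq_left.2 hGs, mul_comm]
  have eE : ∫ t, (E.indicator fun _ => (τ ^ 2 : ℝ)) t ∂μ = τ ^ 2 * volume.real E := by
    rw [integral_indicator_const _ hE, smul_eq_mul, hμ, measureReal_restrict_apply hE,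
      inter_eq_left.2 hEs, mul_comm]
  have i1 : Integrable (fun t => (G.indicator fun _ => (2 * τ ^ 2 : ℝ)) t +
      ‖R t‖ ^ 4 / (8 * τ ^ 2)) μ := iG.add (iR4.div_const _)
  have i2 : Integrable (fun t => ((G.indicator fun _ => (2 * τ ^ 2 : ℝ)) t +
      ‖R t‖ ^ 4 / (8 * τ ^ 2)) + (E.indicator fun _ => (τ ^ 2 : ℝ)) t) μ := i1.add iE
  rw [← eG, ← eE, ← integral_div, ← integral_add iG (iR4.div_const _),
    ← integral_add i1 iE, ← integral_add i2 iΦ]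
  have hfin : Integrable (fun t => (((G.indicator fun _ => (2 * τ ^ 2 : ℝ)) t +
      ‖R t‖ ^ 4 / (8 * τ ^ 2)) + (E.indicator fun _ => (τ ^ 2 : ℝ)) t) + Φ t * ‖R t‖ ^ 2) μ :=
    ((iG.add (iR4.div_const _)).add iE).add iΦ
  refine setIntegral_mono_on iR2 hfin measurableSet_Icc fun t ht => ?_
  have hR0 := norm_nonneg (R t)
  have h4 : 0 ≤ ‖R t‖ ^ 4 / (8 * τ ^ 2) := by positivity
  have h5 : 0 ≤ Φ t * ‖R t‖ ^ 2 := mul_nonneg (hΦ0 t) (by positivity)
  have h6 : 0 ≤ (G.indicator fun _ => (2 * τ ^ 2 : ℝ)) t :=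
    indicator_nonneg (fun _ _ => by positivity) _
  have h7 : 0 ≤ (E.indicator fun _ => (τ ^ 2 : ℝ)) t :=
    indicator_nonneg (fun _ _ => by positivity) _
  by_cases hG' : t ∈ G
  · rw [indicator_of_mem hG']
    have h8 : ‖R t‖ ^ 2 ≤ 2 * τ ^ 2 + ‖R t‖ ^ 4 / (8 * τ ^ 2) := by
      have h9 : 2 * τ ^ 2 + ‖R t‖ ^ 4 / (8 * τ ^ 2) - ‖R t‖ ^ 2 =
          (4 * τ ^ 2 - ‖R t‖ ^ 2) ^ 2 / (8 * τ ^ 2) := by
        field_simp
        ring
      have h10 : 0 ≤ (4 * τ ^ 2 - ‖R t‖ ^ 2) ^ 2 / (8 * τ ^ 2) := by positivity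
      linarith
    linarith
  · by_cases hE' : t ∈ E
    · rw [indicator_of_mem hE']
      have h8 : ‖R t‖ ^ 2 ≤ τ ^ 2 := by
        gcongr
        exact hRτ t
      linarith
    · have h8 := h t ht hG' hE'
      have h9 : ‖R t‖ ^ 2 ≤ Φ t * ‖R t‖ ^ 2 := by
        have : 0 ≤ ‖R t‖ ^ 2 := by positivity
        nlinarith
      linarith

lemma norm_RR_le {χ : ℕ → ℂ} (hχ : UM χ) (y : ℕ) (t : ℝ) : ‖RR χ y t‖ ≤ tau y := by
  unfold RR tau
  refine (norm_sum_le _ _).trans (le_of_eq ?_)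
  calc ∑ a ∈ (MP774a5f.QQ y).divisors, ‖χ a * X t a‖
      = ∑ _a ∈ (MP774a5f.QQ y).divisors, (1 : ℝ) := by
        refine Finset.sum_congr rfl fun a ha => ?_
        rw [norm_mul, norm_X, mul_one, hχ.norm a (Nat.pos_of_mem_divisors ha).ne']
    _ = ((MP774a5f.QQ y).divisors.card : ℝ) := by simp

lemma continuous_RR (χ : ℕ → ℂ) (y : ℕ) : Continuous (RR χ y) := by
  unfold RR
  exact continuous_finsetSum _ fun k _ => continuous_const.mul (continuous_X k)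

lemma norm_pow_sub_one_le {z : ℂ} (hz : ‖z‖ = 1) (j : ℕ) : ‖z ^ j - 1‖ ≤ j * ‖z - 1‖ := by
  induction j with
  | zero => simp
  | succ j ih =>
    have e : z ^ (j + 1) - 1 = z ^ j * (z - 1) + (z ^ j - 1) := by ring
    rw [e]
    refine (norm_add_le _ _).trans ?_
    rw [norm_mul, norm_pow, hz, one_pow, one_mul]
    push_cast
    linarith

/-- for a prime power `n ≤ N0`: `|X_n - 1| ≤ N0 ∑_{p ≤ N0} |X_p - 1|` -/
lemma X_sub_one_le {N0 n : ℕ} (hn : n ≤ N0) (hL : vonMangoldt n ≠ 0) (t : ℝ) :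
    ‖X t n - 1‖ ≤ N0 * ∑ p ∈ Pri 0 N0, ‖X t p - 1‖ := by
  have hpp : IsPrimePow n := ArithmeticFunction.vonMangoldt_ne_zero_iff.1 hL
  obtain ⟨p, j, hp, hj, rfl⟩ := (isPrimePow_nat_iff n).1 hpp
  have hpn : p ≤ p ^ j := Nat.le_self_pow hj.ne' p
  have hjn : j ≤ p ^ j := (Nat.lt_pow_self hp.one_lt).le
  rw [X_pow t hp.ne_zero]
  refine (norm_pow_sub_one_le (norm_X t p) j).trans ?_
  have h1 : ‖X t p - 1‖ ≤ ∑ p ∈ Pri 0 N0, ‖X t p - 1‖ :=
    Finset.single_le_sum (f := fun p => ‖X t p - 1‖) (fun _ _ => norm_nonneg _)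
      (mem_Pri.2 ⟨hp.pos, hpn.trans hn, hp⟩)
  have h2 : (j : ℝ) ≤ N0 := by exact_mod_cast hjn.trans hn
  gcongr

end Pool.Agent.Lib.MP_774a5f_nt.LD
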