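import Pool.Agent.Lib.MP_774a5f_nt.LD.M12a_81

/-!
# Module M12, part b: the pointwise decomposition
-/

namespace Pool.Agent.Lib.MP_774a5f_nt.LD

open MeasureTheory Complex Set
open ArithmeticFunction (vonMangoldt)
open scoped ComplexConjugate Nat

lemma Pri_split {a b c : ℕ} (h1 : a ≤ b) (h2 : b ≤ c) {E : Type*} [AddCommMonoid E]
    (f : ℕ → E) : ∑ p ∈ Pri a c, f p = ∑ p ∈ Pri a b, f p + ∑ p ∈ Pri b c, f p := by
  rw [← Finset.sum_union]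
  · apply Finset.sum_congr _ fun _ _ => rfl
    ext p
    simp only [mem_Pri, Finset.mem_union]
    constructor
    · rintro ⟨h3, h4, h5⟩
      by_cases h : p ≤ b
      · exact Or.inl ⟨h3, h, h5⟩
      · exact Or.inr ⟨by omega, h4, h5⟩
    · rintro (⟨h3, h4, h5⟩ | ⟨h3, h4, h5⟩)
      · exact ⟨h3, by omega, h5⟩
      · exact ⟨by omega, h4, h5⟩
  · rw [Finset.disjoint_left]
    intro p hp hq
    rw [mem_Pri] at hp hq
    omega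

lemma mu_zero {y p : ℕ} (h : y < p) : mu y p = 0 := by
  unfold mu MP774a5f.dd
  rw [Nat.div_eq_of_lt h]
  simp

lemma mu_nonneg (y p : ℕ) : 0 ≤ mu y p := by
  unfold mu
  positivity

lemma mu_le_one (y p : ℕ) : mu y p ≤ 1 := by
  unfold mu
  rw [div_le_one (by positivity)]
  linarith

lemma decomp {T : ℝ} {N0 y : ℕ} (h1 : N0 ≤ y) (h2 : y ≤ ⌊√T⌋₊) (χ : ℕ → ℂ) (t : ℝ) :
    SS T t = (∑ p ∈ Pri 0 ⌊√T⌋₊, (cp p : ℂ) * (X t p - (mu y p : ℂ) * conj (χ p))) +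
      (∑ p ∈ Pri 0 N0, ((cp p * mu y p : ℝ) : ℂ) * conj (χ p)) +
      (∑ p ∈ Pri N0 y, ((cp p * mu y p : ℝ) : ℂ) * conj (χ p)) +
      (∑ n ∈ (Finset.Icc 1 N0).filter (fun n => ¬ n.Prime), ((vonMangoldt n / n : ℝ) : ℂ) * X t n) +
      (∑ n ∈ (Finset.Ioc N0 ⌊√T⌋₊).filter (fun n => ¬ n.Prime),
        ((vonMangoldt n / n : ℝ) : ℂ) * X t n) := by
  set M := ⌊√T⌋₊ with hM
  have e1 : SS T t = (∑ p ∈ Pri 0 M, (cp p : ℂ) * X t p) +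
      ∑ n ∈ (Finset.Icc 1 M).filter (fun n => ¬ n.Prime),
        ((vonMangoldt n / n : ℝ) : ℂ) * X t n := by
    rw [SS, ← Finset.sum_filter_add_sum_filter_not (Finset.Icc 1 M) Nat.Prime]
    congr 1
    refine Finset.sum_congr ?_ fun p hp => ?_
    · ext p
      simp only [mem_Pri, Finset.mem_filter, Finset.mem_Icc]
      constructor
      · rintro ⟨⟨h3, h4⟩, h5⟩; exact ⟨by omega, h4, h5⟩
      · rintro ⟨h3, h4, h5⟩; exact ⟨⟨by omega, h4⟩, h5⟩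
    · rw [mem_Pri] at hp
      rw [ArithmeticFunction.vonMangoldt_apply_prime hp.2.2]
      rfl
  have e2 : ∑ p ∈ Pri 0 M, (cp p : ℂ) * X t p =
      (∑ p ∈ Pri 0 M, (cp p : ℂ) * (X t p - (mu y p : ℂ) * conj (χ p))) +
      ∑ p ∈ Pri 0 M, ((cp p * mu y p : ℝ) : ℂ) * conj (χ p) := by
    rw [← Finset.sum_add_distrib]
    refine Finset.sum_congr rfl fun p _ => ?_
    push_cast
    ring
  have e3 : ∑ p ∈ Pri y M, ((cp p * mu y p : ℝ) : ℂ) * conj (χ p) = 0 := by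
    refine Finset.sum_eq_zero fun p hp => ?_
    rw [mem_Pri] at hp
    rw [mu_zero hp.1]
    simp
  have e4 : ∑ n ∈ (Finset.Icc 1 M).filter (fun n => ¬ n.Prime),
        ((vonMangoldt n / n : ℝ) : ℂ) * X t n =
      (∑ n ∈ (Finset.Icc 1 N0).filter (fun n => ¬ n.Prime), ((vonMangoldt n / n : ℝ) : ℂ) * X t n) +
      (∑ n ∈ (Finset.Ioc N0 M).filter (fun n => ¬ n.Prime),
        ((vonMangoldt n / n : ℝ) : ℂ) * X t n) := by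
    rw [← Finset.sum_union]
    · apply Finset.sum_congr _ fun _ _ => rfl
      ext n
      simp only [Finset.mem_filter, Finset.mem_union, Finset.mem_Icc, Finset.mem_Ioc]
      constructor
      · rintro ⟨⟨h3, h4⟩, h5⟩
        by_cases h : n ≤ N0
        · exact Or.inl ⟨⟨h3, h⟩, h5⟩
        · exact Or.inr ⟨⟨by omega, h4⟩, h5⟩
      · rintro (⟨⟨h3, h4⟩, h5⟩ | ⟨⟨h3, h4⟩, h5⟩)
        · exact ⟨⟨h3, by omega⟩, h5⟩
        · exact ⟨⟨by omega, h4⟩, h5⟩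
    · rw [Finset.disjoint_left]
      intro n hn hn'
      simp only [Finset.mem_filter, Finset.mem_Icc, Finset.mem_Ioc] at hn hn'
      omega
  have e5 : ∑ p ∈ Pri 0 M, ((cp p * mu y p : ℝ) : ℂ) * conj (χ p) =
      (∑ p ∈ Pri 0 N0, ((cp p * mu y p : ℝ) : ℂ) * conj (χ p)) +
      ∑ p ∈ Pri N0 y, ((cp p * mu y p : ℝ) : ℂ) * conj (χ p) := by
    rw [Pri_split (Nat.zero_le N0) (h1.trans h2) (fun p => ((cp p * mu y p : ℝ) : ℂ) * conj (χ p)),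
      Pri_split h1 h2 (fun p => ((cp p * mu y p : ℝ) : ℂ) * conj (χ p)), e3, add_zero]
  rw [e1, e2, e4, e5]
  ring

/-- the constant `K3 = N0 ∑_{n ≤ N0} Λ(n)/n` -/
noncomputable def K3 (N0 : ℕ) : ℝ := N0 * ∑ n ∈ Finset.Icc 1 N0, vonMangoldt n / n

lemma K3_nonneg (N0 : ℕ) : 0 ≤ K3 N0 := by
  unfold K3
  refine mul_nonneg (Nat.cast_nonneg _) (Finset.sum_nonneg fun n _ => ?_)
  exact div_nonneg ArithmeticFunction.vonMangoldt_nonneg (Nat.cast_nonneg _)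

/-- `A_1` -/
noncomputable def A1 (N0 : ℕ) : ℝ :=
  ∑ n ∈ (Finset.Icc 1 N0).filter (fun n => ¬ n.Prime), vonMangoldt n / n

lemma A1_nonneg (N0 : ℕ) : 0 ≤ A1 N0 :=
  Finset.sum_nonneg fun _ _ => div_nonneg ArithmeticFunction.vonMangoldt_nonneg (Nat.cast_nonneg _)

/-- `A_2` -/
noncomputable def A2 (N0 y : ℕ) : ℝ := ∑ p ∈ Pri 0 N0, cp p * mu y p

lemma A2_nonneg (N0 y : ℕ) : 0 ≤ A2 N0 y :=
  Finset.sum_nonneg fun p _ => mul_nonneg (cp_nonneg p) (mu_nonneg y p)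

lemma pointA {T : ℝ} {N0 y : ℕ} (h1 : N0 ≤ y) (h2 : y ≤ ⌊√T⌋₊) {χ : ℕ → ℂ} {t η δ : ℝ} {w : ℂ}
    (hE : ‖Z t + SS T t‖ ≤ η)
    (htail : ∑ n ∈ (Finset.Ioc N0 ⌊√T⌋₊).filter (fun n => ¬ n.Prime), vonMangoldt n / n ≤ δ)
    (hχ1 : ∀ p ∈ Pri 0 N0, χ p = 1)
    (hst : ‖(∑ p ∈ Pri N0 y, ((cp p * mu y p : ℝ) : ℂ) * conj (χ p)) -
      (-w - ((A1 N0 : ℝ) : ℂ) - ((A2 N0 y : ℝ) : ℂ))‖ ≤ δ) :
    ‖Z t - w‖ ≤ η + 2 * δ +
      ‖∑ p ∈ Pri 0 ⌊√T⌋₊, (cp p : ℂ) * (X t p - (mu y p : ℂ) * conj (χ p))‖ +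
      K3 N0 * ∑ p ∈ Pri 0 N0, ‖X t p - 1‖ := by
  set F : ℂ := ∑ p ∈ Pri 0 ⌊√T⌋₊, (cp p : ℂ) * (X t p - (mu y p : ℂ) * conj (χ p)) with hF
  set St : ℂ := ∑ p ∈ Pri N0 y, ((cp p * mu y p : ℝ) : ℂ) * conj (χ p) with hSt
  set NP1 : ℂ := ∑ n ∈ (Finset.Icc 1 N0).filter (fun n => ¬ n.Prime),
    ((vonMangoldt n / n : ℝ) : ℂ) * X t n with hNP1
  set NP2 : ℂ := ∑ n ∈ (Finset.Ioc N0 ⌊√T⌋₊).filter (fun n => ¬ n.Prime),
    ((vonMangoldt n / n : ℝ) : ℂ) * X t n with hNP2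
  have hd := decomp h1 h2 χ t
  rw [← hF, ← hSt, ← hNP1, ← hNP2] at hd
  have e2 : ∑ p ∈ Pri 0 N0, ((cp p * mu y p : ℝ) : ℂ) * conj (χ p) = ((A2 N0 y : ℝ) : ℂ) := by
    rw [A2, Complex.ofReal_sum]
    refine Finset.sum_congr rfl fun p hp => ?_
    rw [hχ1 p hp, map_one, mul_one]
  rw [e2] at hd
  have hNP2' : ‖NP2‖ ≤ δ := by
    refine le_trans ?_ htail
    rw [hNP2]
    refine (norm_sum_le _ _).trans (Finset.sum_le_sum fun n _ => ?_)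
    rw [norm_mul, norm_X, mul_one, Complex.norm_real, Real.norm_eq_abs, abs_of_nonneg]
    exact div_nonneg ArithmeticFunction.vonMangoldt_nonneg (Nat.cast_nonneg _)
  have hNP1' : ‖NP1 - ((A1 N0 : ℝ) : ℂ)‖ ≤ K3 N0 * ∑ p ∈ Pri 0 N0, ‖X t p - 1‖ := by
    have e3 : NP1 - ((A1 N0 : ℝ) : ℂ) = ∑ n ∈ (Finset.Icc 1 N0).filter (fun n => ¬ n.Prime),
        ((vonMangoldt n / n : ℝ) : ℂ) * (X t n - 1) := by
      rw [hNP1, A1, Complex.ofReal_sum, ← Finset.sum_sub_distrib]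
      refine Finset.sum_congr rfl fun n _ => ?_
      ring
    rw [e3]
    refine (norm_sum_le _ _).trans ?_
    set B : ℝ := ∑ p ∈ Pri 0 N0, ‖X t p - 1‖ with hB
    have hB0 : 0 ≤ B := Finset.sum_nonneg fun _ _ => norm_nonneg _
    have h3 : ∀ n ∈ (Finset.Icc 1 N0).filter (fun n => ¬ n.Prime),
        ‖((vonMangoldt n / n : ℝ) : ℂ) * (X t n - 1)‖ ≤ (vonMangoldt n / n) * (N0 * B) := by
      intro n hn
      have hn' := Finset.mem_Icc.1 (Finset.mem_filter.1 hn).1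
      have h0 : 0 ≤ vonMangoldt n / n :=
        div_nonneg ArithmeticFunction.vonMangoldt_nonneg (Nat.cast_nonneg _)
      rw [norm_mul, Complex.norm_real, Real.norm_eq_abs, abs_of_nonneg h0]
      by_cases hL : vonMangoldt n = 0
      · rw [hL]; simp
      · exact mul_le_mul_of_nonneg_left (X_sub_one_le hn'.2 hL t) h0
    refine (Finset.sum_le_sum h3).trans ?_
    rw [← Finset.sum_mul]
    have h4 : ∑ n ∈ (Finset.Icc 1 N0).filter (fun n => ¬ n.Prime), vonMangoldt n / (n : ℝ) ≤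
        ∑ n ∈ Finset.Icc 1 N0, vonMangoldt n / (n : ℝ) :=
      Finset.sum_le_sum_of_subset_of_nonneg (Finset.filter_subset _ _) fun n _ _ =>
        div_nonneg ArithmeticFunction.vonMangoldt_nonneg (Nat.cast_nonneg _)
    calc (∑ n ∈ (Finset.Icc 1 N0).filter (fun n => ¬ n.Prime), vonMangoldt n / (n : ℝ)) * (N0 * B)
        ≤ (∑ n ∈ Finset.Icc 1 N0, vonMangoldt n / (n : ℝ)) * (N0 * B) := by gcongr
      _ = K3 N0 * B := by rw [K3]; ring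
  have e5 : Z t - w = (Z t + SS T t) - F -
      (St - (-w - ((A1 N0 : ℝ) : ℂ) - ((A2 N0 y : ℝ) : ℂ))) - (NP1 - ((A1 N0 : ℝ) : ℂ)) - NP2 := by
    rw [hd]
    ring
  rw [e5]
  have i1 := norm_sub_le ((Z t + SS T t) - F -
      (St - (-w - ((A1 N0 : ℝ) : ℂ) - ((A2 N0 y : ℝ) : ℂ))) - (NP1 - ((A1 N0 : ℝ) : ℂ))) NP2
  have i2 := norm_sub_le ((Z t + SS T t) - F -
      (St - (-w - ((A1 N0 : ℝ) : ℂ) - ((A2 N0 y : ℝ) : ℂ)))) (NP1 - ((A1 N0 : ℝ) : ℂ))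
  have i3 := norm_sub_le ((Z t + SS T t) - F)
      (St - (-w - ((A1 N0 : ℝ) : ℂ) - ((A2 N0 y : ℝ) : ℂ)))
  have i4 := norm_sub_le (Z t + SS T t) F
  linarith

/-- for `t` outside the good set, the majorant is at least one -/
lemma majorant {ε B K : ℝ} {n : ℕ} (hε : 0 < ε) {F : ℂ} {P : Finset ℕ}
    (hP : P.card ≤ n) {z m : ℕ → ℂ}
    (h : ε < ε / 2 + ‖F‖ + K * ∑ p ∈ P, ‖z p - 1‖) (hB : ∀ p ∈ P, ‖m p - 1‖ ^ 2 ≤ B) :
    1 ≤ 16 / ε ^ 2 * ‖F‖ ^ 2 + 32 * K ^ 2 * n / ε ^ 2 * (∑ p ∈ P, (‖z p - m p‖ ^ 2 + B)) := by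
  have hS0 : 0 ≤ ∑ p ∈ P, ‖z p - 1‖ := Finset.sum_nonneg fun _ _ => norm_nonneg _
  have h1 : ε / 4 ≤ ‖F‖ ∨ ε / 4 ≤ K * ∑ p ∈ P, ‖z p - 1‖ := by
    by_contra hcon
    push Not at hcon
    linarith [hcon.1, hcon.2]
  have hpos1 : 0 ≤ 16 / ε ^ 2 * ‖F‖ ^ 2 := by positivity
  have hterm : ∀ p ∈ P, ‖z p - 1‖ ^ 2 ≤ 2 * (‖z p - m p‖ ^ 2 + B) := by
    intro p hp
    have e : z p - 1 = (z p - m p) + (m p - 1) := by ring
    have h2 := norm_add_le (z p - m p) (m p - 1)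
    rw [← e] at h2
    have h3 := hB p hp
    have h4 : ‖z p - 1‖ ^ 2 ≤ (‖z p - m p‖ + ‖m p - 1‖) ^ 2 := by gcongr
    nlinarith [sq_nonneg (‖z p - m p‖ - ‖m p - 1‖)]
  have hsumB : 0 ≤ ∑ p ∈ P, (‖z p - m p‖ ^ 2 + B) := by
    refine Finset.sum_nonneg fun p hp => ?_
    have := hB p hp
    have h5 : 0 ≤ B := le_trans (by positivity) this
    positivity
  have hpos2 : 0 ≤ 32 * K ^ 2 * n / ε ^ 2 * (∑ p ∈ P, (‖z p - m p‖ ^ 2 + B)) :=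
    mul_nonneg (by positivity) hsumB
  rcases h1 with h1 | h1
  · have h2 : (ε / 4) ^ 2 ≤ ‖F‖ ^ 2 := by gcongr
    have h3 : 1 ≤ 16 / ε ^ 2 * ‖F‖ ^ 2 := by
      rw [div_mul_eq_mul_div, le_div_iff₀ (by positivity)]
      nlinarith
    linarith
  · have h2 : (ε / 4) ^ 2 ≤ (K * ∑ p ∈ P, ‖z p - 1‖) ^ 2 := by gcongr
    have h3 : (∑ p ∈ P, ‖z p - 1‖) ^ 2 ≤ (P.card : ℝ) * ∑ p ∈ P, ‖z p - 1‖ ^ 2 :=
      sq_sum_le_card_mul_sum_sq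
    have h4 : ∑ p ∈ P, ‖z p - 1‖ ^ 2 ≤ 2 * ∑ p ∈ P, (‖z p - m p‖ ^ 2 + B) := by
      rw [Finset.mul_sum]
      exact Finset.sum_le_sum hterm
    have hPn : (P.card : ℝ) ≤ n := by exact_mod_cast hP
    have h5 : (ε / 4) ^ 2 ≤ K ^ 2 * (n * (2 * ∑ p ∈ P, (‖z p - m p‖ ^ 2 + B))) := by
      calc (ε / 4) ^ 2 ≤ K ^ 2 * (∑ p ∈ P, ‖z p - 1‖) ^ 2 := by rw [← mul_pow]; exact h2
        _ ≤ K ^ 2 * ((P.card : ℝ) * ∑ p ∈ P, ‖z p - 1‖ ^ 2) := by gcongr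
        _ ≤ K ^ 2 * (n * (2 * ∑ p ∈ P, (‖z p - m p‖ ^ 2 + B))) := by gcongr
    have h6 : 1 ≤ 32 * K ^ 2 * n / ε ^ 2 * (∑ p ∈ P, (‖z p - m p‖ ^ 2 + B)) := by
      rw [div_mul_eq_mul_div, le_div_iff₀ (by positivity)]
      nlinarith
    linarith

end Pool.Agent.Lib.MP_774a5f_nt.LD
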