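import Pool.Agent.Lib.MP_774a5f_nt.LD.M12b_81

/-!
# Module M12, part c: choice of the parameters
-/

namespace Pool.Agent.Lib.MP_774a5f_nt.LD

open MeasureTheory Complex Set
open ArithmeticFunction (vonMangoldt)
open scoped ComplexConjugate Nat

lemma one_sub_mu_le {y p : ℕ} (hp : 0 < p) (hy : 0 < y) : 1 - mu y p ≤ √p / √y := by
  have h1 := MP774a5f.le_dd (y := y) hp
  have hp' : (0 : ℝ) < √p := Real.sqrt_pos.2 (by exact_mod_cast hp)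
  have hy' : (0 : ℝ) < √y := Real.sqrt_pos.2 (by exact_mod_cast hy)
  have hd : (0 : ℝ) < (MP774a5f.dd y p : ℝ) + 1 := by positivity
  have e : 1 - mu y p = 1 / ((MP774a5f.dd y p : ℝ) + 1) := by
    unfold mu
    field_simp
    ring
  rw [e, div_le_div_iff₀ hd hy', one_mul]
  rw [div_le_iff₀ hp'] at h1
  linarith

/-- the nonprime terms have small tails -/
lemma tail_exists {C2 : ℝ} (hC2 : ∀ (F : Finset ℕ) (σ : ℝ), 1 ≤ σ →
    ∑ n ∈ F.filter (fun n => ¬ n.Prime), vonMangoldt n / (n : ℝ) ^ σ ≤ C2) {δ : ℝ} (hδ : 0 < δ) :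
    ∃ N1 : ℕ, ∀ N M : ℕ, N1 ≤ N →
      ∑ n ∈ (Finset.Ioc N M).filter (fun n => ¬ n.Prime), vonMangoldt n / (n : ℝ) ≤ δ := by
  set f : ℕ → ℝ := fun n => if n.Prime then 0 else vonMangoldt n / n with hf
  have hf0 : ∀ n, 0 ≤ f n := by
    intro n
    simp only [hf]
    split_ifs
    · exact le_rfl
    · exact div_nonneg ArithmeticFunction.vonMangoldt_nonneg (Nat.cast_nonneg _)
  have hfs : ∀ F : Finset ℕ, ∑ n ∈ F, f n =
      ∑ n ∈ F.filter (fun n => ¬ n.Prime), vonMangoldt n / (n : ℝ) := by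
    intro F
    rw [Finset.sum_filter]
    refine Finset.sum_congr rfl fun n _ => ?_
    simp only [hf]
    split_ifs <;> simp_all
  have hs : Summable f := by
    refine summable_of_sum_le hf0 (c := C2) fun F => ?_
    rw [hfs F]
    have := hC2 F 1 le_rfl
    simpa using this
  obtain ⟨s, hs'⟩ := summable_iff_vanishing_norm.1 hs δ hδ
  refine ⟨s.sup id, fun N M hN => ?_⟩
  rw [← hfs]
  have hdisj : Disjoint (Finset.Ioc N M) s := by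
    rw [Finset.disjoint_left]
    intro n hn hns
    have h1 : n ≤ s.sup id := Finset.le_sup (f := id) hns
    have := (Finset.mem_Ioc.1 hn).1
    omega
  have := hs' (Finset.Ioc N M) hdisj
  exact (le_abs_self _).trans this.le

lemma Pr_eq (y : ℕ) : MP774a5f.Pr y = Pri 0 y := by
  ext p
  simp only [MP774a5f.Pr, mem_Pri, Finset.mem_filter, Finset.mem_Icc]
  constructor
  · rintro ⟨⟨h1, h2⟩, h3⟩; exact ⟨by omega, h2, h3⟩
  · rintro ⟨h1, h2, h3⟩; exact ⟨⟨by omega, h2⟩, h3⟩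

/-- the steering step -/
lemma steer (h9 : St9) (h10 : St10) {K8 Cm C2 δ : ℝ} (hδ : 0 ≤ δ)
    (hK8 : ∀ y : ℕ, 1 ≤ y → ∑ p ∈ Pri 0 y, cp p * (1 - mu y p) ≤ K8)
    (hCm : ∀ y : ℕ, 1 ≤ y → Real.log y - Cm ≤ ∑ p ∈ MP774a5f.Pr y, Real.log p / p)
    {N0 y : ℕ} (hA1 : A1 N0 ≤ C2) (hN0y : N0 ≤ y) (hy : 1 ≤ y)
    (hcp : ∀ p : ℕ, N0 < p → cp p ≤ δ) {w : ℂ}
    (hw : ‖w‖ + (Cm + K8 + 2 * (∑ p ∈ Pri 0 N0, cp p) + C2) ≤ Real.log y) :
    ∃ χ : ℕ → ℂ, UM χ ∧ (∀ p ∈ Pri 0 N0, χ p = 1) ∧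
      ‖(∑ p ∈ Pri N0 y, ((cp p * mu y p : ℝ) : ℂ) * conj (χ p)) -
      (-w - ((A1 N0 : ℝ) : ℂ) - ((A2 N0 y : ℝ) : ℂ))‖ ≤ δ := by
  set B2 : ℝ := ∑ p ∈ Pri 0 N0, cp p with hB2
  have hA2 : A2 N0 y ≤ B2 := by
    refine Finset.sum_le_sum fun p _ => ?_
    exact mul_le_of_le_one_right (cp_nonneg p) (mu_le_one y p)
  have hA20 := A2_nonneg N0 y
  have hA10 := A1_nonneg N0
  have hsum : Real.log y - Cm - K8 - A2 N0 y ≤ ∑ p ∈ Pri N0 y, cp p * mu y p := by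
    have h1 := hCm y hy
    rw [Pr_eq] at h1
    have h2 := hK8 y hy
    have h3 : ∑ p ∈ Pri 0 y, cp p * mu y p = ∑ p ∈ Pri 0 y, cp p -
        ∑ p ∈ Pri 0 y, cp p * (1 - mu y p) := by
      rw [← Finset.sum_sub_distrib]
      refine Finset.sum_congr rfl fun p _ => by ring
    have h4 := Pri_split (Nat.zero_le N0) hN0y (fun p => cp p * mu y p)
    have h5 : ∑ p ∈ Pri 0 y, cp p = ∑ p ∈ Pri 0 y, Real.log p / (p : ℝ) := rfl
    have h6 : A2 N0 y = ∑ p ∈ Pri 0 N0, cp p * mu y p := rfl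
    linarith
  have hnorm : ‖-w - ((A1 N0 : ℝ) : ℂ) - ((A2 N0 y : ℝ) : ℂ)‖ ≤
      ∑ p ∈ Pri N0 y, cp p * mu y p := by
    have h1 := norm_sub_le (-w - ((A1 N0 : ℝ) : ℂ)) ((A2 N0 y : ℝ) : ℂ)
    have h2 := norm_sub_le (-w) ((A1 N0 : ℝ) : ℂ)
    rw [norm_neg] at h2
    rw [Complex.norm_real, Real.norm_eq_abs, abs_of_nonneg hA10] at h2
    rw [Complex.norm_real ((A2 N0 y)), Real.norm_eq_abs, abs_of_nonneg hA20] at h1
    linarith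
  obtain ⟨x, hx1, hx2⟩ := h9 δ (Pri N0 y) (fun p => cp p * mu y p)
    (-w - ((A1 N0 : ℝ) : ℂ) - ((A2 N0 y : ℝ) : ℂ)) hδ (fun p hp => by
      rw [mem_Pri] at hp
      refine ⟨mul_nonneg (cp_nonneg p) (mu_nonneg y p), ?_⟩
      exact (mul_le_of_le_one_right (cp_nonneg p) (mu_le_one y p)).trans (hcp p hp.1)) hnorm
  obtain ⟨χ, hχ, hχ'⟩ := h10 (fun p => if p ≤ N0 then 1 else conj (x p)) (fun p => by
    split_ifs
    · exact norm_one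
    · rw [Complex.norm_conj, hx1])
  refine ⟨χ, hχ, fun p hp => ?_, ?_⟩
  · rw [mem_Pri] at hp
    rw [hχ' p hp.2.2]
    simp [hp.2.1]
  · have e : ∑ p ∈ Pri N0 y, ((cp p * mu y p : ℝ) : ℂ) * conj (χ p) =
        ∑ p ∈ Pri N0 y, ((cp p * mu y p : ℝ) : ℂ) * x p := by
      refine Finset.sum_congr rfl fun p hp => ?_
      rw [mem_Pri] at hp
      rw [hχ' p hp.2.2]
      have : ¬ p ≤ N0 := by omega
      simp [this]
    rw [e]
    exact hx2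

/-- the count for a fixed `y` -/
lemma count {T : ℝ} (hT : 16 ≤ T) (h7 : St7) {K8 : ℝ}
    (hK8 : ∀ y Y : ℕ, 1 ≤ y → ∑ p ∈ Pri 0 Y, cp p ^ 2 * (1 - mu y p ^ 2) ≤ K8 / √y)
    {ε : ℝ} (hε : 0 < ε) {w : ℂ} {N0 y : ℕ} (hN0y : N0 ≤ y) (hy : 1 ≤ y) (hyT : y ≤ ⌊√T⌋₊)
    {χ : ℕ → ℂ} (hχ : UM χ) (hχ1 : ∀ p ∈ Pri 0 N0, χ p = 1)
    (hst : ‖(∑ p ∈ Pri N0 y, ((cp p * mu y p : ℝ) : ℂ) * conj (χ p)) -
      (-w - ((A1 N0 : ℝ) : ℂ) - ((A2 N0 y : ℝ) : ℂ))‖ ≤ ε / 8)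
    (htail : ∑ n ∈ (Finset.Ioc N0 ⌊√T⌋₊).filter (fun n => ¬ n.Prime),
      vonMangoldt n / (n : ℝ) ≤ ε / 8)
    (hlog : 1 / Real.log T ≤ ε / 4)
    (hE : volume {t : ℝ | t ∈ Icc T (2 * T) ∧ 1 / Real.log T < ‖Z t + SS T t‖} ≤
      ENNReal.ofReal (T ^ (9 / 10 : ℝ)))
    (hS : ∑ p ∈ Pri 0 ⌊√T⌋₊, cp p ≤ Real.log T)
    (hQ : (MP774a5f.QQ y : ℝ) ≤ T ^ (1 / 16 : ℝ)) (hτ : tau y ≤ T ^ (1 / 64 : ℝ))
    (c1 : 16 / ε ^ 2 * (K8 / √y) ≤ 1 / 32)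
    (c2 : 32 * K3 N0 ^ 2 * N0 / ε ^ 2 * (N0 * (2 * (√N0 / √y))) ≤ 1 / 32)
    (c3 : 32 * K3 N0 ^ 2 * N0 / ε ^ 2 * (N0 * (N0 / y)) ≤ 1 / 8)
    (t1 : 16 / ε ^ 2 * (16 * T ^ (1 / 2 : ℝ) * T ^ (1 / 16 : ℝ) * (T ^ (1 / 64 : ℝ)) ^ 2 *
      (Real.log T) ^ 2) + 32 * K3 N0 ^ 2 * N0 / ε ^ 2 *
        (N0 * (16 * N0 * T ^ (1 / 16 : ℝ) * (T ^ (1 / 64 : ℝ)) ^ 2)) ≤ T / 32)
    (t2 : (T ^ (1 / 64 : ℝ)) ^ 2 * T ^ (9 / 10 : ℝ) ≤ T / 32)
    (t3 : 4 * T ^ (1 / 16 : ℝ) * (T ^ (1 / 64 : ℝ)) ^ 2 ≤ T / 32)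
    (t4 : (T ^ (1 / 16 : ℝ)) ^ 2 * (T ^ (1 / 64 : ℝ)) ^ 2 ≤ T / 32) :
    T / (8 * tau y) ≤ volume.real {t : ℝ | t ∈ Icc T (2 * T) ∧ ‖Z t - w‖ ≤ ε} := by
  have hT0 : 0 < T := by linarith
  have hy0 : (0 : ℝ) < y := by exact_mod_cast hy
  have hsy : (0 : ℝ) < √y := Real.sqrt_pos.2 hy0
  obtain ⟨i2, iF, i4⟩ := h7 χ hχ y hy T (2 * T) (by linarith)
  have hτ1 : 1 ≤ tau y := by
    unfold tau
    have h1 : 1 ∈ (MP774a5f.QQ y).divisors :=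
      Nat.mem_divisors.2 ⟨one_dvd _, (MP774a5f.QQ_pos y).ne'⟩
    have h2 : 0 < (MP774a5f.QQ y).divisors.card := Finset.card_pos.2 ⟨1, h1⟩
    exact_mod_cast h2
  set τ : ℝ := tau y with hτdef
  set Q : ℝ := (MP774a5f.QQ y : ℝ) with hQdef
  have hQ0 : 0 ≤ Q := Nat.cast_nonneg _
  have hτ0 : 0 < τ := by linarith
  set G : Set ℝ := {t : ℝ | t ∈ Icc T (2 * T) ∧ ‖Z t - w‖ ≤ ε} with hG
  set E : Set ℝ := {t : ℝ | t ∈ Icc T (2 * T) ∧ 1 / Real.log T < ‖Z t + SS T t‖} with hEdef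
  set M : ℕ := ⌊√T⌋₊ with hM
  have hMT : (M : ℝ) ≤ T ^ (1 / 2 : ℝ) := by
    rw [← Real.sqrt_eq_rpow]
    exact Nat.floor_le (Real.sqrt_nonneg _)
  set D : ℝ := 32 * K3 N0 ^ 2 * N0 / ε ^ 2 with hD
  have hD0 : 0 ≤ D := by positivity
  set B : ℝ := (N0 : ℝ) / y with hB
  have hB0 : 0 ≤ B := by positivity
  set F : ℝ → ℂ := fun t => ∑ p ∈ Pri 0 M, (cp p : ℂ) * (X t p - (mu y p : ℂ) * conj (χ p)) with hF
  set Hp : ℕ → ℝ → ℂ := fun p t => X t p - (mu y p : ℂ) * conj (χ p) with hHp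
  set Φ : ℝ → ℝ := fun t => 16 / ε ^ 2 * ‖F t‖ ^ 2 +
    D * (∑ p ∈ Pri 0 N0, (‖Hp p t‖ ^ 2 + B)) with hΦ
  have hFc : Continuous F := continuous_finsetSum _ fun p _ =>
    continuous_const.mul ((continuous_X p).sub continuous_const)
  have hHc : ∀ p, Continuous (Hp p) := fun p => (continuous_X p).sub continuous_const
  have hΦc : Continuous Φ := by
    refine (continuous_const.mul (hFc.norm.pow 2)).add (continuous_const.mul ?_)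
    exact continuous_finsetSum _ fun p _ => ((hHc p).norm.pow 2).add continuous_const
  have hΦ0 : ∀ t, 0 ≤ Φ t := by
    intro t
    simp only [hΦ]
    have : 0 ≤ ∑ p ∈ Pri 0 N0, (‖Hp p t‖ ^ 2 + B) :=
      Finset.sum_nonneg fun p _ => by positivity
    positivity
  have hmajor : ∀ t ∈ Icc T (2 * T), t ∉ G → t ∉ E → 1 ≤ Φ t := by
    intro t ht htG htE
    have hZE : ‖Z t + SS T t‖ ≤ 1 / Real.log T := by
      by_contra hcon
      push Not at hcon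
      exact htE ⟨ht, hcon⟩
    have hZG : ε < ‖Z t - w‖ := by
      by_contra hcon
      push Not at hcon
      exact htG ⟨ht, hcon⟩
    have hp := pointA hN0y hyT hZE htail hχ1 hst
    have hcard : (Pri 0 N0).card ≤ N0 := by
      unfold Pri
      refine (Finset.card_filter_le _ _).trans ?_
      simp
    refine majorant hε hcard (m := fun p => (mu y p : ℂ) * conj (χ p)) (z := fun p => X t p)
      (F := F t) (K := K3 N0) (B := B) ?_ ?_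
    · simp only [hF]
      linarith
    · intro p hp'
      rw [hχ1 p hp', map_one, mul_one]
      rw [mem_Pri] at hp'
      have e : ((mu y p : ℝ) : ℂ) - 1 = ((mu y p - 1 : ℝ) : ℂ) := by push_cast; ring
      rw [e, Complex.norm_real, Real.norm_eq_abs, sq_abs]
      have h1 := one_sub_mu_le (y := y) hp'.1 hy
      have h2 : 0 ≤ 1 - mu y p := by linarith [mu_le_one y p]
      have h3 : (1 - mu y p) ^ 2 ≤ (√p / √y) ^ 2 := by gcongr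
      have h4 : (√(p : ℝ) / √(y : ℝ)) ^ 2 = p / y := by
        rw [div_pow, Real.sq_sqrt (Nat.cast_nonneg _), Real.sq_sqrt (Nat.cast_nonneg _)]
      have h5 : (p : ℝ) / y ≤ B := by
        rw [hB]
        gcongr
        exact_mod_cast hp'.2.1
      calc (mu y p - 1) ^ 2 = (1 - mu y p) ^ 2 := by ring
        _ ≤ _ := by rw [h4] at h3; exact h3.trans h5
  have hcount := weighted_count hT0 hτ0 (continuous_RR χ y) (norm_RR_le hχ y) hΦc hΦ0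
    (meas_G hT0 w ε) (meas_E hT0 _) (fun t ht => ht.1) (fun t ht => ht.1) hmajor
  set I2 : ℝ := ∫ t in T..(2 * T), ‖RR χ y t‖ ^ 2 with hI2
  have hI20 : 0 ≤ I2 := intervalIntegral.integral_nonneg (by linarith) fun t _ => by positivity
  -- the integral of the majorant
  have hint : ∀ {f : ℝ → ℝ}, Continuous f → IntervalIntegrable f volume T (2 * T) :=
    fun hf => hf.intervalIntegrable _ _
  have eΦ : ∫ t in T..(2 * T), Φ t * ‖RR χ y t‖ ^ 2 =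
      16 / ε ^ 2 * (∫ t in T..(2 * T), ‖F t‖ ^ 2 * ‖RR χ y t‖ ^ 2) +
      D * (∑ p ∈ Pri 0 N0, ((∫ t in T..(2 * T), ‖Hp p t‖ ^ 2 * ‖RR χ y t‖ ^ 2) + B * I2)) := by
    have e1 : ∀ t, Φ t * ‖RR χ y t‖ ^ 2 = 16 / ε ^ 2 * (‖F t‖ ^ 2 * ‖RR χ y t‖ ^ 2) +
        D * (∑ p ∈ Pri 0 N0, (‖Hp p t‖ ^ 2 * ‖RR χ y t‖ ^ 2 + B * ‖RR χ y t‖ ^ 2)) := by
      intro t
      simp only [hΦ]
      rw [add_mul, mul_assoc, mul_assoc, Finset.sum_mul]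
      congr 2
      refine Finset.sum_congr rfl fun p _ => by ring
    have k1 : Continuous fun t => 16 / ε ^ 2 * (‖F t‖ ^ 2 * ‖RR χ y t‖ ^ 2) :=
      continuous_const.mul ((hFc.norm.pow 2).mul ((continuous_RR χ y).norm.pow 2))
    have k2 : ∀ p, Continuous fun t => ‖Hp p t‖ ^ 2 * ‖RR χ y t‖ ^ 2 :=
      fun p => ((hHc p).norm.pow 2).mul ((continuous_RR χ y).norm.pow 2)
    have k3 : Continuous fun t => B * ‖RR χ y t‖ ^ 2 :=
      continuous_const.mul ((continuous_RR χ y).norm.pow 2)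
    have k4 : ∀ p, Continuous fun t => ‖Hp p t‖ ^ 2 * ‖RR χ y t‖ ^ 2 + B * ‖RR χ y t‖ ^ 2 :=
      fun p => (k2 p).add k3
    have k5 : Continuous fun t => D * (∑ p ∈ Pri 0 N0,
        (‖Hp p t‖ ^ 2 * ‖RR χ y t‖ ^ 2 + B * ‖RR χ y t‖ ^ 2)) :=
      continuous_const.mul (continuous_finsetSum _ fun p _ => k4 p)
    simp_rw [e1]
    rw [intervalIntegral.integral_add (hint k1) (hint k5),
      intervalIntegral.integral_const_mul, intervalIntegral.integral_const_mul,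
      intervalIntegral.integral_finsetSum (fun p _ => hint (k4 p))]
    congr 2
    refine Finset.sum_congr rfl fun p _ => ?_
    rw [intervalIntegral.integral_add (hint (k2 p)) (hint k3),
      intervalIntegral.integral_const_mul]
  have e2T : 2 * T - T = T := by ring
  rw [e2T] at i2 i4
  have iF' := iF (Pri 0 M) cp M (fun p hp => ⟨(mem_Pri.1 hp).2.2, (mem_Pri.1 hp).2.1⟩)
    (fun p _ => cp_nonneg p)
  rw [e2T] at iF'
  have hK8' := hK8 y M hy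
  have hcp0 : 0 ≤ ∑ p ∈ Pri 0 M, cp p := Finset.sum_nonneg fun p _ => cp_nonneg p
  have bF : ∫ t in T..(2 * T), ‖F t‖ ^ 2 * ‖RR χ y t‖ ^ 2 ≤ T * τ * (K8 / √y) +
      16 * T ^ (1 / 2 : ℝ) * T ^ (1 / 16 : ℝ) * (T ^ (1 / 64 : ℝ)) ^ 2 * (Real.log T) ^ 2 := by
    refine iF'.trans ?_
    gcongr
  have bH : ∀ p ∈ Pri 0 N0, (∫ t in T..(2 * T), ‖Hp p t‖ ^ 2 * ‖RR χ y t‖ ^ 2) + B * I2 ≤
      T * τ * (2 * (√N0 / √y)) + 16 * N0 * T ^ (1 / 16 : ℝ) * (T ^ (1 / 64 : ℝ)) ^ 2 +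
        B * I2 := by
    intro p hp
    rw [mem_Pri] at hp
    have h1 := iF {p} (fun _ => 1) N0 (fun q hq => by
      rw [Finset.mem_singleton] at hq
      rw [hq]
      exact ⟨hp.2.2, hp.2.1⟩) (fun _ _ => zero_le_one)
    rw [e2T] at h1
    simp only [Finset.sum_singleton, Complex.ofReal_one, one_mul, one_pow, mul_one] at h1
    have h2 : 1 - mu y p ^ 2 ≤ 2 * (√N0 / √y) := by
      have h3 := one_sub_mu_le (y := y) hp.1 hy
      have h4 : √(p : ℝ) ≤ √(N0 : ℝ) := Real.sqrt_le_sqrt (by exact_mod_cast hp.2.1)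
      have h5 : √(p : ℝ) / √(y : ℝ) ≤ √(N0 : ℝ) / √(y : ℝ) := by gcongr
      have h6 := mu_le_one y p
      have h7 := mu_nonneg y p
      nlinarith
    have h3 : ∫ t in T..(2 * T), ‖Hp p t‖ ^ 2 * ‖RR χ y t‖ ^ 2 ≤
        T * τ * (2 * (√N0 / √y)) + 16 * N0 * T ^ (1 / 16 : ℝ) * (T ^ (1 / 64 : ℝ)) ^ 2 := by
      refine h1.trans ?_
      gcongr
    linarith
  have hcardR : ((Pri 0 N0).card : ℝ) ≤ N0 := by
    have hcard : (Pri 0 N0).card ≤ N0 := by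
      unfold Pri
      refine (Finset.card_filter_le _ _).trans ?_
      simp
    exact_mod_cast hcard
  set X1 : ℝ := T * τ * (2 * (√N0 / √y)) + 16 * N0 * T ^ (1 / 16 : ℝ) * (T ^ (1 / 64 : ℝ)) ^ 2 +
        B * I2 with hX1
  have hX10 : 0 ≤ X1 := by positivity
  have bsum : ∑ p ∈ Pri 0 N0, ((∫ t in T..(2 * T), ‖Hp p t‖ ^ 2 * ‖RR χ y t‖ ^ 2) + B * I2) ≤
      N0 * X1 := by
    refine (Finset.sum_le_sum bH).trans ?_
    rw [Finset.sum_const, nsmul_eq_mul]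
    gcongr
  have bΦ : ∫ t in T..(2 * T), Φ t * ‖RR χ y t‖ ^ 2 ≤
      T * τ / 32 + T * τ / 32 + T / 32 + I2 / 8 := by
    rw [eΦ]
    calc 16 / ε ^ 2 * (∫ t in T..(2 * T), ‖F t‖ ^ 2 * ‖RR χ y t‖ ^ 2) +
      D * (∑ p ∈ Pri 0 N0, ((∫ t in T..(2 * T), ‖Hp p t‖ ^ 2 * ‖RR χ y t‖ ^ 2) + B * I2))
        ≤ 16 / ε ^ 2 * (T * τ * (K8 / √y) +
          16 * T ^ (1 / 2 : ℝ) * T ^ (1 / 16 : ℝ) * (T ^ (1 / 64 : ℝ)) ^ 2 * (Real.log T) ^ 2) +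
          D * (N0 * X1) := by gcongr
      _ = T * τ * (16 / ε ^ 2 * (K8 / √y)) + T * τ * (D * (N0 * (2 * (√N0 / √y)))) +
          (16 / ε ^ 2 * (16 * T ^ (1 / 2 : ℝ) * T ^ (1 / 16 : ℝ) * (T ^ (1 / 64 : ℝ)) ^ 2 *
          (Real.log T) ^ 2) + D * (N0 * (16 * N0 * T ^ (1 / 16 : ℝ) *
            (T ^ (1 / 64 : ℝ)) ^ 2))) + (D * (N0 * B)) * I2 := by rw [hX1]; ring
      _ ≤ T * τ * (1 / 32) + T * τ * (1 / 32) + T / 32 + (1 / 8) * I2 := by gcongr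
      _ = _ := by ring
  have hVE : volume.real E ≤ T ^ (9 / 10 : ℝ) := by
    have := ENNReal.toReal_mono ENNReal.ofReal_ne_top hE
    rw [ENNReal.toReal_ofReal (by positivity)] at this
    exact this
  have b2 : τ ^ 2 * volume.real E ≤ T / 32 := by
    refine le_trans ?_ t2
    gcongr
  have b3 : 4 * Q * τ ^ 2 ≤ T / 32 := by
    refine le_trans ?_ t3
    gcongr
  have b4 : (∫ t in T..(2 * T), ‖RR χ y t‖ ^ 4) / (8 * τ ^ 2) ≤ T * τ / 8 + T / 32 := by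
    rw [div_le_iff₀ (by positivity)]
    refine i4.trans ?_
    have h1 : Q ^ 2 * τ ^ 2 ≤ T / 32 := by
      refine le_trans ?_ t4
      gcongr
    have h2 : 4 * Q ^ 2 * τ ^ 4 = 4 * (Q ^ 2 * τ ^ 2) * τ ^ 2 := by ring
    rw [h2]
    have h3 : 4 * (Q ^ 2 * τ ^ 2) * τ ^ 2 ≤ 4 * (T / 32) * τ ^ 2 := by gcongr
    have h4 : 0 ≤ T * τ ^ 2 := by positivity
    nlinarith
  have hTτ : T ≤ T * τ := by nlinarith
  have hV : T * τ / 4 ≤ 2 * τ ^ 2 * volume.real G := by linarith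
  rw [div_le_iff₀ (by positivity)]
  have h5 : T * τ ≤ (volume.real G * (8 * τ)) * τ := by nlinarith
  exact le_of_mul_le_mul_right h5 hτ0

end Pool.Agent.Lib.MP_774a5f_nt.LD
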