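import Pool.Agent.Lib.MP_774a5f_nt.LD.Base81

/-!
# Theorem Q (module StQ) from Theorems A and B
-/

set_option autoImplicit false

namespace Pool.Agent.Lib.MP_774a5f_nt.LD

open MeasureTheory Complex Set

namespace M13x

/-- if `Z t` is near `s e^{iθ}` then the rotated value is large -/
lemma rot_ge {θ t s : ℝ} (h : ‖Z t - s * Complex.exp (θ * I)‖ ≤ 1) :
    s - 1 ≤ MP774a5f.rotLogDeriv θ t := by
  rw [rot_eq]
  have e1 : Complex.exp (-(θ : ℂ) * I) * Z t =
      Complex.exp (-(θ : ℂ) * I) * (Z t - s * Complex.exp (θ * I)) + s := by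
    have : Complex.exp (-(θ : ℂ) * I) * Complex.exp (θ * I) = 1 := by
      rw [← Complex.exp_add]
      simp
    linear_combination (s : ℂ) * this
  rw [e1, add_re, ofReal_re]
  have h1 : ‖Complex.exp (-(θ : ℂ) * I) * (Z t - s * Complex.exp (θ * I))‖ ≤ 1 := by
    rw [norm_mul, ← Complex.ofReal_neg, Complex.norm_exp_ofReal_mul_I, one_mul]
    exact h
  have h2 := (abs_le.1 ((Complex.abs_re_le_norm _).trans h1)).1
  linarith

/-- `x ^ 3 / 6 ≤ e ^ x` -/
lemma cube_le {x : ℝ} (hx : 0 ≤ x) : x ^ 3 / 6 ≤ Real.exp x := by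
  have h := Real.sum_le_exp_of_nonneg hx 4
  have e : ∑ i ∈ Finset.range 4, x ^ i / (i.factorial : ℝ) = 1 + x + x ^ 2 / 2 + x ^ 3 / 6 := by
    simp [Finset.sum_range_succ, Nat.factorial]
  rw [e] at h
  nlinarith [sq_nonneg x]

end M13x

open M13x in
theorem stQ (hA : StA) (hB : StB) : StQ := by
  obtain ⟨CA, TA, hCA, hTA, hA⟩ := hA 1 one_pos
  obtain ⟨CB, TB, hCB, hTB, hB⟩ := hB
  set C1 : ℝ := 40 * (CA + CB) with hC1
  have hC1p : 80 ≤ C1 := by rw [hC1]; linarith
  have hcube := cube_le (x := C1) (by linarith)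
  have hexp1 : C1 ≤ Real.exp C1 := by
    have := Real.add_one_le_exp C1; linarith
  -- the two numerical facts
  have hn1 : 2 * C1 * Real.exp (1 - C1) * CA ≤ 1 := by
    have h1 : Real.exp (1 - C1) = Real.exp 1 / Real.exp C1 := by rw [Real.exp_sub]
    have h2 : Real.exp 1 < 3 := by
      have := Real.exp_one_lt_d9; linarith
    have h3 : 6 * C1 * CA ≤ Real.exp C1 := by
      refine le_trans ?_ hcube
      have h4 : CA ≤ C1 / 40 := by rw [hC1]; linarith
      have h5 : C1 ^ 3 / 6 = C1 * (C1 * C1) / 6 := by ring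
      rw [h5]
      nlinarith [mul_nonneg (by linarith : (0:ℝ) ≤ C1) (by linarith : (0:ℝ) ≤ C1)]
    rw [h1]
    have h6 : 2 * C1 * (Real.exp 1 / Real.exp C1) * CA =
        (2 * C1 * CA * Real.exp 1) / Real.exp C1 := by ring
    rw [h6, div_le_one (Real.exp_pos _)]
    have h7 : 0 ≤ 2 * C1 * CA := by positivity
    nlinarith
  have hn2 : 2 * (CB * (3 + C1)) ≤ Real.exp C1 := by
    refine le_trans ?_ hcube
    have h4 : CB ≤ C1 / 40 := by rw [hC1]; linarith
    have h5 : C1 ^ 3 / 6 = C1 * (C1 * C1) / 6 := by ring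
    rw [h5]
    nlinarith [mul_nonneg (by linarith : (0:ℝ) ≤ C1) (by linarith : (0:ℝ) ≤ C1)]
  set C : ℝ := Real.exp C1 with hC
  have hC0 : 0 < C := Real.exp_pos _
  have hlogC : Real.log C = C1 := Real.log_exp _
  refine ⟨C, max (max TA TB) (Real.exp (Real.exp CA)), by linarith, ?_, ?_⟩
  · exact hTA.trans ((le_max_left _ _).trans (le_max_left _ _))
  intro T θ x hT hx1 hx2
  have hTA' : TA ≤ T := ((le_max_left _ _).trans (le_max_left _ _)).trans hT
  have hTB' : TB ≤ T := ((le_max_right _ _).trans (le_max_left _ _)).trans hT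
  have hTe : Real.exp (Real.exp CA) ≤ T := (le_max_right _ _).trans hT
  have hT16 : 16 ≤ T := hTA.trans hTA'
  have hT0 : 0 < T := by linarith
  have hlT : Real.exp CA ≤ Real.log T := by
    rw [← Real.log_exp (Real.exp CA)]
    exact Real.log_le_log (Real.exp_pos _) hTe
  have hlT0 : 0 < Real.log T := lt_of_lt_of_le (Real.exp_pos _) hlT
  have hllT : CA ≤ Real.log (Real.log T) := by
    rw [← Real.log_exp CA]
    exact Real.log_le_log (Real.exp_pos _) hlT
  have hllT1 : 1 ≤ Real.log (Real.log T) := hCA.trans hllT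
  have hllT0 : 0 < Real.log (Real.log T) := by linarith
  have hx0 : 0 < x := lt_of_lt_of_le (Real.exp_pos _) hx1
  set L : ℝ := Real.log (1 / x) with hL
  have hLx : x = Real.exp (-L) := by
    rw [hL, one_div, Real.log_inv, neg_neg, Real.exp_log hx0]
  have hLC1 : C1 ≤ L := by
    rw [← hlogC, hL]
    refine Real.log_le_log hC0 ?_
    rw [le_div_iff₀ hx0]
    rw [le_div_iff₀ hC0] at hx2
    linarith
  have hL0 : 0 < L := by linarith
  have hLup : L ≤ Real.log T / (C * Real.log (Real.log T)) := by
    rw [hLx, Real.exp_le_exp] at hx1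
    linarith
  have hCll : 1 ≤ C * Real.log (Real.log T) := by
    have h1 : 1 ≤ C := by linarith
    nlinarith
  have hLT : L ≤ Real.log T := hLup.trans (div_le_self hlT0.le hCll)
  have hlogL : Real.log L ≤ Real.log (Real.log T) := Real.log_le_log hL0 hLT
  have hlogL1 : 1 ≤ Real.log L := by
    rw [← Real.log_exp 1]
    refine Real.log_le_log (Real.exp_pos _) ?_
    have := Real.exp_one_lt_d9
    linarith
  have hlogL0 : 0 < Real.log L := by linarith
  have hllL : 0 ≤ Real.log (Real.log L) := Real.log_nonneg hlogL1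
  have hLL : L * Real.log L ≤ Real.log T / C := by
    calc L * Real.log L ≤ Real.log T / (C * Real.log (Real.log T)) * Real.log (Real.log T) :=
          mul_le_mul hLup hlogL hlogL0.le (by positivity)
      _ = Real.log T / C := by field_simp
  have hexpLL : Real.exp (Real.log L + Real.log (Real.log L)) = L * Real.log L := by
    rw [Real.exp_add, Real.exp_log hL0, Real.exp_log hlogL0]
  constructor
  · -- lower bound
    set s : ℝ := max 0 (Real.log L + Real.log (Real.log L) - C1 + 1) with hs
    have hs0 : 0 ≤ s := le_max_left _ _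
    -- key estimate
    have hkey : CA * Real.exp s / (1 + s) ≤ L := by
      rcases le_total (Real.log L + Real.log (Real.log L) - C1 + 1) 0 with h | h
      · have : s = 0 := max_eq_left h
        rw [this, Real.exp_zero, mul_one, add_zero, div_one]
        have : CA ≤ C1 := by rw [hC1]; linarith
        linarith
      · have hse : s = Real.log L + Real.log (Real.log L) - C1 + 1 := max_eq_right h
        have hes : Real.exp s = Real.exp (1 - C1) * (L * Real.log L) := by
          rw [hse, ← hexpLL, ← Real.exp_add]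
          congr 1
          ring
        have h1 : Real.log L ≤ 2 * C1 * (1 + s) := by
          rcases le_total (Real.log L) (2 * C1) with h2 | h2
          · nlinarith
          · have h3 : Real.log L / 2 ≤ 1 + s := by rw [hse]; linarith
            nlinarith
        rw [div_le_iff₀ (by linarith), hes]
        have h4 : 0 ≤ CA * Real.exp (1 - C1) * L := by
          have := Real.exp_pos (1 - C1)
          positivity
        calc CA * (Real.exp (1 - C1) * (L * Real.log L))
            = CA * Real.exp (1 - C1) * L * Real.log L := by ring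
          _ ≤ CA * Real.exp (1 - C1) * L * (2 * C1 * (1 + s)) := mul_le_mul_of_nonneg_left h1 h4
          _ = (2 * C1 * Real.exp (1 - C1) * CA) * (L * (1 + s)) := by ring
          _ ≤ 1 * (L * (1 + s)) := mul_le_mul_of_nonneg_right hn1 (by positivity)
          _ = L * (1 + s) := one_mul _
    have hsT : s ≤ Real.log (Real.log T) - CA := by
      refine max_le (by linarith) ?_
      have h1 : Real.log L + Real.log (Real.log L) ≤ Real.log (Real.log T) - C1 := by
        have h2 : Real.log (L * Real.log L) ≤ Real.log (Real.log T / C) :=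
          Real.log_le_log (by positivity) hLL
        rw [Real.log_mul hL0.ne' hlogL0.ne', Real.log_div hlT0.ne' hC0.ne', hlogC] at h2
        exact h2
      have : CA ≤ C1 := by rw [hC1]; linarith
      have : 1 ≤ C1 := by linarith
      linarith
    have hnorm : ‖(s : ℂ) * Complex.exp (θ * I)‖ = s := by
      rw [norm_mul, Complex.norm_exp_ofReal_mul_I, mul_one, norm_real, Real.norm_eq_abs,
        abs_of_nonneg hs0]
    have h1 := hA T (s * Complex.exp (θ * I)) hTA' (by rw [hnorm]; exact hsT)
    rw [hnorm] at h1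
    refine le_trans (ENNReal.ofReal_le_ofReal ?_) (h1.trans (measure_mono ?_))
    · rw [mul_comm x T, hLx]
      refine mul_le_mul_of_nonneg_left ?_ hT0.le
      rw [Real.exp_le_exp]
      linarith
    · rintro t ⟨ht, hZ⟩
      refine ⟨ht, ?_⟩
      have h2 := rot_ge hZ
      have h3 : Real.log L + Real.log (Real.log L) - C1 + 1 ≤ s := le_max_right _ _
      have h4 : C1 ≤ C := hexp1
      linarith
  · -- upper bound
    set τ : ℝ := Real.log L + Real.log (Real.log L) + C1 with hτ
    have hτ0 : 0 ≤ τ := by rw [hτ]; linarith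
    have hτe : Real.exp τ = C * (L * Real.log L) := by
      rw [hτ, Real.exp_add, hexpLL, mul_comm]
    have hτT : τ ≤ Real.log (Real.log T) := by
      rw [← Real.exp_le_exp, hτe, Real.exp_log hlT0]
      calc C * (L * Real.log L) ≤ C * (Real.log T / C) := mul_le_mul_of_nonneg_left hLL hC0.le
        _ = Real.log T := by field_simp
    have h1 := hB T τ hTB' hτ0 hτT
    have h2 : {t : ℝ | t ∈ Icc T (2 * T) ∧
        Real.log L + Real.log (Real.log L) + C ≤ MP774a5f.rotLogDeriv θ t} ⊆
        {t : ℝ | t ∈ Icc T (2 * T) ∧ τ ≤ ‖Z t‖} := by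
      rintro t ⟨ht, hr⟩
      refine ⟨ht, ?_⟩
      have h3 := rot_le θ t
      have h4 : C1 ≤ C := hexp1
      rw [hτ]
      linarith
    refine (measure_mono h2).trans (h1.trans (ENNReal.ofReal_le_ofReal ?_))
    have h3 : 1 + τ ≤ (3 + C1) * Real.log L := by
      have h4 : Real.log (Real.log L) ≤ Real.log L - 1 := Real.log_le_sub_one_of_pos hlogL0
      rw [hτ]
      nlinarith
    have h5 : 2 * L ≤ Real.exp τ / (CB * (1 + τ)) := by
      rw [le_div_iff₀ (by positivity), hτe]
      calc 2 * L * (CB * (1 + τ)) ≤ 2 * L * (CB * ((3 + C1) * Real.log L)) := by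
            refine mul_le_mul_of_nonneg_left ?_ (by positivity)
            exact mul_le_mul_of_nonneg_left h3 (by linarith)
        _ = (2 * (CB * (3 + C1))) * (L * Real.log L) := by ring
        _ ≤ C * (L * Real.log L) := mul_le_mul_of_nonneg_right hn2 (by positivity)
    have h6 : CB ≤ Real.exp L := by
      have h7 : CB ≤ C1 := by rw [hC1]; linarith
      have h8 := Real.add_one_le_exp L
      linarith
    calc CB * T * Real.exp (-(Real.exp τ / (CB * (1 + τ))))
        ≤ Real.exp L * T * Real.exp (-(2 * L)) := by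
          refine mul_le_mul (mul_le_mul_of_nonneg_right h6 hT0.le) ?_ (Real.exp_pos _).le
            (by positivity)
          rw [Real.exp_le_exp]
          linarith
      _ = x * T := by
          rw [hLx]
          have : Real.exp (-L) = Real.exp L * Real.exp (-(2 * L)) := by
            rw [← Real.exp_add]; congr 1; ring
          rw [this]
          ring

end Pool.Agent.Lib.MP_774a5f_nt.LD
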