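import Pool.Agent.Lib.MP_774a5f_nt.LD.Base81

/-!
# Lemma 1: mean values of Dirichlet polynomials on the line `σ = 1`, by Schur's test
-/

namespace Pool.Agent.Lib.MP_774a5f_nt.LD

open MeasureTheory Complex Set
open scoped ComplexConjugate

/-! ### the arithmetic sum -/

lemma h52_harm (N : ℕ) : ∑ j ∈ Finset.Icc 1 N, (1 / (j : ℝ)) ≤ 1 + Real.log N := by
  have h := harmonic_le_one_add_log N
  refine le_trans (le_of_eq ?_) h
  rw [harmonic_eq_sum_Icc]
  push_cast
  apply Finset.sum_congr rfl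
  intro j _
  rw [one_div]

lemma h52_up (N n : ℕ) : ∑ m ∈ Finset.Ioc n N, (1 / ((m : ℝ) - n)) ≤ 1 + Real.log N := by
  refine le_trans ?_ (h52_harm N)
  have h1 : ∑ m ∈ Finset.Ioc n N, (1 / ((m : ℝ) - n)) =
      ∑ j ∈ (Finset.Ioc n N).image (fun m => m - n), (1 / (j : ℝ)) := by
    rw [Finset.sum_image]
    · apply Finset.sum_congr rfl
      intro m hm
      rw [Finset.mem_Ioc] at hm
      rw [Nat.cast_sub hm.1.le]
    · intro a ha b hb hab
      simp only [Finset.coe_Ioc, Set.mem_Ioc] at ha hb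
      simp only at hab
      omega
  rw [h1]
  apply Finset.sum_le_sum_of_subset_of_nonneg
  · intro j hj
    rw [Finset.mem_image] at hj
    obtain ⟨m, hm, rfl⟩ := hj
    rw [Finset.mem_Ioc] at hm
    rw [Finset.mem_Icc]
    omega
  · intro j _ _
    positivity

lemma h52_down (N n : ℕ) (hn : n ≤ N) :
    ∑ m ∈ Finset.Ico 1 n, (1 / ((n : ℝ) - m)) ≤ 1 + Real.log N := by
  refine le_trans ?_ (h52_harm N)
  have h1 : ∑ m ∈ Finset.Ico 1 n, (1 / ((n : ℝ) - m)) =
      ∑ j ∈ (Finset.Ico 1 n).image (fun m => n - m), (1 / (j : ℝ)) := by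
    rw [Finset.sum_image]
    · apply Finset.sum_congr rfl
      intro m hm
      rw [Finset.mem_Ico] at hm
      rw [Nat.cast_sub hm.2.le]
    · intro a ha b hb hab
      simp only [Finset.coe_Ico, Set.mem_Ico] at ha hb
      simp only at hab
      omega
  rw [h1]
  apply Finset.sum_le_sum_of_subset_of_nonneg
  · intro j hj
    rw [Finset.mem_image] at hj
    obtain ⟨m, hm, rfl⟩ := hj
    rw [Finset.mem_Ico] at hm
    rw [Finset.mem_Icc]
    omega
  · intro j _ _
    positivity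

lemma h52_low (N n : ℕ) (hn : n ≤ N) :
    ∑ m ∈ Finset.Ico 1 n, (1 / (m : ℝ)) ≤ 1 + Real.log N := by
  refine le_trans ?_ (h52_harm N)
  apply Finset.sum_le_sum_of_subset_of_nonneg
  · intro j hj
    rw [Finset.mem_Ico] at hj
    rw [Finset.mem_Icc]
    omega
  · intro j _ _
    positivity

/-- `|log m - log n| ≥ |m-n|/max(m,n)` in the form used below, `n < m`. -/
lemma h52_log {m n : ℕ} (hn : 0 < n) (h : n < m) :
    ((m : ℝ) - n) / m ≤ Real.log m - Real.log n := by
  have hn' : (0 : ℝ) < n := by exact_mod_cast hn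
  have hm' : (0 : ℝ) < m := by exact_mod_cast hn.trans h
  have h3 : Real.log (n / m : ℝ) ≤ (n / m : ℝ) - 1 := Real.log_le_sub_one_of_pos (by positivity)
  rw [Real.log_div (by positivity) (by positivity)] at h3
  have h5 : ((m : ℝ) - n) / m = 1 - (n : ℝ) / m := by
    field_simp
  rw [h5]
  linarith

/-- weights -/
noncomputable def h52w (n m : ℕ) : ℝ := (n / m : ℝ) / |Real.log m - Real.log n|

lemma h52_w_up {m n : ℕ} (hn : 0 < n) (h : n < m) : h52w n m ≤ n * (1 / ((m : ℝ) - n)) := by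
  have hn' : (0 : ℝ) < n := by exact_mod_cast hn
  have hm' : (0 : ℝ) < m := by exact_mod_cast hn.trans h
  have hmn : (0 : ℝ) < (m : ℝ) - n := by
    have : (n : ℝ) < m := by exact_mod_cast h
    linarith
  have hl := h52_log hn h
  have hpos : 0 < ((m : ℝ) - n) / m := by positivity
  unfold h52w
  rw [abs_of_pos (lt_of_lt_of_le hpos hl)]
  calc (n / m : ℝ) / (Real.log m - Real.log n) ≤ (n / m : ℝ) / (((m : ℝ) - n) / m) := by
        apply div_le_div_of_nonneg_left (by positivity) hpos hl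
    _ = n * (1 / ((m : ℝ) - n)) := by
        field_simp

lemma h52_w_down {m n : ℕ} (hm : 0 < m) (h : m < n) :
    h52w n m ≤ n * (1 / (m : ℝ) + 1 / ((n : ℝ) - m)) := by
  have hm' : (0 : ℝ) < m := by exact_mod_cast hm
  have hn' : (0 : ℝ) < n := by exact_mod_cast hm.trans h
  have hmn : (0 : ℝ) < (n : ℝ) - m := by
    have : (m : ℝ) < n := by exact_mod_cast h
    linarith
  have hl := h52_log hm h
  have hpos : 0 < ((n : ℝ) - m) / n := by positivity
  unfold h52w
  rw [abs_sub_comm, abs_of_pos (lt_of_lt_of_le hpos hl)]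
  calc (n / m : ℝ) / (Real.log n - Real.log m) ≤ (n / m : ℝ) / (((n : ℝ) - m) / n) := by
        apply div_le_div_of_nonneg_left (by positivity) hpos hl
    _ = n * (1 / (m : ℝ) + 1 / ((n : ℝ) - m)) := by
        field_simp
        ring

lemma h52_schur {N n : ℕ} (hn : 1 ≤ n) (hnN : n ≤ N) :
    ∑ m ∈ (Finset.Icc 1 N).erase n, h52w n m ≤ 3 * n * (1 + Real.log N) := by
  have hsplit : (Finset.Icc 1 N).erase n = Finset.Ico 1 n ∪ Finset.Ioc n N := by
    ext m
    simp only [Finset.mem_erase, Finset.mem_Icc, Finset.mem_union, Finset.mem_Ico,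
      Finset.mem_Ioc]
    omega
  have hdisj : Disjoint (Finset.Ico 1 n) (Finset.Ioc n N) := by
    rw [Finset.disjoint_left]
    intro m h1 h2
    rw [Finset.mem_Ico] at h1
    rw [Finset.mem_Ioc] at h2
    omega
  rw [hsplit, Finset.sum_union hdisj]
  have hA : ∑ m ∈ Finset.Ico 1 n, h52w n m ≤
      n * ((1 + Real.log N) + (1 + Real.log N)) := by
    calc ∑ m ∈ Finset.Ico 1 n, h52w n m
        ≤ ∑ m ∈ Finset.Ico 1 n, (n : ℝ) * (1 / (m : ℝ) + 1 / ((n : ℝ) - m)) := by
          apply Finset.sum_le_sum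
          intro m hm
          rw [Finset.mem_Ico] at hm
          exact h52_w_down (by omega) hm.2
      _ = (n : ℝ) * (∑ m ∈ Finset.Ico 1 n, (1 / (m : ℝ)) +
            ∑ m ∈ Finset.Ico 1 n, (1 / ((n : ℝ) - m))) := by
          rw [← Finset.mul_sum, Finset.sum_add_distrib]
      _ ≤ n * ((1 + Real.log N) + (1 + Real.log N)) := by
          apply mul_le_mul_of_nonneg_left _ (by positivity)
          exact add_le_add (h52_low N n hnN) (h52_down N n hnN)
  have hB : ∑ m ∈ Finset.Ioc n N, h52w n m ≤ n * (1 + Real.log N) := by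
    calc ∑ m ∈ Finset.Ioc n N, h52w n m
        ≤ ∑ m ∈ Finset.Ioc n N, (n : ℝ) * (1 / ((m : ℝ) - n)) := by
          apply Finset.sum_le_sum
          intro m hm
          rw [Finset.mem_Ioc] at hm
          exact h52_w_up (by omega) hm.1
      _ = (n : ℝ) * (∑ m ∈ Finset.Ioc n N, (1 / ((m : ℝ) - n))) := by
          rw [← Finset.mul_sum]
      _ ≤ n * (1 + Real.log N) := by
          apply mul_le_mul_of_nonneg_left (h52_up N n) (by positivity)
  linarith

/-! ### the integrals -/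

lemma h52_int {m n : ℕ} (hm : 0 < m) (hn : 0 < n) (hne : m ≠ n) (T1 T2 : ℝ) :
    ‖∫ t in T1..T2, X t m * conj (X t n)‖ ≤ 2 / |Real.log m - Real.log n| := by
  have hX : ∀ t : ℝ, X t m * conj (X t n) =
      exp (((-(Real.log m - Real.log n) : ℝ) : ℂ) * I * t) := by
    intro t
    unfold X
    rw [MP774a5f.ph_mul_conj]
    congr 1
    push_cast
    ring
  simp_rw [hX]
  set c : ℂ := ((-(Real.log m - Real.log n) : ℝ) : ℂ) * I with hc
  have hne' : Real.log m - Real.log n ≠ 0 := by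
    intro h
    apply hne
    have h1 : Real.log m = Real.log n := by linarith
    have h2 := Real.log_injOn_pos (Set.mem_Ioi.mpr (by exact_mod_cast hm : (0:ℝ) < m))
      (Set.mem_Ioi.mpr (by exact_mod_cast hn : (0:ℝ) < n)) h1
    exact_mod_cast h2
  have hcn : ‖c‖ = |Real.log m - Real.log n| := by
    rw [hc, norm_mul, Complex.norm_I, mul_one, Complex.norm_real, Real.norm_eq_abs, abs_neg]
  have hc0 : c ≠ 0 := by
    intro h
    rw [h, norm_zero] at hcn
    exact hne' (abs_eq_zero.mp hcn.symm)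
  rw [integral_exp_mul_complex hc0, norm_div, hcn]
  have h1 : ∀ T : ℝ, ‖exp (c * T)‖ = 1 := by
    intro T
    have : c * T = ((-(Real.log m - Real.log n) * T : ℝ) : ℂ) * I := by
      rw [hc]; push_cast; ring
    rw [this, Complex.norm_exp_ofReal_mul_I]
  have h2 : ‖exp (c * T2) - exp (c * T1)‖ ≤ 2 := by
    refine (norm_sub_le _ _).trans ?_
    rw [h1, h1]
    norm_num
  exact div_le_div_of_nonneg_right h2 (abs_nonneg _)

lemma h52_diag (n : ℕ) (T1 T2 : ℝ) :
    ∫ t in T1..T2, X t n * conj (X t n) = ((T2 - T1 : ℝ) : ℂ) := by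
  have hX : ∀ t : ℝ, X t n * conj (X t n) = 1 := by
    intro t
    rw [Complex.mul_conj, Complex.normSq_eq_norm_sq, norm_X]
    simp
  simp_rw [hX]
  simp

/-- the elementary inequality behind Schur's test -/
lemma h52_amgm {m n : ℕ} (hm : 0 < m) (hn : 0 < n) (x y L : ℝ) (hL : 0 ≤ L) :
    x * y * (2 / L) ≤ x ^ 2 * ((m / n : ℝ) / L) + y ^ 2 * ((n / m : ℝ) / L) := by
  have hm' : (0 : ℝ) < m := by exact_mod_cast hm
  have hn' : (0 : ℝ) < n := by exact_mod_cast hn
  have h1 : 2 * (x * y) ≤ x ^ 2 * (m / n) + y ^ 2 * (n / m) := by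
    have h2 : x ^ 2 * (m / n : ℝ) + y ^ 2 * (n / m) - 2 * (x * y) =
        (x * m - y * n) ^ 2 / (m * n) := by
      field_simp
      ring
    have h3 : 0 ≤ (x * m - y * n) ^ 2 / ((m : ℝ) * n) := by positivity
    linarith
  calc x * y * (2 / L) = (2 * (x * y)) / L := by ring
    _ ≤ (x ^ 2 * (m / n) + y ^ 2 * (n / m)) / L := div_le_div_of_nonneg_right h1 hL
    _ = _ := by ring

theorem st1 : St1 := by
  intro S N a T1 T2 hS hT
  have hpos : ∀ n ∈ S, 0 < n := fun n hn => (hS n hn).1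
  have hcont : ∀ m n : ℕ, Continuous fun t : ℝ => X t m * conj (X t n) := fun m n =>
    (continuous_X m).mul (Complex.continuous_conj.comp (continuous_X n))
  -- expansion
  have hexp : ∀ t : ℝ, ((‖∑ n ∈ S, a n * X t n‖ ^ 2 : ℝ) : ℂ) =
      ∑ m ∈ S, ∑ n ∈ S, (a m * conj (a n)) * (X t m * conj (X t n)) := by
    intro t
    rw [← Complex.normSq_eq_norm_sq, ← Complex.mul_conj, map_sum, Finset.sum_mul_sum]
    apply Finset.sum_congr rfl
    intro m _
    apply Finset.sum_congr rfl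
    intro n _
    simp only [map_mul]
    ring
  have hint : ((∫ t in T1..T2, ‖∑ n ∈ S, a n * X t n‖ ^ 2 : ℝ) : ℂ) =
      ∑ m ∈ S, ∑ n ∈ S, (a m * conj (a n)) * ∫ t in T1..T2, X t m * conj (X t n) := by
    rw [← intervalIntegral.integral_ofReal]
    simp_rw [hexp]
    rw [intervalIntegral.integral_finsetSum]
    · apply Finset.sum_congr rfl
      intro m _
      rw [intervalIntegral.integral_finsetSum]
      · apply Finset.sum_congr rfl
        intro n _
        rw [intervalIntegral.integral_const_mul]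
      · intro n _
        exact (continuous_const.mul (hcont m n)).intervalIntegrable _ _
    · intro m _
      exact (continuous_finsetSum _ fun n _ =>
        continuous_const.mul (hcont m n)).intervalIntegrable _ _
  have hre : (∫ t in T1..T2, ‖∑ n ∈ S, a n * X t n‖ ^ 2) =
      ∑ m ∈ S, ∑ n ∈ S, ((a m * conj (a n)) * ∫ t in T1..T2, X t m * conj (X t n)).re := by
    have := congrArg Complex.re hint
    rw [Complex.ofReal_re, Complex.re_sum] at this
    rw [this]
    apply Finset.sum_congr rfl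
    intro m _
    rw [Complex.re_sum]
  rw [hre]
  -- pointwise bound
  have hterm : ∀ m ∈ S, ∀ n ∈ S,
      ((a m * conj (a n)) * ∫ t in T1..T2, X t m * conj (X t n)).re ≤
      (if m = n then ‖a n‖ ^ 2 * (T2 - T1) else
        (‖a m‖ ^ 2 * h52w m n + ‖a n‖ ^ 2 * h52w n m)) := by
    intro m hm n hn
    split_ifs with h
    · subst h
      rw [h52_diag, Complex.mul_conj, Complex.normSq_eq_norm_sq, ← Complex.ofReal_mul,
        Complex.ofReal_re]
    · refine (Complex.re_le_norm _).trans ?_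
      rw [norm_mul, norm_mul, RCLike.norm_conj]
      calc ‖a m‖ * ‖a n‖ * ‖∫ t in T1..T2, X t m * conj (X t n)‖
          ≤ ‖a m‖ * ‖a n‖ * (2 / |Real.log m - Real.log n|) := by
            apply mul_le_mul_of_nonneg_left (h52_int (hpos m hm) (hpos n hn) h T1 T2)
            positivity
        _ ≤ _ := h52_amgm (hpos m hm) (hpos n hn) _ _ _ (abs_nonneg _)
        _ = _ := by
            unfold h52w
            rw [abs_sub_comm (Real.log n) (Real.log m)]
  refine (Finset.sum_le_sum fun m hm => Finset.sum_le_sum fun n hn => hterm m hm n hn).trans ?_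
  -- reorganise
  have hw0 : ∀ m n : ℕ, 0 ≤ h52w m n := by
    intro m n
    unfold h52w
    positivity
  have hrow : ∀ m ∈ S, ∑ n ∈ S, (if m = n then ‖a n‖ ^ 2 * (T2 - T1) else
        (‖a m‖ ^ 2 * h52w m n + ‖a n‖ ^ 2 * h52w n m)) =
      ‖a m‖ ^ 2 * (T2 - T1) + (‖a m‖ ^ 2 * ∑ n ∈ S.erase m, h52w m n +
        ∑ n ∈ S.erase m, ‖a n‖ ^ 2 * h52w n m) := by
    intro m hm
    rw [← Finset.add_sum_erase S _ hm, if_pos rfl]
    congr 1
    rw [Finset.mul_sum, ← Finset.sum_add_distrib]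
    apply Finset.sum_congr rfl
    intro n hn
    rw [if_neg (Finset.ne_of_mem_erase hn).symm]
  rw [Finset.sum_congr rfl hrow, Finset.sum_add_distrib, Finset.sum_add_distrib]
  have hswap : ∑ m ∈ S, ∑ n ∈ S.erase m, ‖a n‖ ^ 2 * h52w n m =
      ∑ n ∈ S, ‖a n‖ ^ 2 * ∑ m ∈ S.erase n, h52w n m := by
    simp_rw [Finset.mul_sum]
    apply Finset.sum_comm'
    intro m n
    simp only [Finset.mem_erase]
    constructor
    · rintro ⟨h1, h2, h3⟩
      exact ⟨⟨Ne.symm h2, h1⟩, h3⟩
    · rintro ⟨⟨h1, h2⟩, h3⟩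
      exact ⟨h2, Ne.symm h1, h3⟩
  rw [hswap]
  have hsch : ∀ n ∈ S, ∑ m ∈ S.erase n, h52w n m ≤ 3 * n * (1 + Real.log N) := by
    intro n hn
    refine le_trans ?_ (h52_schur (hS n hn).1 (hS n hn).2)
    apply Finset.sum_le_sum_of_subset_of_nonneg
    · intro m hm
      rw [Finset.mem_erase] at hm ⊢
      exact ⟨hm.1, Finset.mem_Icc.mpr (hS m hm.2)⟩
    · intro m _ _
      exact hw0 n m
  have hfin : ∀ n ∈ S, ‖a n‖ ^ 2 * ∑ m ∈ S.erase n, h52w n m ≤
      ‖a n‖ ^ 2 * (3 * n * (1 + Real.log N)) := fun n hn =>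
    mul_le_mul_of_nonneg_left (hsch n hn) (by positivity)
  have h1 := Finset.sum_le_sum hfin
  have h2 : ∑ n ∈ S, ‖a n‖ ^ 2 * ((T2 - T1) + 6 * n * (1 + Real.log N)) =
      ∑ n ∈ S, ‖a n‖ ^ 2 * (T2 - T1) + (∑ n ∈ S, ‖a n‖ ^ 2 * (3 * n * (1 + Real.log N)) +
        ∑ n ∈ S, ‖a n‖ ^ 2 * (3 * n * (1 + Real.log N))) := by
    rw [← Finset.sum_add_distrib, ← Finset.sum_add_distrib]
    apply Finset.sum_congr rfl
    intro n _
    ring
  rw [h2]
  linarith

end Pool.Agent.Lib.MP_774a5f_nt.LD
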