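import Pool.Agent.Lib.MP_774a5f_nt.LD.Base81
import Pool.Agent.Lib.MP_973905_nt.Zeta

/-!
# Lemma 2: partial sums of `ζ` and `ζ'` on the 1-line
-/

namespace Pool.Agent.Lib.MP_774a5f_nt.LD

open MeasureTheory Complex Set
open Pool.Agent.Lib.MP_973905_nt (frg mellin_frg zeta_eq mellin_frg_bound)

/-- the integrand -/
noncomputable def h52g (s : ℂ) (t : ℝ) : ℂ := (t : ℂ) ^ (-(s + 1)) * ((Int.fract t : ℝ) : ℂ)

lemma h52g_int {s : ℂ} (hs : 0 < s.re) {a : ℝ} (ha : 0 < a) : IntegrableOn (h52g s) (Ioi a) := by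
  have h0 : IntegrableOn (fun t : ℝ => (t : ℂ) ^ (-(s + 1))) (Ioi a) :=
    integrableOn_Ioi_cpow_of_lt (by simp; linarith) ha
  refine Integrable.mono h0 ?_ ?_
  · exact h0.aestronglyMeasurable.mul
      (Complex.measurable_ofReal.comp measurable_fract).aestronglyMeasurable
  · filter_upwards with t
    unfold h52g
    rw [norm_mul, Complex.norm_real, Real.norm_eq_abs, abs_of_nonneg (Int.fract_nonneg t)]
    have h3 := (Int.fract_lt_one t).le
    have h4 : 0 ≤ ‖(t : ℂ) ^ (-(s + 1))‖ := norm_nonneg _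
    calc ‖(t : ℂ) ^ (-(s + 1))‖ * Int.fract t ≤ ‖(t : ℂ) ^ (-(s + 1))‖ * 1 := by gcongr
      _ = _ := mul_one _

lemma h52g_bound {s : ℂ} (hs : 0 < s.re) {a : ℝ} (ha : 0 < a) :
    ‖∫ t in Ioi a, h52g s t‖ ≤ a ^ (-s.re) / s.re := by
  have h1 : ∫ t in Ioi a, t ^ (-(s.re + 1)) = a ^ (-s.re) / s.re := by
    rw [integral_Ioi_rpow_of_lt (by linarith) ha]
    rw [show -(s.re + 1) + 1 = -s.re by ring]
    rw [neg_div_neg_eq]
  rw [← h1]
  refine norm_integral_le_of_norm_le (integrableOn_Ioi_rpow_of_lt (by linarith) ha) ?_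
  rw [ae_restrict_iff' measurableSet_Ioi]
  filter_upwards with t ht
  have ht0 : (0 : ℝ) < t := lt_trans ha ht
  unfold h52g
  rw [norm_mul, norm_cpow_eq_rpow_re_of_pos ht0, Complex.norm_real, Real.norm_eq_abs,
    abs_of_nonneg (Int.fract_nonneg t)]
  have h2 : (-(s + 1)).re = -(s.re + 1) := by simp
  rw [h2]
  have h3 := (Int.fract_lt_one t).le
  have h4 : 0 ≤ t ^ (-(s.re + 1)) := Real.rpow_nonneg ht0.le _
  calc t ^ (-(s.re + 1)) * Int.fract t ≤ t ^ (-(s.re + 1)) * 1 := by gcongr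
    _ = _ := mul_one _

lemma h52_zeta {s : ℂ} (hs : 0 < s.re) (hs1 : s ≠ 1) :
    riemannZeta s = s / (s - 1) - s * ∫ t in Ioi (1 : ℝ), h52g s t := by
  have h := zeta_eq hs
  rw [mellin_frg] at h
  have hs1' : s - 1 ≠ 0 := sub_ne_zero.2 hs1
  have h3 : riemannZeta₁ s = (s - 1) * riemannZeta s := by
    rw [riemannZeta_eq_inv_sub_mul hs1]
    field_simp
  rw [h3] at h
  have h4 : riemannZeta s = (s - s * (s - 1) * ∫ t in Ioi (1 : ℝ), h52g s t) / (s - 1) := by
    rw [eq_div_iff hs1', mul_comm]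
    exact h
  rw [h4]
  field_simp

lemma h52_partial {s : ℂ} (hs0 : s ≠ 0) (hs1 : s ≠ 1) {N : ℕ} (hN : 1 ≤ N) :
    ∑ n ∈ Finset.Icc 1 N, (n : ℂ) ^ (-s) =
      s / (s - 1) + (N : ℂ) ^ (1 - s) / (1 - s) - s * ∫ t in Ioc (1 : ℝ) N, h52g s t := by
  have hs1' : s - 1 ≠ 0 := sub_ne_zero.2 hs1
  have hs1'' : 1 - s ≠ 0 := fun h => hs1' (by linear_combination -h)
  have hN' : (1 : ℝ) ≤ N := by exact_mod_cast hN
  have hder : ∀ t : ℝ, t ≠ 0 → HasDerivAt (fun t : ℝ => (t : ℂ) ^ (-s))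
      (-s * (t : ℂ) ^ (-(s + 1))) t := by
    intro t ht
    have h := hasDerivAt_ofReal_cpow_const' (r := -s - 1) ht (by
      intro h
      apply hs0
      linear_combination -h)
    have h2 := h.mul_const (-s)
    have e1 : (fun t : ℝ => (t : ℂ) ^ (-s - 1 + 1) / (-s - 1 + 1) * -s) =
        fun t : ℝ => (t : ℂ) ^ (-s) := by
      funext t
      rw [show -s - 1 + 1 = -s by ring]
      field_simp
    rw [e1] at h2
    have e2 : -s * (t : ℂ) ^ (-(s + 1)) = (t : ℂ) ^ (-s - 1) * -s := by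
      rw [show -(s + 1) = -s - 1 by ring]
      ring
    rw [e2]
    exact h2
  have hcont : ContinuousOn (fun t : ℝ => -s * (t : ℂ) ^ (-(s + 1))) (Icc 1 N) := by
    apply ContinuousOn.mul continuousOn_const
    intro t ht
    have : t ≠ 0 := by
      have := ht.1
      intro h
      rw [h] at this
      linarith
    exact (Complex.continuousAt_ofReal_cpow_const _ _ (Or.inr this)).continuousWithinAt
  have hderiv : ∀ t ∈ Icc (1 : ℝ) N, deriv (fun t : ℝ => (t : ℂ) ^ (-s)) t =
      -s * (t : ℂ) ^ (-(s + 1)) := by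
    intro t ht
    exact (hder t (by have := ht.1; intro h; rw [h] at this; linarith)).deriv
  have hA := sum_mul_eq_sub_sub_integral_mul' (f := fun t : ℝ => (t : ℂ) ^ (-s))
    (fun k : ℕ => if k = 0 then (0 : ℂ) else 1) hN (by
      intro t ht
      refine (hder t ?_).differentiableAt
      have := ht.1
      push_cast at this
      intro h
      rw [h] at this
      linarith) (by
      have h1 : IntegrableOn (fun t : ℝ => -s * (t : ℂ) ^ (-(s + 1))) (Icc ((1 : ℕ) : ℝ) N) := by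
        push_cast
        exact hcont.integrableOn_Icc
      refine h1.congr_fun ?_ measurableSet_Icc
      intro t ht
      simp only
      rw [hderiv t (by push_cast at ht; exact ht)])
  have hsum : ∀ m : ℕ, ∑ k ∈ Finset.Icc 0 m, (if k = 0 then (0 : ℂ) else 1) = m := by
    intro m
    induction m with
    | zero => simp
    | succ m ih =>
      rw [← Finset.insert_Icc_right_eq_Icc_add_one (by omega), Finset.sum_insert (by simp), ih]
      simp
      ring
  have hsplit : ∑ n ∈ Finset.Icc 1 N, (n : ℂ) ^ (-s) = 1 + ∑ n ∈ Finset.Ioc 1 N,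
      (((n : ℕ) : ℝ) : ℂ) ^ (-s) * (if n = 0 then (0 : ℂ) else 1) := by
    rw [← Finset.add_sum_Ioc_eq_sum_Icc hN]
    congr 1
    · simp
    · apply Finset.sum_congr rfl
      intro n hn
      rw [Finset.mem_Ioc] at hn
      rw [if_neg (by omega), mul_one]
      simp
  rw [hsplit, hA]
  simp only [hsum]
  -- the integral
  have hfl : ∫ t in Ioc ((1 : ℕ) : ℝ) N, deriv (fun t : ℝ => (t : ℂ) ^ (-s)) t * (⌊t⌋₊ : ℂ) =
      ∫ t in Ioc (1 : ℝ) N, (-s * (t : ℂ) ^ (-s) + s * h52g s t) := by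
    push_cast
    refine setIntegral_congr_fun measurableSet_Ioc fun t ht => ?_
    have ht0 : (0 : ℝ) < t := lt_trans one_pos ht.1
    rw [hderiv t ⟨ht.1.le, ht.2⟩]
    have e2 : ((⌊t⌋₊ : ℝ) : ℂ) = (t : ℂ) - ((Int.fract t : ℝ) : ℂ) := by
      rw [natCast_floor_eq_intCast_floor ht0.le, ← Complex.ofReal_sub]
      congr 1
      exact (Int.self_sub_fract t).symm
    have e3 : (t : ℂ) ^ (-s) = (t : ℂ) * (t : ℂ) ^ (-(s + 1)) := by
      have : -s = 1 + -(s + 1) := by ring
      conv_lhs => rw [this]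
      rw [cpow_add _ _ (by exact_mod_cast ht0.ne'), cpow_one]
    have e4 : ((⌊t⌋₊ : ℕ) : ℂ) = (t : ℂ) - ((Int.fract t : ℝ) : ℂ) := by
      rw [← e2]
      simp
    rw [e4, e3]
    unfold h52g
    ring
  rw [hfl]
  have hi1 : IntegrableOn (fun t : ℝ => -s * (t : ℂ) ^ (-s)) (Ioc 1 N) := by
    have : ContinuousOn (fun t : ℝ => -s * (t : ℂ) ^ (-s)) (Icc 1 N) := by
      apply ContinuousOn.mul continuousOn_const
      intro t ht
      have : t ≠ 0 := by
        have := ht.1
        intro h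
        rw [h] at this
        linarith
      exact (Complex.continuousAt_ofReal_cpow_const _ _ (Or.inr this)).continuousWithinAt
    exact this.integrableOn_Icc.mono_set Ioc_subset_Icc_self
  have hi2 : IntegrableOn (fun t : ℝ => s * h52g s t) (Ioc 1 N) := by
    apply Integrable.const_mul
    have h0 : ContinuousOn (fun t : ℝ => (t : ℂ) ^ (-(s + 1))) (Icc 1 N) := by
      intro t ht
      have : t ≠ 0 := by
        have := ht.1
        intro h
        rw [h] at this
        linarith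
      exact (Complex.continuousAt_ofReal_cpow_const _ _ (Or.inr this)).continuousWithinAt
    have h1 : IntegrableOn (fun t : ℝ => (t : ℂ) ^ (-(s + 1))) (Ioc 1 N) :=
      h0.integrableOn_Icc.mono_set Ioc_subset_Icc_self
    refine Integrable.mono h1 ?_ ?_
    · exact h1.aestronglyMeasurable.mul
        (Complex.measurable_ofReal.comp measurable_fract).aestronglyMeasurable
    · filter_upwards with t
      unfold h52g
      rw [norm_mul, Complex.norm_real, Real.norm_eq_abs, abs_of_nonneg (Int.fract_nonneg t)]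
      have h3 := (Int.fract_lt_one t).le
      have h4 : 0 ≤ ‖(t : ℂ) ^ (-(s + 1))‖ := norm_nonneg _
      calc ‖(t : ℂ) ^ (-(s + 1))‖ * Int.fract t ≤ ‖(t : ℂ) ^ (-(s + 1))‖ * 1 := by gcongr
        _ = _ := mul_one _
  rw [integral_add hi1 hi2, integral_const_mul, integral_const_mul]
  have hI : ∫ t in Ioc (1 : ℝ) N, (t : ℂ) ^ (-s) = ((N : ℂ) ^ (1 - s) - 1) / (1 - s) := by
    rw [← intervalIntegral.integral_of_le hN', integral_cpow (Or.inr ⟨?_, ?_⟩)]
    · rw [show -s + 1 = 1 - s by ring]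
      simp
    · intro h
      apply hs1
      linear_combination -h
    · rw [Set.uIcc_of_le hN']
      intro h
      have := h.1
      linarith
  rw [hI]
  have hNN : (N : ℂ) ^ (1 - s) = (N : ℂ) ^ (-s) * N := by
    have hN0 : (N : ℂ) ≠ 0 := by exact_mod_cast (by omega : N ≠ 0)
    rw [show (1 - s : ℂ) = -s + 1 by ring, cpow_add _ _ hN0, cpow_one]
  rw [hNN]
  simp only [Complex.ofReal_natCast]
  push_cast
  rw [Complex.one_cpow]
  field_simp
  ring

/-- the difference of `ζ` and its partial sum -/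
noncomputable def h52h (N : ℕ) (s : ℂ) : ℂ := riemannZeta s - ∑ n ∈ Finset.Icc 1 N, (n : ℂ) ^ (-s)

lemma h52h_eq {s : ℂ} (hs : 0 < s.re) (hs1 : s ≠ 1) {N : ℕ} (hN : 1 ≤ N) :
    h52h N s = (N : ℂ) ^ (1 - s) / (s - 1) - s * ∫ t in Ioi (N : ℝ), h52g s t := by
  have hs0 : s ≠ 0 := by
    rintro rfl
    simp at hs
  have hs1' : s - 1 ≠ 0 := sub_ne_zero.2 hs1
  have hs1'' : 1 - s ≠ 0 := fun h => hs1' (by linear_combination -h)
  have hN' : (1 : ℝ) ≤ N := by exact_mod_cast hN
  unfold h52h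
  rw [h52_zeta hs hs1, h52_partial hs0 hs1 hN]
  have hsplit : ∫ t in Ioi (1 : ℝ), h52g s t =
      (∫ t in Ioc (1 : ℝ) N, h52g s t) + ∫ t in Ioi (N : ℝ), h52g s t := by
    rw [← Ioc_union_Ioi_eq_Ioi hN']
    rw [setIntegral_union (Set.Ioc_disjoint_Ioi le_rfl) measurableSet_Ioi]
    · exact (h52g_int hs one_pos).mono_set Ioc_subset_Ioi_self
    · exact h52g_int hs (by linarith)
  rw [hsplit]
  have : (N : ℂ) ^ (1 - s) / (1 - s) = -((N : ℂ) ^ (1 - s) / (s - 1)) := by
    rw [← div_neg]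
    congr 1
    ring
  rw [this]
  ring

lemma h52h_bound {s : ℂ} (hs : 0 < s.re) (hs1 : s ≠ 1) {N : ℕ} (hN : 1 ≤ N) :
    ‖h52h N s‖ ≤ (N : ℝ) ^ (1 - s.re) / ‖s - 1‖ + ‖s‖ * ((N : ℝ) ^ (-s.re) / s.re) := by
  have hN' : (0 : ℝ) < N := by exact_mod_cast hN
  rw [h52h_eq hs hs1 hN]
  refine (norm_sub_le _ _).trans ?_
  apply add_le_add
  · rw [norm_div]
    apply div_le_div_of_nonneg_right _ (norm_nonneg _)
    rw [← Complex.ofReal_natCast, norm_cpow_eq_rpow_re_of_pos hN']
    simp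
  · rw [norm_mul]
    exact mul_le_mul_of_nonneg_left (h52g_bound hs hN') (norm_nonneg _)

lemma h52_term {n : ℕ} (hn : 1 ≤ n) (s : ℂ) :
    HasDerivAt (fun s : ℂ => (n : ℂ) ^ (-s)) (-((Real.log n : ℝ) : ℂ) * (n : ℂ) ^ (-s)) s := by
  have hn0 : (n : ℂ) ≠ 0 := by exact_mod_cast (by omega : n ≠ 0)
  have h := (hasDerivAt_neg s).const_cpow (c := (n : ℂ)) (Or.inl hn0)
  convert h using 1
  rw [Complex.ofReal_log (by positivity)]
  push_cast
  ring

lemma h52h_diff {s : ℂ} (hs1 : s ≠ 1) (N : ℕ) : HasDerivAt (h52h N)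
    (deriv riemannZeta s - ∑ n ∈ Finset.Icc 1 N, (-((Real.log n : ℝ) : ℂ) * (n : ℂ) ^ (-s))) s := by
  unfold h52h
  refine (differentiableAt_riemannZeta hs1).hasDerivAt.sub ?_
  apply HasDerivAt.fun_sum
  intro n hn
  exact h52_term (Finset.mem_Icc.mp hn).1 s

theorem st2 : St2 := by
  refine ⟨100, 4, by norm_num, by norm_num, ?_⟩
  intro T t hT hTt htT
  have hT0 : 0 < T := by linarith
  set N := ⌊T ^ 2⌋₊ with hNdef
  have hT2 : 16 ≤ T ^ 2 := by nlinarith
  have hNle : (N : ℝ) ≤ T ^ 2 := Nat.floor_le (by positivity)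
  have hNge : T ^ 2 / 2 ≤ (N : ℝ) := by
    have := Nat.sub_one_lt_floor (T ^ 2)
    rw [← hNdef] at this
    linarith
  have hN : 1 ≤ N := by
    have h1 : (1 : ℝ) ≤ N := by linarith
    exact_mod_cast h1
  have hN0 : (0 : ℝ) < N := by linarith
  have hsq : 0 < √T := Real.sqrt_pos.mpr hT0
  -- bounds for powers
  have hsT : T ^ (1 / 2 : ℝ) = √T := (Real.sqrt_eq_rpow T).symm
  have key : ∀ s : ℂ, 3 / 4 ≤ s.re → s.re ≤ 5 / 4 → T / 2 ≤ |s.im| → |s.im| ≤ 3 * T →
      ‖h52h N s‖ ≤ 25 / √T := by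
    intro s h1 h2 h3 h4
    have hs : 0 < s.re := by linarith
    have hs1 : s ≠ 1 := by
      rintro rfl
      simp at h3
      linarith
    refine (h52h_bound hs hs1 hN).trans ?_
    have hN1 : (1 : ℝ) ≤ N := by exact_mod_cast hN
    have e1 : (N : ℝ) ^ (1 - s.re) ≤ √T := by
      calc (N : ℝ) ^ (1 - s.re) ≤ (N : ℝ) ^ (1 / 4 : ℝ) :=
            Real.rpow_le_rpow_of_exponent_le hN1 (by linarith)
        _ ≤ (T ^ 2) ^ (1 / 4 : ℝ) := Real.rpow_le_rpow hN0.le hNle (by norm_num)
        _ = √T := by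
            rw [← hsT, ← Real.rpow_natCast T 2, ← Real.rpow_mul hT0.le]
            norm_num
    have e2 : T / 2 ≤ ‖s - 1‖ := by
      have h5 := Complex.abs_im_le_norm (s - 1)
      have h6 : (s - 1).im = s.im := by simp
      rw [h6] at h5
      linarith
    have e3 : (N : ℝ) ^ (1 - s.re) / ‖s - 1‖ ≤ 2 / √T := by
      calc (N : ℝ) ^ (1 - s.re) / ‖s - 1‖ ≤ √T / (T / 2) := by
            apply div_le_div₀ hsq.le e1 (by positivity) e2
        _ = 2 / √T := by
            have : T = √T * √T := (Real.mul_self_sqrt hT0.le).symm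
            rw [div_eq_div_iff (by positivity) (by positivity)]
            nlinarith
    have e4 : ‖s‖ ≤ 4 * T := by
      have h5 := Complex.norm_le_abs_re_add_abs_im s
      rw [abs_of_pos hs] at h5
      linarith
    have e5 : (N : ℝ) ^ (-s.re) ≤ 2 / (T * √T) := by
      calc (N : ℝ) ^ (-s.re) ≤ (N : ℝ) ^ (-(3 / 4) : ℝ) :=
            Real.rpow_le_rpow_of_exponent_le hN1 (by linarith)
        _ ≤ (T ^ 2 / 2) ^ (-(3 / 4) : ℝ) :=
            Real.rpow_le_rpow_of_nonpos (by positivity) hNge (by norm_num)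
        _ = 2 ^ (3 / 4 : ℝ) / (T * √T) := by
            rw [Real.rpow_neg (by positivity), Real.div_rpow (by positivity) (by norm_num),
              inv_div]
            congr 1
            rw [← hsT, ← Real.rpow_natCast T 2, ← Real.rpow_mul hT0.le]
            conv_rhs => rw [← Real.rpow_one T]
            rw [Real.rpow_one T, ← Real.rpow_one_add' hT0.le (by norm_num)]
            norm_num
        _ ≤ 2 / (T * √T) := by
            apply div_le_div_of_nonneg_right _ (by positivity)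
            calc (2 : ℝ) ^ (3 / 4 : ℝ) ≤ 2 ^ (1 : ℝ) :=
                  Real.rpow_le_rpow_of_exponent_le (by norm_num) (by norm_num)
              _ = 2 := Real.rpow_one 2
    have e6 : ‖s‖ * ((N : ℝ) ^ (-s.re) / s.re) ≤ 11 / √T := by
      calc ‖s‖ * ((N : ℝ) ^ (-s.re) / s.re) ≤ (4 * T) * ((2 / (T * √T)) / (3 / 4)) := by
            apply mul_le_mul e4 _ (by positivity) (by positivity)
            apply div_le_div₀ (by positivity) e5 (by norm_num) h1
        _ = (32 / 3) / √T := by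
            field_simp
            norm_num
        _ ≤ 11 / √T := by
            apply div_le_div_of_nonneg_right _ hsq.le
            norm_num
    calc (N : ℝ) ^ (1 - s.re) / ‖s - 1‖ + ‖s‖ * ((N : ℝ) ^ (-s.re) / s.re)
        ≤ 2 / √T + 11 / √T := add_le_add e3 e6
      _ = 13 / √T := by ring
      _ ≤ 25 / √T := by
          apply div_le_div_of_nonneg_right _ hsq.le
          norm_num
  -- the point
  set s₀ : ℂ := 1 + t * I with hs₀
  have hre : s₀.re = 1 := by simp [hs₀]
  have him : s₀.im = t := by simp [hs₀]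
  have ht0 : 0 < t := by linarith
  have hX : ∀ n ∈ Finset.Icc 1 N, (n : ℂ) ^ (-s₀) = ((1 / n : ℝ) : ℂ) * X t n := by
    intro n hn
    have hn0 : n ≠ 0 := by
      have := (Finset.mem_Icc.mp hn).1
      omega
    have hnc : (n : ℂ) ≠ 0 := by exact_mod_cast hn0
    rw [X_eq_cpow t hn0, hs₀, show -(1 + (t : ℂ) * I) = -1 + -(t * I) by ring, cpow_add _ _ hnc,
      cpow_neg_one]
    push_cast
    rw [one_div]
  have hball : ∀ z ∈ Metric.closedBall s₀ (1 / 4), 3 / 4 ≤ z.re ∧ z.re ≤ 5 / 4 ∧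
      T / 2 ≤ |z.im| ∧ |z.im| ≤ 3 * T := by
    intro z hz
    rw [Metric.mem_closedBall, Complex.dist_eq] at hz
    have h1 := (Complex.abs_re_le_norm (z - s₀)).trans hz
    have h2 := (Complex.abs_im_le_norm (z - s₀)).trans hz
    rw [Complex.sub_re, hre, abs_le] at h1
    rw [Complex.sub_im, him, abs_le] at h2
    have h3 : 0 < z.im := by linarith
    rw [abs_of_pos h3]
    refine ⟨by linarith, by linarith, by linarith, by linarith⟩
  have hne : ∀ z ∈ Metric.closedBall s₀ (1 / 4), z ≠ 1 := by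
    intro z hz h
    have := (hball z hz).2.2.1
    rw [h] at this
    simp at this
    linarith
  have hmem : s₀ ∈ Metric.closedBall s₀ (1 / 4) := Metric.mem_closedBall_self (by norm_num)
  constructor
  · have h1 := key s₀ (hball _ hmem).1 (hball _ hmem).2.1 (hball _ hmem).2.2.1 (hball _ hmem).2.2.2
    unfold h52h at h1
    rw [Finset.sum_congr rfl hX] at h1
    refine h1.trans ?_
    apply div_le_div_of_nonneg_right _ hsq.le
    norm_num
  · have hdc : DiffContOnCl ℂ (h52h N) (Metric.ball s₀ (1 / 4)) := by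
      apply DifferentiableOn.diffContOnCl
      rw [closure_ball _ (by norm_num)]
      intro z hz
      exact (h52h_diff (hne z hz) N).differentiableAt.differentiableWithinAt
    have h1 := Complex.norm_deriv_le_of_forall_mem_sphere_norm_le (f := h52h N) (c := s₀)
      (R := 1 / 4) (C := 25 / √T) (by norm_num) hdc (by
        intro z hz
        have hz' := hball z (Metric.sphere_subset_closedBall hz)
        exact key z hz'.1 hz'.2.1 hz'.2.2.1 hz'.2.2.2)
    rw [(h52h_diff (hne s₀ hmem) N).deriv] at h1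
    have e : deriv riemannZeta s₀ - ∑ n ∈ Finset.Icc 1 N,
        (-((Real.log n : ℝ) : ℂ) * (n : ℂ) ^ (-s₀)) =
        deriv riemannZeta s₀ + ∑ n ∈ Finset.Icc 1 N, ((Real.log n / n : ℝ) : ℂ) * X t n := by
      rw [sub_eq_add_neg, ← Finset.sum_neg_distrib]
      congr 1
      apply Finset.sum_congr rfl
      intro n hn
      rw [hX n hn]
      push_cast
      ring
    rw [e] at h1
    refine h1.trans (le_of_eq ?_)
    field_simp
    norm_num

end Pool.Agent.Lib.MP_774a5f_nt.LD
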