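import Pool.Agent.Lib.MP_774a5f_nt.LD.Base81

/-!
# Module M4: sums over large primes (Lemma 4)
-/

namespace Pool.Agent.Lib.MP_774a5f_nt.LD

open MeasureTheory Complex Set

namespace M439

lemma block {y : ℕ} (hy : 1 ≤ y) {Y : ℕ} (hY : Y ≤ 2 * y) :
    ∑ p ∈ Pri y Y, cp p ^ 2 ≤ 2 * Real.log 4 * (Real.log y + Real.log 2) / y := by
  have hy' : (1 : ℝ) ≤ y := by exact_mod_cast hy
  have hy0 : (0 : ℝ) < y := by linarith
  have h2y : Real.log ((2 * y : ℕ) : ℝ) = Real.log y + Real.log 2 := by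
    push_cast
    rw [Real.log_mul (by norm_num) hy0.ne', add_comm]
  have h1 : ∀ p ∈ Pri y Y, cp p ^ 2 ≤ Real.log p * ((Real.log y + Real.log 2) / y ^ 2) := by
    intro p hp
    obtain ⟨ha, hb, hpp⟩ := mem_Pri.1 hp
    have hp1 : (1 : ℝ) ≤ p := by exact_mod_cast hpp.one_lt.le
    have hyp : (y : ℝ) ≤ p := by exact_mod_cast ha.le
    have hl0 : 0 ≤ Real.log p := Real.log_nonneg hp1
    have hl : Real.log p ≤ Real.log y + Real.log 2 := by
      rw [← h2y]
      exact Real.log_le_log (by linarith) (by exact_mod_cast hb.trans hY)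
    unfold cp
    rw [div_pow, sq (Real.log p), mul_div_assoc]
    refine mul_le_mul_of_nonneg_left ?_ hl0
    refine div_le_div₀ (hl0.trans hl) hl (by positivity) ?_
    exact pow_le_pow_left₀ hy0.le hyp 2
  have h3 : ∑ p ∈ Pri y Y, Real.log p ≤ (2 * y : ℕ) * Real.log 4 := by
    refine le_trans ?_ (MP774a5f.theta_le (2 * y))
    refine Finset.sum_le_sum_of_subset_of_nonneg ?_ ?_
    · intro p hp
      obtain ⟨ha, hb, hpp⟩ := mem_Pri.1 hp
      exact Finset.mem_filter.2 ⟨Finset.mem_Icc.2 ⟨hpp.one_lt.le, hb.trans hY⟩, hpp⟩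
    · intro p hp _
      have := (Finset.mem_filter.1 hp).2.one_lt.le
      exact Real.log_nonneg (by exact_mod_cast this)
  refine (Finset.sum_le_sum h1).trans ?_
  rw [← Finset.sum_mul]
  have h4 : 0 ≤ (Real.log y + Real.log 2) / (y : ℝ) ^ 2 := by
    have := Real.log_nonneg hy'
    have := Real.log_nonneg (show (1 : ℝ) ≤ 2 by norm_num)
    positivity
  refine (mul_le_mul_of_nonneg_right h3 h4).trans (le_of_eq ?_)
  push_cast
  field_simp

lemma split {y Y : ℕ} (h : 2 * y ≤ Y) :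
    ∑ p ∈ Pri y Y, cp p ^ 2 = ∑ p ∈ Pri y (2 * y), cp p ^ 2 + ∑ p ∈ Pri (2 * y) Y, cp p ^ 2 := by
  rw [← Finset.sum_union]
  · refine Finset.sum_congr ?_ fun _ _ => rfl
    ext p
    rw [Finset.mem_union, mem_Pri, mem_Pri, mem_Pri]
    constructor
    · rintro ⟨h1, h2, h3⟩
      by_cases h4 : p ≤ 2 * y
      · exact Or.inl ⟨h1, h4, h3⟩
      · exact Or.inr ⟨by omega, h2, h3⟩
    · rintro (⟨h1, h2, h3⟩ | ⟨h1, h2, h3⟩)
      · exact ⟨h1, by omega, h3⟩
      · exact ⟨by omega, h2, h3⟩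
  · rw [Finset.disjoint_left]
    intro p h1 h2
    have := (mem_Pri.1 h1).2.1
    have := (mem_Pri.1 h2).1
    omega

lemma all : ∀ (k y Y : ℕ), 1 ≤ y → Y - y ≤ k →
    ∑ p ∈ Pri y Y, cp p ^ 2 ≤ 4 * Real.log 4 * (Real.log y + 2 * Real.log 2) / y := by
  intro k
  induction k using Nat.strong_induction_on with
  | _ k ih =>
    intro y Y hy hk
    have hy' : (1 : ℝ) ≤ y := by exact_mod_cast hy
    have hy0 : (0 : ℝ) < y := by linarith
    have hly : 0 ≤ Real.log y := Real.log_nonneg hy'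
    have hl2 : 0 ≤ Real.log 2 := Real.log_nonneg (by norm_num)
    have hl4 : 0 ≤ Real.log 4 := Real.log_nonneg (by norm_num)
    by_cases h : Y ≤ 2 * y
    · refine (block hy h).trans ?_
      refine div_le_div_of_nonneg_right ?_ hy0.le
      nlinarith
    · have h2 : 2 * y ≤ Y := by omega
      rw [split h2]
      have h3 := block hy (le_refl (2 * y))
      have h4 := ih (Y - 2 * y) (by omega) (2 * y) Y (by omega) le_rfl
      have h2y : Real.log ((2 * y : ℕ) : ℝ) = Real.log y + Real.log 2 := by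
        push_cast
        rw [Real.log_mul (by norm_num) hy0.ne', add_comm]
      rw [h2y] at h4
      refine (add_le_add h3 h4).trans (le_of_eq ?_)
      push_cast
      field_simp
      ring

end M439

theorem st4 : St4 := by
  have hl2 : 0 < Real.log 2 := Real.log_pos (by norm_num)
  have hl4 : 0 < Real.log 4 := Real.log_pos (by norm_num)
  refine ⟨12 * Real.log 4 * (1 + Real.log 2), by positivity, fun y Y hy => ?_, fun y Y hy => ?_⟩
  · have h := M439.all (Y - y) y Y (by omega) le_rfl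
    have hy' : (2 : ℝ) ≤ y := by exact_mod_cast hy
    have hy0 : (0 : ℝ) < y := by linarith
    have hly : Real.log 2 ≤ Real.log y := Real.log_le_log (by norm_num) hy'
    refine h.trans (div_le_div_of_nonneg_right ?_ hy0.le)
    have h1 : Real.log y + 2 * Real.log 2 ≤ 3 * Real.log y := by linarith
    have h2 : 4 * Real.log 4 * (Real.log y + 2 * Real.log 2) ≤ 4 * Real.log 4 * (3 * Real.log y) :=
      mul_le_mul_of_nonneg_left h1 (by positivity)
    have h3 : 0 ≤ Real.log 4 * Real.log 2 * Real.log y := by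
      have : 0 ≤ Real.log y := by linarith
      positivity
    nlinarith
  · have h := M439.all (Y - y) y Y hy le_rfl
    have hy' : (1 : ℝ) ≤ y := by exact_mod_cast hy
    have hy0 : (0 : ℝ) < y := by linarith
    have hs : 0 < √(y : ℝ) := Real.sqrt_pos.2 hy0
    have hs1 : 1 ≤ √(y : ℝ) := Real.one_le_sqrt.2 hy'
    have hss : √(y : ℝ) * √(y : ℝ) = y := Real.mul_self_sqrt hy0.le
    have hlog : Real.log y ≤ 2 * √(y : ℝ) := by
      have h1 : Real.log y = 2 * Real.log (√(y : ℝ)) := by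
        rw [Real.log_sqrt hy0.le]; ring
      have h2 : Real.log (√(y : ℝ)) ≤ √(y : ℝ) - 1 := Real.log_le_sub_one_of_pos hs
      linarith
    refine h.trans ?_
    rw [div_le_div_iff₀ hy0 hs]
    have h1 : (Real.log y + 2 * Real.log 2) * √(y : ℝ) ≤
        (2 * √(y : ℝ) + 2 * Real.log 2 * √(y : ℝ)) * √(y : ℝ) := by
      refine mul_le_mul_of_nonneg_right ?_ hs.le
      have : 2 * Real.log 2 * 1 ≤ 2 * Real.log 2 * √(y : ℝ) :=
        mul_le_mul_of_nonneg_left hs1 (by positivity)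
      linarith
    have h2 : (2 * √(y : ℝ) + 2 * Real.log 2 * √(y : ℝ)) * √(y : ℝ) =
        2 * (1 + Real.log 2) * y := by
      calc _ = 2 * (1 + Real.log 2) * (√(y : ℝ) * √(y : ℝ)) := by ring
        _ = _ := by rw [hss]
    rw [h2] at h1
    have h3 := mul_le_mul_of_nonneg_left h1 (show (0 : ℝ) ≤ 4 * Real.log 4 by positivity)
    have h4 : 0 ≤ Real.log 4 * (1 + Real.log 2) * y := by positivity
    nlinarith

end Pool.Agent.Lib.MP_774a5f_nt.LD
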