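import Pool.Agent.Lib.MP_774a5f_nt.LD.Base81

/-!
# Lemma 5: high moments of a prime polynomial
-/

namespace Pool.Agent.Lib.MP_774a5f_nt.LD

open MeasureTheory Complex Set
open scoped ComplexConjugate Nat

lemma h52_X_prod {ι : Type*} (t : ℝ) (s : Finset ι) (f : ι → ℕ) (h : ∀ i ∈ s, f i ≠ 0) :
    X t (∏ i ∈ s, f i) = ∏ i ∈ s, X t (f i) := by
  classical
  induction s using Finset.induction_on with
  | empty => simp [X_one]
  | insert a s ha ih =>
    rw [Finset.prod_insert ha, Finset.prod_insert ha, X_mul t, ih]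
    · intro i hi
      exact h i (Finset.mem_insert_of_mem hi)
    · exact h a (Finset.mem_insert_self _ _)
    · rw [Finset.prod_ne_zero_iff]
      intro i hi
      exact h i (Finset.mem_insert_of_mem hi)

lemma h52_count {k : ℕ} (f : Fin k → ℕ) (hf : ∀ i, (f i).Prime) (p : ℕ) :
    (∏ i, f i).factorization p = Fintype.card {i // f i = p} := by
  rw [Nat.factorization_prod (fun i _ => (hf i).ne_zero), Finsupp.finsetSum_apply]
  have : ∀ i ∈ (Finset.univ : Finset (Fin k)), (f i).factorization p =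
      if f i = p then 1 else 0 := by
    intro i _
    rw [(hf i).factorization, Finsupp.single_apply]
  rw [Finset.sum_congr rfl this, Finset.sum_boole, Fintype.card_subtype]
  simp

/-- two tuples of primes with the same product are permutations of each other -/
lemma h52_perm {k : ℕ} (f g : Fin k → ℕ) (hf : ∀ i, (f i).Prime) (hg : ∀ i, (g i).Prime)
    (h : ∏ i, f i = ∏ i, g i) : ∃ σ : Equiv.Perm (Fin k), f = g ∘ σ := by
  have hc : ∀ p, Fintype.card {i // f i = p} = Fintype.card {i // g i = p} := by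
    intro p
    rw [← h52_count f hf, h, h52_count g hg]
  let e : ∀ p, {i // f i = p} ≃ {i // g i = p} := fun p => Fintype.equivOfCardEq (hc p)
  refine ⟨(Equiv.sigmaFiberEquiv f).symm.trans
    ((Equiv.sigmaCongrRight e).trans (Equiv.sigmaFiberEquiv g)), ?_⟩
  funext i
  exact (e (f i) ⟨i, rfl⟩).2.symm

lemma h52_fiber {k : ℕ} (A : Finset (Fin k → ℕ)) (hA : ∀ f ∈ A, ∀ i, (f i).Prime) (n : ℕ) :
    (A.filter fun f => ∏ i, f i = n).card ≤ k ! := by
  classical
  rcases (A.filter fun f => ∏ i, f i = n).eq_empty_or_nonempty with h | ⟨g, hg⟩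
  · rw [h]
    simp
  · rw [Finset.mem_filter] at hg
    have hsub : (A.filter fun f => ∏ i, f i = n) ⊆
        (Finset.univ : Finset (Equiv.Perm (Fin k))).image (fun σ : Equiv.Perm (Fin k) => g ∘ ⇑σ) := by
      intro f hf
      rw [Finset.mem_filter] at hf
      obtain ⟨σ, hσ⟩ := h52_perm f g (hA f hf.1) (hA g hg.1) (hf.2.trans hg.2.symm)
      rw [Finset.mem_image]
      exact ⟨σ, Finset.mem_univ _, hσ.symm⟩
    refine (Finset.card_le_card hsub).trans (Finset.card_image_le.trans ?_)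
    rw [Finset.card_univ, Fintype.card_perm, Fintype.card_fin]

theorem st5 (h1 : St1) : St5 := by
  classical
  intro P c Y k T1 T2 hP hk hT
  set A : Finset (Fin k → ℕ) := Fintype.piFinset (fun _ => P) with hAdef
  set w : (Fin k → ℕ) → ℝ := fun f => ∏ i, c (f i) with hwdef
  set pr : (Fin k → ℕ) → ℕ := fun f => ∏ i, f i with hprdef
  set b : ℕ → ℝ := fun n => ∑ f ∈ A.filter (fun f => pr f = n), w f with hbdef
  have hA : ∀ f ∈ A, ∀ i, (f i).Prime ∧ f i ≤ Y := by
    intro f hf i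
    rw [hAdef, Fintype.mem_piFinset] at hf
    exact hP _ (hf i)
  have hmaps : ∀ f ∈ A, pr f ∈ A.image pr := fun f hf => Finset.mem_image_of_mem _ hf
  have hpow : ∀ t : ℝ, (∑ p ∈ P, (c p : ℂ) * X t p) ^ k =
      ∑ n ∈ A.image pr, (b n : ℂ) * X t n := by
    intro t
    have e1 : (∑ p ∈ P, (c p : ℂ) * X t p) ^ k =
        ∏ _i : Fin k, ∑ p ∈ P, (c p : ℂ) * X t p := by
      rw [Finset.prod_const, Finset.card_univ, Fintype.card_fin]
    rw [e1, Finset.prod_univ_sum]
    have e2 : ∀ f ∈ A, ∏ i, ((c (f i) : ℂ) * X t (f i)) = (w f : ℂ) * X t (pr f) := by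
      intro f hf
      rw [Finset.prod_mul_distrib, hprdef, h52_X_prod]
      · simp only [hwdef]
        push_cast
        rfl
      · intro i _
        exact (hA f hf i).1.ne_zero
    rw [← hAdef, Finset.sum_congr rfl e2, ← Finset.sum_fiberwise_of_maps_to hmaps]
    apply Finset.sum_congr rfl
    intro n _
    simp only [hbdef]
    rw [Complex.ofReal_sum, Finset.sum_mul]
    apply Finset.sum_congr rfl
    intro f hf
    rw [Finset.mem_filter] at hf
    rw [hf.2]
  have hint : (∫ t in T1..T2, ‖∑ p ∈ P, (c p : ℂ) * X t p‖ ^ (2 * k)) =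
      ∫ t in T1..T2, ‖∑ n ∈ A.image pr, (b n : ℂ) * X t n‖ ^ 2 := by
    apply intervalIntegral.integral_congr
    intro t _
    simp only
    rw [← hpow t, norm_pow, ← pow_mul, mul_comm k 2]
  rw [hint]
  have hS : ∀ n ∈ A.image pr, 1 ≤ n ∧ n ≤ Y ^ k := by
    intro n hn
    rw [Finset.mem_image] at hn
    obtain ⟨f, hf, rfl⟩ := hn
    constructor
    · exact Finset.prod_pos fun i _ => (hA f hf i).1.pos
    · calc ∏ i, f i ≤ ∏ _i : Fin k, Y := Finset.prod_le_prod' fun i _ => (hA f hf i).2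
        _ = Y ^ k := by rw [Finset.prod_const, Finset.card_univ, Fintype.card_fin]
  refine (h1 (A.image pr) (Y ^ k) (fun n => (b n : ℂ)) T1 T2 hS hT).trans ?_
  have hlog : (0 : ℝ) ≤ 1 + Real.log ((Y ^ k : ℕ) : ℝ) := by
    have := Real.log_natCast_nonneg (Y ^ k)
    linarith
  set B : ℝ := (T2 - T1) + 6 * (Y : ℝ) ^ k * (1 + Real.log ((Y : ℝ) ^ k)) with hB
  have hB0 : 0 ≤ B := by
    have : (0 : ℝ) ≤ 1 + Real.log ((Y : ℝ) ^ k) := by
      have h2 := hlog
      push_cast at h2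
      exact h2
    have h3 : 0 ≤ T2 - T1 := by linarith
    positivity
  have hterm : ∀ n ∈ A.image pr,
      ‖(b n : ℂ)‖ ^ 2 * ((T2 - T1) + 6 * n * (1 + Real.log ((Y ^ k : ℕ) : ℝ))) ≤
      B * (k ! * ∑ f ∈ A.filter (fun f => pr f = n), w f ^ 2) := by
    intro n hn
    have h2 : ‖(b n : ℂ)‖ ^ 2 = b n ^ 2 := by
      rw [Complex.norm_real, Real.norm_eq_abs, sq_abs]
    have h3 : b n ^ 2 ≤ k ! * ∑ f ∈ A.filter (fun f => pr f = n), w f ^ 2 := by
      refine (sq_sum_le_card_mul_sum_sq (s := A.filter (fun f => pr f = n)) (f := w)).trans ?_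
      apply mul_le_mul_of_nonneg_right _ (Finset.sum_nonneg fun f _ => sq_nonneg _)
      exact_mod_cast h52_fiber A (fun f hf i => (hA f hf i).1) n
    have h4 : (T2 - T1) + 6 * n * (1 + Real.log ((Y ^ k : ℕ) : ℝ)) ≤ B := by
      rw [hB]
      have h5 : (n : ℝ) ≤ (Y : ℝ) ^ k := by exact_mod_cast (hS n hn).2
      have h6 : 6 * (n : ℝ) * (1 + Real.log ((Y ^ k : ℕ) : ℝ)) ≤
          6 * (Y : ℝ) ^ k * (1 + Real.log ((Y ^ k : ℕ) : ℝ)) :=
        mul_le_mul_of_nonneg_right (by linarith) hlog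
      push_cast at h6 ⊢
      linarith
    rw [h2]
    calc b n ^ 2 * ((T2 - T1) + 6 * n * (1 + Real.log ((Y ^ k : ℕ) : ℝ)))
        ≤ b n ^ 2 * B := mul_le_mul_of_nonneg_left h4 (sq_nonneg _)
      _ = B * b n ^ 2 := mul_comm _ _
      _ ≤ _ := mul_le_mul_of_nonneg_left h3 hB0
  refine (Finset.sum_le_sum hterm).trans (le_of_eq ?_)
  rw [← Finset.mul_sum, ← Finset.mul_sum, Finset.sum_fiberwise_of_maps_to hmaps]
  congr 2
  have e3 : (∑ p ∈ P, c p ^ 2) ^ k = ∏ _i : Fin k, ∑ p ∈ P, c p ^ 2 := by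
    rw [Finset.prod_const, Finset.card_univ, Fintype.card_fin]
  rw [e3, Finset.prod_univ_sum, ← hAdef]
  apply Finset.sum_congr rfl
  intro f _
  simp only [hwdef]
  rw [Finset.prod_pow]

end Pool.Agent.Lib.MP_774a5f_nt.LD
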