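import Pool.Agent.Lib.MP_774a5f_nt.LD.Base81

/-!
# Module M6: the primes between `(log T)^32` and `√T`
-/

namespace Pool.Agent.Lib.MP_774a5f_nt.LD

open MeasureTheory Complex Set
open ArithmeticFunction (vonMangoldt)
open scoped ComplexConjugate Nat

namespace M6

lemma Pri_split {a b c : ℕ} (hbc : b ≤ c) (f : ℕ → ℂ) :
    ∑ p ∈ Pri a c, f p = ∑ p ∈ Pri (max a b) c, f p + ∑ p ∈ Pri a b, f p := by
  have : Pri a c = Pri (max a b) c ∪ Pri a b := by
    ext p
    simp only [mem_Pri, Finset.mem_union]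
    constructor
    · rintro ⟨h1, h2, h3⟩
      by_cases h : p ≤ b
      · right; exact ⟨h1, h, h3⟩
      · left; exact ⟨max_lt h1 (not_le.1 h), h2, h3⟩
    · rintro (⟨h1, h2, h3⟩ | ⟨h1, h2, h3⟩)
      · exact ⟨lt_of_le_of_lt (le_max_left _ _) h1, h2, h3⟩
      · exact ⟨h1, h2.trans hbc, h3⟩
  rw [this, Finset.sum_union]
  rw [Finset.disjoint_left]
  intro p hp hq
  rw [mem_Pri] at hp hq
  have := lt_of_le_of_lt (le_max_right a b) hp.1
  omega

lemma telescope (Y0 : ℕ) (n : ℕ → ℕ) (hn : ∀ i, n (i + 1) ≤ n i) (f : ℕ → ℂ) (m : ℕ) :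
    ∑ p ∈ Pri Y0 (n 0), f p =
      (∑ i ∈ Finset.range m, ∑ p ∈ Pri (max Y0 (n (i + 1))) (n i), f p) +
        ∑ p ∈ Pri Y0 (n m), f p := by
  induction m with
  | zero => simp
  | succ m ih => rw [ih, Finset.sum_range_succ, Pri_split (hn m), add_assoc]

/-- the levels `⌊exp (L/2^(i+1))⌋` -/
noncomputable def lev (L : ℝ) (i : ℕ) : ℕ := ⌊Real.exp (L / 2 ^ (i + 1))⌋₊

lemma lev_anti {L : ℝ} (hL : 0 ≤ L) (i : ℕ) : lev L (i + 1) ≤ lev L i := by
  apply Nat.floor_mono
  apply Real.exp_le_exp.2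
  apply div_le_div_of_nonneg_left hL (by positivity)
  exact pow_le_pow_right₀ (by norm_num) (by omega)

lemma lev_pow {L : ℝ} (i : ℕ) : (lev L i : ℝ) ^ (2 ^ i) ≤ Real.exp (L / 2) := by
  have h1 : (lev L i : ℝ) ≤ Real.exp (L / 2 ^ (i + 1)) := Nat.floor_le (Real.exp_pos _).le
  calc (lev L i : ℝ) ^ (2 ^ i) ≤ Real.exp (L / 2 ^ (i + 1)) ^ (2 ^ i) :=
        pow_le_pow_left₀ (Nat.cast_nonneg _) h1 _
    _ = Real.exp (L / 2) := by
        rw [← Real.exp_nat_mul]
        congr 1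
        push_cast
        field_simp
        ring

lemma one_le_lev {L : ℝ} (hL : 0 ≤ L) (i : ℕ) : 1 ≤ lev L i := by
  apply Nat.le_floor
  rw [Nat.cast_one]
  exact Real.one_le_exp (by positivity)

lemma half_le_lev {L : ℝ} (hL : 0 ≤ L) (i : ℕ) :
    Real.exp (L / 2 ^ (i + 1)) / 2 ≤ lev L i := by
  have h1 : (1 : ℝ) ≤ lev L i := by exact_mod_cast one_le_lev hL i
  have h2 : Real.exp (L / 2 ^ (i + 1)) < lev L i + 1 := Nat.lt_floor_add_one _
  linarith

/-- one level -/
lemma level {K : ℝ} (hK : 0 < K)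
    (h4 : ∀ y Y : ℕ, 1 ≤ y → ∑ p ∈ Pri y Y, cp p ^ 2 ≤ K / √y) (h5 : St5)
    {L : ℝ} (hL : 25600 ≤ L) (hKL : 8 * K ≤ L) (Y0 i : ℕ)
    (hi : (2 : ℝ) ^ i ≤ L / (64 * Real.log L)) :
    volume {t : ℝ | t ∈ Icc (Real.exp L) (2 * Real.exp L) ∧
      (1 / (2 * 2 ^ i : ℝ)) ≤
        ‖∑ p ∈ Pri (max Y0 (lev L (i + 1))) (lev L i), (cp p : ℂ) * X t p‖} ≤
      ENNReal.ofReal (2 * Real.exp (15 / 16 * L)) := by
  have hL0 : 0 < L := by linarith
  have hlogL : 1 ≤ Real.log L := by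
    rw [Real.le_log_iff_exp_le hL0]
    have := Real.exp_one_lt_d9
    linarith
  set k : ℕ := 2 ^ i with hk
  have hk1 : 1 ≤ k := Nat.one_le_two_pow
  have hkR : ((k : ℕ) : ℝ) = 2 ^ i := by rw [hk]; push_cast; rfl
  have hk1R : (1 : ℝ) ≤ k := by exact_mod_cast hk1
  have hk0R : (0 : ℝ) < k := by linarith
  set y : ℕ := max Y0 (lev L (i + 1)) with hy
  have hy1 : 1 ≤ y := (one_le_lev hL0.le _).trans (le_max_right _ _)
  set P : ℝ → ℂ := fun t => ∑ p ∈ Pri y (lev L i), (cp p : ℂ) * X t p with hP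
  have hPc : Continuous P := by
    rw [hP]
    exact continuous_finsetSum _ fun p _ => continuous_const.mul (continuous_X p)
  have hEx : 0 < Real.exp L := Real.exp_pos L
  -- the moment
  have hmom : ∫ t in Real.exp L..2 * Real.exp L, ‖P t‖ ^ (2 * k) ≤
      2 * Real.exp L * ((k : ℝ) ^ k * ((2 * K) ^ k * Real.exp (-(L / 8)))) := by
    have h := h5 (Pri y (lev L i)) cp (lev L i) k (Real.exp L) (2 * Real.exp L)
      (fun p hp => ⟨(mem_Pri.1 hp).2.2, (mem_Pri.1 hp).2.1⟩) hk1 (by linarith)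
    refine h.trans ?_
    have hp1 : (1 : ℝ) ≤ (lev L i : ℝ) ^ k := by
      apply one_le_pow₀
      exact_mod_cast one_le_lev hL0.le i
    have hp2 : (lev L i : ℝ) ^ k ≤ Real.exp (L / 2) := lev_pow i
    have hlog : Real.log ((lev L i : ℝ) ^ k) ≤ L / 2 := by
      rw [← Real.log_exp (L / 2)]
      exact Real.log_le_log (by linarith) hp2
    have hlog0 : 0 ≤ Real.log ((lev L i : ℝ) ^ k) := Real.log_nonneg hp1
    have hq : 1 + L / 2 + (L / 2) ^ 2 / 2 ≤ Real.exp (L / 2) :=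
      Real.quadratic_le_exp_of_nonneg (by positivity)
    have hee : Real.exp L = Real.exp (L / 2) * Real.exp (L / 2) := by
      rw [← Real.exp_add]
      congr 1
      ring
    have hf1 : (2 * Real.exp L - Real.exp L) + 6 * (lev L i : ℝ) ^ k *
        (1 + Real.log ((lev L i : ℝ) ^ k)) ≤ 2 * Real.exp L := by
      have h1 : 6 * (lev L i : ℝ) ^ k * (1 + Real.log ((lev L i : ℝ) ^ k)) ≤
          6 * Real.exp (L / 2) * (1 + L / 2) := by
        apply mul_le_mul (by linarith) (by linarith) (by linarith) (by positivity)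
      have h2 : 6 * (1 + L / 2) ≤ Real.exp (L / 2) := by nlinarith
      have h3 : 6 * Real.exp (L / 2) * (1 + L / 2) ≤ Real.exp L := by
        rw [hee]
        nlinarith [Real.exp_pos (L / 2)]
      linarith
    have hS : ∑ p ∈ Pri y (lev L i), cp p ^ 2 ≤ 2 * K * Real.exp (-(L / 2 ^ (i + 3))) := by
      refine (h4 y (lev L i) hy1).trans ?_
      have h1 : Real.exp (L / 2 ^ (i + 3)) / 2 ≤ √(y : ℝ) := by
        apply Real.le_sqrt_of_sq_le
        have h2 : (lev L (i + 1) : ℝ) ≤ y := by exact_mod_cast le_max_right _ _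
        have h3 := half_le_lev hL0.le (i + 1)
        have h4 : Real.exp (L / 2 ^ (i + 3)) ^ 2 = Real.exp (L / 2 ^ (i + 1 + 1)) := by
          rw [← Real.exp_nat_mul]
          congr 1
          push_cast
          rw [show i + 3 = (i + 1 + 1) + 1 by ring, pow_succ]
          field_simp
        have h5 : (Real.exp (L / 2 ^ (i + 3)) / 2) ^ 2 = Real.exp (L / 2 ^ (i + 1 + 1)) / 4 := by
          rw [div_pow, h4]
          norm_num
        rw [h5]
        have := Real.exp_pos (L / 2 ^ (i + 1 + 1))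
        linarith
      have h2 : 0 < Real.exp (L / 2 ^ (i + 3)) := Real.exp_pos _
      calc K / √(y : ℝ) ≤ K / (Real.exp (L / 2 ^ (i + 3)) / 2) :=
            div_le_div_of_nonneg_left hK.le (by positivity) h1
        _ = 2 * K * Real.exp (-(L / 2 ^ (i + 3))) := by
            rw [Real.exp_neg]
            field_simp
    have hS0 : 0 ≤ ∑ p ∈ Pri y (lev L i), cp p ^ 2 := Finset.sum_nonneg fun p _ => sq_nonneg _
    have hSk : (∑ p ∈ Pri y (lev L i), cp p ^ 2) ^ k ≤ (2 * K) ^ k * Real.exp (-(L / 8)) := by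
      refine (pow_le_pow_left₀ hS0 hS k).trans (le_of_eq ?_)
      rw [mul_pow, ← Real.exp_nat_mul]
      congr 2
      rw [hkR, pow_add]
      field_simp
      norm_num
    have hfac : ((k ! : ℕ) : ℝ) ≤ (k : ℝ) ^ k := by exact_mod_cast Nat.factorial_le_pow k
    apply mul_le_mul hf1 _ (by positivity) (by positivity)
    apply mul_le_mul hfac hSk (by positivity) (by positivity)
  -- Markov
  have hFc : Continuous fun t => ‖P t‖ ^ (2 * k) := (hPc.norm).pow _
  have hδ : (0 : ℝ) < (1 / (2 * k : ℝ)) ^ (2 * k) := by positivity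
  have hM := markov hFc (fun t => by positivity) (a := Real.exp L) (b := 2 * Real.exp L)
    (by linarith) hδ
  have hsub : {t : ℝ | t ∈ Icc (Real.exp L) (2 * Real.exp L) ∧
      (1 / (2 * 2 ^ i : ℝ)) ≤ ‖P t‖} ⊆
      {t : ℝ | t ∈ Icc (Real.exp L) (2 * Real.exp L) ∧
        (1 / (2 * k : ℝ)) ^ (2 * k) ≤ ‖P t‖ ^ (2 * k)} := by
    rintro t ⟨h1, h2⟩
    refine ⟨h1, ?_⟩
    rw [← hkR] at h2
    exact pow_le_pow_left₀ (by positivity) h2 _
  refine (measure_mono hsub).trans (hM.trans ?_)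
  apply ENNReal.ofReal_le_ofReal
  rw [div_le_iff₀ hδ]
  refine hmom.trans ?_
  -- the final inequality
  have hkL : (k : ℝ) ≤ L := by
    rw [hkR]
    refine hi.trans ?_
    rw [div_le_iff₀ (by positivity)]
    nlinarith
  have hlogk : Real.log k ≤ Real.log L := Real.log_le_log hk0R hkL
  have hlog8K : Real.log (8 * K) ≤ Real.log L := Real.log_le_log (by positivity) hKL
  have hmain : (8 * K * (k : ℝ) ^ 3) ^ k ≤ Real.exp (L / 16) := by
    have h1 : 8 * K * (k : ℝ) ^ 3 ≤ Real.exp (4 * Real.log L) := by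
      have : Real.exp (4 * Real.log L) = L * L ^ 3 := by
        rw [show (4 : ℝ) * Real.log L = ((4 : ℕ) : ℝ) * Real.log L by norm_num, Real.exp_nat_mul,
          Real.exp_log hL0]
        ring
      rw [this]
      apply mul_le_mul hKL _ (by positivity) hL0.le
      exact pow_le_pow_left₀ hk0R.le hkL 3
    calc (8 * K * (k : ℝ) ^ 3) ^ k ≤ Real.exp (4 * Real.log L) ^ k :=
          pow_le_pow_left₀ (by positivity) h1 k
      _ = Real.exp (k * (4 * Real.log L)) := by rw [← Real.exp_nat_mul]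
      _ ≤ Real.exp (L / 16) := by
          apply Real.exp_le_exp.2
          rw [hkR]
          rw [le_div_iff₀ (by positivity)] at hi
          linarith
  have e1 : 2 * Real.exp L * ((k : ℝ) ^ k * ((2 * K) ^ k * Real.exp (-(L / 8)))) =
      2 * (Real.exp L * Real.exp (-(L / 8))) * (8 * K * (k : ℝ) ^ 3) ^ k *
        (1 / (2 * k : ℝ)) ^ (2 * k) := by
    have h1 : (1 / (2 * k : ℝ)) ^ (2 * k) = ((1 / (2 * k : ℝ)) ^ 2) ^ k := by rw [pow_mul]
    have h2 : (k : ℝ) ^ k * (2 * K) ^ k = (8 * K * (k : ℝ) ^ 3) ^ k * ((1 / (2 * k : ℝ)) ^ 2) ^ k := by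
      rw [← mul_pow, ← mul_pow]
      congr 1
      field_simp
      ring
    rw [h1]
    calc 2 * Real.exp L * ((k : ℝ) ^ k * ((2 * K) ^ k * Real.exp (-(L / 8))))
        = 2 * (Real.exp L * Real.exp (-(L / 8))) * ((k : ℝ) ^ k * (2 * K) ^ k) := by ring
      _ = _ := by rw [h2]; ring
  rw [e1]
  apply mul_le_mul_of_nonneg_right _ hδ.le
  have e2 : Real.exp (15 / 16 * L) = (Real.exp L * Real.exp (-(L / 8))) * Real.exp (L / 16) := by
    rw [← Real.exp_add, ← Real.exp_add]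
    congr 1
    ring
  rw [e2]
  calc 2 * (Real.exp L * Real.exp (-(L / 8))) * (8 * K * (k : ℝ) ^ 3) ^ k
      ≤ 2 * (Real.exp L * Real.exp (-(L / 8))) * Real.exp (L / 16) :=
        mul_le_mul_of_nonneg_left hmain (by positivity)
    _ = 2 * (Real.exp L * Real.exp (-(L / 8)) * Real.exp (L / 16)) := by ring

end M6

/-- Module M6. -/
theorem st6 (h4 : St4) (h5 : St5) : St6 := by
  obtain ⟨K, hK, -, h4'⟩ := h4
  refine ⟨Real.exp (max 25600 (8 * K)), ?_, ?_⟩
  · have h1 : (25600 : ℝ) ≤ max 25600 (8 * K) := le_max_left _ _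
    have h2 := Real.add_one_le_exp (max 25600 (8 * K))
    linarith
  intro T hT
  have hTpos : 0 < T := lt_of_lt_of_le (Real.exp_pos _) hT
  set L : ℝ := Real.log T with hLdef
  have hTL : T = Real.exp L := (Real.exp_log hTpos).symm
  have hL' : max 25600 (8 * K) ≤ L := by
    rw [hLdef, Real.le_log_iff_exp_le hTpos]
    exact hT
  have hL : 25600 ≤ L := (le_max_left _ _).trans hL'
  have hKL : 8 * K ≤ L := (le_max_right _ _).trans hL'
  have hL0 : 0 < L := by linarith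
  have hlogL : 1 ≤ Real.log L := by
    rw [Real.le_log_iff_exp_le hL0]
    have := Real.exp_one_lt_d9
    linarith
  set A : ℝ := L / (64 * Real.log L) with hA
  have hA0 : 0 < A := by positivity
  -- number of levels
  have hex : ∃ m : ℕ, A < (2 : ℝ) ^ m := pow_unbounded_of_one_lt A (by norm_num)
  classical
  set m := Nat.find hex with hm
  have hmA : A < (2 : ℝ) ^ m := Nat.find_spec hex
  have hmin : ∀ i, i < m → (2 : ℝ) ^ i ≤ A := fun i hi => not_lt.1 (Nat.find_min hex hi)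
  have hmL : (m : ℝ) ≤ L := by
    rcases Nat.eq_zero_or_pos m with h0 | hpos
    · rw [h0]; simpa using hL0.le
    · have h1 := hmin (m - 1) (by omega)
      have h2 : (m : ℝ) ≤ 2 * (2 : ℝ) ^ (m - 1) := by
        have h3 : m < 2 ^ m := Nat.lt_two_pow_self
        have h4 : (2 : ℕ) ^ m = 2 * 2 ^ (m - 1) := by
          conv_lhs => rw [show m = (m - 1) + 1 by omega, pow_succ]
          ring
        have h5 : m ≤ 2 * 2 ^ (m - 1) := by omega
        exact_mod_cast h5
      have h3 : A ≤ L / 64 := by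
        rw [hA]
        apply div_le_div_of_nonneg_left hL0.le (by norm_num)
        linarith
      linarith
  set Y0 : ℕ := ⌊L ^ 32⌋₊ with hY0
  have hlevm : M6.lev L m ≤ Y0 := by
    apply Nat.floor_mono
    have h1 : L / 2 ^ (m + 1) ≤ 32 * Real.log L := by
      rw [div_le_iff₀ (by positivity)]
      have h2 : A * (64 * Real.log L) = L := by
        rw [hA]
        field_simp
      have h3 : A * (64 * Real.log L) ≤ 2 ^ m * (64 * Real.log L) :=
        mul_le_mul_of_nonneg_right hmA.le (by positivity)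
      rw [pow_succ]
      linarith
    calc Real.exp (L / 2 ^ (m + 1)) ≤ Real.exp (32 * Real.log L) := Real.exp_le_exp.2 h1
      _ = L ^ 32 := by
        rw [show (32 : ℝ) * Real.log L = ((32 : ℕ) : ℝ) * Real.log L by norm_num,
          Real.exp_nat_mul, Real.exp_log hL0]
  have hsqrt : ⌊√T⌋₊ = M6.lev L 0 := by
    unfold M6.lev
    congr 1
    rw [hTL, zero_add, pow_one, Real.sqrt_eq_rpow, ← Real.exp_mul]
    congr 1
    ring
  -- decomposition
  have hdec : ∀ t : ℝ, ∑ p ∈ Pri Y0 ⌊√T⌋₊, (cp p : ℂ) * X t p =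
      ∑ i ∈ Finset.range m, ∑ p ∈ Pri (max Y0 (M6.lev L (i + 1))) (M6.lev L i),
        (cp p : ℂ) * X t p := by
    intro t
    rw [hsqrt, M6.telescope Y0 (M6.lev L) (M6.lev_anti hL0.le) _ m]
    have : Pri Y0 (M6.lev L m) = ∅ := by
      apply Finset.eq_empty_of_forall_notMem
      intro p hp
      rw [mem_Pri] at hp
      omega
    rw [this, Finset.sum_empty, add_zero]
  have hgeom : ∀ m : ℕ, ∑ i ∈ Finset.range m, (1 / (2 * 2 ^ i : ℝ)) ≤ 1 := by
    intro m
    have h1 : ∀ m : ℕ, ∑ i ∈ Finset.range m, (1 / (2 * 2 ^ i : ℝ)) = 1 - 1 / 2 ^ m := by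
      intro m
      induction m with
      | zero => simp
      | succ m ih =>
        rw [Finset.sum_range_succ, ih, pow_succ]
        field_simp
        ring
    rw [h1]
    have : (0 : ℝ) < 1 / 2 ^ m := by positivity
    linarith
  have hsub : {t : ℝ | t ∈ Icc T (2 * T) ∧
      1 < ‖∑ p ∈ Pri Y0 ⌊√T⌋₊, (cp p : ℂ) * X t p‖} ⊆
      ⋃ i ∈ Finset.range m, {t : ℝ | t ∈ Icc (Real.exp L) (2 * Real.exp L) ∧
      (1 / (2 * 2 ^ i : ℝ)) ≤
        ‖∑ p ∈ Pri (max Y0 (M6.lev L (i + 1))) (M6.lev L i), (cp p : ℂ) * X t p‖} := by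
    rintro t ⟨h1, h2⟩
    rw [← hTL]
    by_contra hcon
    simp only [mem_iUnion, mem_ofPred_eq, not_exists, not_and, not_le] at hcon
    rw [hdec t] at h2
    have h3 : ‖∑ i ∈ Finset.range m, ∑ p ∈ Pri (max Y0 (M6.lev L (i + 1))) (M6.lev L i),
        (cp p : ℂ) * X t p‖ ≤ ∑ i ∈ Finset.range m, (1 / (2 * 2 ^ i : ℝ)) :=
      norm_sum_le_of_le _ fun i hi => (hcon i hi h1).le
    linarith [hgeom m]
  refine (measure_mono hsub).trans ((measure_biUnion_finset_le _ _).trans ?_)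
  calc ∑ i ∈ Finset.range m, volume {t : ℝ | t ∈ Icc (Real.exp L) (2 * Real.exp L) ∧
      (1 / (2 * 2 ^ i : ℝ)) ≤
        ‖∑ p ∈ Pri (max Y0 (M6.lev L (i + 1))) (M6.lev L i), (cp p : ℂ) * X t p‖}
      ≤ ∑ i ∈ Finset.range m, ENNReal.ofReal (2 * Real.exp (15 / 16 * L)) :=
        Finset.sum_le_sum fun i hi => M6.level hK h4' h5 hL hKL Y0 i
          (hmin i (Finset.mem_range.1 hi))
    _ = ENNReal.ofReal (m * (2 * Real.exp (15 / 16 * L))) := by
        rw [Finset.sum_const, Finset.card_range, nsmul_eq_mul,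
          ENNReal.ofReal_mul (Nat.cast_nonneg m), ENNReal.ofReal_natCast]
    _ ≤ ENNReal.ofReal (T ^ (19 / 20 : ℝ)) := by
        apply ENNReal.ofReal_le_ofReal
        have h1 : T ^ (19 / 20 : ℝ) = Real.exp (15 / 16 * L) * Real.exp (L / 80) := by
          rw [hTL, ← Real.exp_mul, ← Real.exp_add]
          congr 1
          ring
        have hq : 1 + L / 80 + (L / 80) ^ 2 / 2 ≤ Real.exp (L / 80) :=
          Real.quadratic_le_exp_of_nonneg (by positivity)
        have h2 : 2 * L ≤ Real.exp (L / 80) := by nlinarith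
        rw [h1]
        have h3 : 0 < Real.exp (15 / 16 * L) := Real.exp_pos _
        have h4 : (m : ℝ) * 2 ≤ Real.exp (L / 80) := by linarith
        calc (m : ℝ) * (2 * Real.exp (15 / 16 * L)) = Real.exp (15 / 16 * L) * (m * 2) := by ring
          _ ≤ _ := mul_le_mul_of_nonneg_left h4 h3.le

end Pool.Agent.Lib.MP_774a5f_nt.LD
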