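import Pool.Agent.Lib.MP_774a5f_nt.LD.Upper95

/-!
# Module M7: Theorem B
-/

namespace Pool.Agent.Lib.MP_774a5f_nt.LD

open MeasureTheory Complex Set
open ArithmeticFunction (vonMangoldt)
open scoped ComplexConjugate Nat

/-- Module M7. -/
theorem stB (h3 : St3) (h4 : St4) (h5 : St5) (h6 : St6) : StB := by
  obtain ⟨T3, hT3, h3'⟩ := h3
  obtain ⟨K, hK, h4', -⟩ := h4
  obtain ⟨T6, hT6, h6'⟩ := h6
  obtain ⟨C3, hC3, hstar⟩ := Upper.star
  obtain ⟨T7, hT7, h7⟩ := Upper.large
  -- constants
  set K' : ℝ := max K 128 with hK'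
  have hK'K : K ≤ K' := le_max_left _ _
  have hK'128 : 128 ≤ K' := le_max_right _ _
  have hK'0 : 0 < K' := by linarith
  set a : ℝ := Real.exp (-C3 - 1) / 2 with ha
  have ha0 : 0 < a := by positivity
  set e2 : ℝ := Real.exp 2 with he2
  have he20 : 0 < e2 := Real.exp_pos _
  have he21 : 1 ≤ e2 := Real.one_le_exp (by norm_num)
  set c : ℝ := a / (2 * e2 * K') with hc
  have hc0 : 0 < c := by positivity
  set τ1 : ℝ := max (C3 + 3) (8 * e2 * K' / a) with hτ1
  set C : ℝ := max (max (Real.exp τ1) 20) (1 / (2 * c)) with hC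
  have hC20 : 20 ≤ C := (le_max_right _ _).trans (le_max_left _ _)
  have hCτ : Real.exp τ1 ≤ C := (le_max_left _ _).trans (le_max_left _ _)
  have hCc : 1 / (2 * c) ≤ C := le_max_right _ _
  have hC0 : 0 < C := by linarith
  refine ⟨C, max (max T3 T6) T7, by linarith, hT3.trans ((le_max_left _ _).trans (le_max_left _ _)),
    ?_⟩
  intro T τ hT hτ0 hτ
  have hTT3 : T3 ≤ T := ((le_max_left _ _).trans (le_max_left _ _)).trans hT
  have hTT6 : T6 ≤ T := ((le_max_right _ _).trans (le_max_left _ _)).trans hT
  have hTT7 : T7 ≤ T := (le_max_right _ _).trans hT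
  have hTe : Real.exp 48 ≤ T := hT7.trans hTT7
  have hTpos : 0 < T := lt_of_lt_of_le (Real.exp_pos _) hTe
  have hE1 := h3' T hTT3
  have hE2 := h6' T hTT6
  have hlarge := h7 T hTT7
  set L : ℝ := Real.log T with hLdef
  have hTL : T = Real.exp L := (Real.exp_log hTpos).symm
  have hL : 48 ≤ L := by
    rw [hLdef, Real.le_log_iff_exp_le hTpos]
    exact hTe
  have hL0 : 0 < L := by linarith
  have hlogL : 1 ≤ Real.log L := by
    rw [Real.le_log_iff_exp_le hL0]
    have := Real.exp_one_lt_d9
    linarith
  have heτ : Real.exp τ ≤ L := by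
    rw [← Real.le_log_iff_exp_le hL0]
    exact hτ
  have hτ1' : 0 < 1 + τ := by linarith
  rcases lt_or_ge τ τ1 with hlt | hge
  · -- trivial range
    have h1 : volume {t : ℝ | t ∈ Icc T (2 * T) ∧ τ ≤ ‖Z t‖} ≤ ENNReal.ofReal T := by
      refine (measure_mono (fun t ht => ht.1 : _ ⊆ Icc T (2 * T))).trans ?_
      rw [Real.volume_Icc]
      apply ENNReal.ofReal_le_ofReal
      linarith
    refine h1.trans (ENNReal.ofReal_le_ofReal ?_)
    have h2 : Real.exp τ / (C * (1 + τ)) ≤ 1 := by
      rw [div_le_one (by positivity)]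
      have h3 : Real.exp τ ≤ Real.exp τ1 := Real.exp_le_exp.2 hlt.le
      nlinarith
    have h3 : Real.exp (-1) ≤ Real.exp (-(Real.exp τ / (C * (1 + τ)))) :=
      Real.exp_le_exp.2 (by linarith)
    have h4 : 1 / 3 ≤ Real.exp (-1) := by
      rw [Real.exp_neg, ← one_div]
      apply one_div_le_one_div_of_le (Real.exp_pos _)
      have := Real.exp_one_lt_d9
      linarith
    have h5 : 1 ≤ C * Real.exp (-(Real.exp τ / (C * (1 + τ)))) := by nlinarith
    calc T = 1 * T := by ring
      _ ≤ (C * Real.exp (-(Real.exp τ / (C * (1 + τ))))) * T :=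
        mul_le_mul_of_nonneg_right h5 hTpos.le
      _ = _ := by ring
  · -- main range
    have hge1 : C3 + 3 ≤ τ := (le_max_left _ _).trans hge
    have hge2 : 8 * e2 * K' / a ≤ τ := (le_max_right _ _).trans hge
    set x : ℝ := Real.exp τ / (1 + τ) with hx
    have hx0 : 0 < x := by positivity
    have hxτ : τ / 4 ≤ x := by
      rw [hx, le_div_iff₀ hτ1']
      have h1 := Real.quadratic_le_exp_of_nonneg hτ0
      nlinarith
    have hxe : x ≤ Real.exp τ := by
      rw [hx]
      exact div_le_self (Real.exp_pos _).le (by linarith)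
    set E : ℝ := Real.exp (τ - C3 - 1) with hE
    have hE4 : 7 ≤ E := by
      have h1 : Real.exp 2 ≤ E := Real.exp_le_exp.2 (by linarith)
      have h2 : (7 : ℝ) ≤ Real.exp 2 := by
        have h3 := Real.exp_one_gt_d9
        have h4 : Real.exp 2 = Real.exp 1 * Real.exp 1 := by
          rw [← Real.exp_add]; norm_num
        rw [h4]
        nlinarith
      linarith
    set y0 : ℕ := ⌊E⌋₊ with hy0
    have hy0E : (y0 : ℝ) ≤ E := Nat.floor_le (Real.exp_pos _).le
    have hEy0 : E < y0 + 1 := Nat.lt_floor_add_one _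
    have hy06 : (6 : ℝ) < y0 := by linarith
    have hy00 : (0 : ℝ) < y0 := by linarith
    have hy0half : E / 2 ≤ y0 := by linarith
    have hy02 : 2 ≤ y0 := by
      have : (2 : ℝ) ≤ y0 := by linarith
      exact_mod_cast this
    have hEτ : E = 2 * a * Real.exp τ := by
      rw [hE, ha, show τ - C3 - 1 = (-C3 - 1) + τ by ring, Real.exp_add]
      ring
    have hEexp : E ≤ Real.exp τ := Real.exp_le_exp.2 (by linarith)
    have hy0L : (y0 : ℝ) ≤ L := hy0E.trans (hEexp.trans heτ)
    have hlogy0 : Real.log y0 ≤ τ - C3 - 1 := by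
      rw [← Real.log_exp (τ - C3 - 1)]
      exact Real.log_le_log hy00 hy0E
    have hlogy01 : 1 ≤ Real.log y0 := by
      rw [Real.le_log_iff_exp_le hy00]
      have := Real.exp_one_lt_d9
      linarith
    have hlogy00 : 0 < Real.log y0 := by linarith
    -- q = y0/log y0
    set q : ℝ := y0 / Real.log y0 with hq
    have hq0 : 0 < q := by positivity
    have hqx : a * x ≤ q := by
      rw [hq, le_div_iff₀ hlogy00]
      have h1 : a * x * Real.log y0 ≤ a * x * (1 + τ) :=
        mul_le_mul_of_nonneg_left (by linarith) (by positivity)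
      have h2 : a * x * (1 + τ) = a * Real.exp τ := by
        rw [hx]
        field_simp
      linarith
    have hqL : q ≤ L / Real.log L := by
      have he := Real.exp_one_lt_d9
      have hmy : Real.exp 1 ≤ (y0 : ℝ) := by linarith
      have hmL : Real.exp 1 ≤ L := by linarith
      have h1 : Real.log L / L ≤ Real.log y0 / y0 :=
        Real.log_div_self_antitoneOn hmy hmL hy0L
      rw [div_le_div_iff₀ hL0 hy00] at h1
      rw [hq, div_le_div_iff₀ hlogy00 (by linarith)]
      linarith
    set k : ℕ := ⌊q / (e2 * K')⌋₊ with hk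
    have hkle : (k : ℝ) ≤ q / (e2 * K') := Nat.floor_le (by positivity)
    have hq2 : 2 ≤ q / (e2 * K') := by
      rw [le_div_iff₀ (by positivity)]
      have h1 : 8 * e2 * K' / a * a ≤ τ * a := mul_le_mul_of_nonneg_right hge2 ha0.le
      rw [div_mul_cancel₀ _ ha0.ne'] at h1
      nlinarith
    have hkge : q / (e2 * K') / 2 ≤ k := by
      have := Nat.lt_floor_add_one (q / (e2 * K'))
      rw [← hk] at this
      linarith
    have hk1 : 1 ≤ k := by
      apply Nat.le_floor
      rw [Nat.cast_one]
      linarith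
    have hkL : (k : ℝ) ≤ L / (128 * Real.log L) := by
      refine hkle.trans ?_
      have h1 : q / (e2 * K') ≤ q / 128 := by
        apply div_le_div_of_nonneg_left hq0.le (by norm_num)
        calc (128 : ℝ) = 1 * 128 := by norm_num
          _ ≤ e2 * K' := mul_le_mul he21 hK'128 (by norm_num) he20.le
      have h2 : q / 128 ≤ (L / Real.log L) / 128 := by linarith
      have h3 : (L / Real.log L) / 128 = L / (128 * Real.log L) := by
        rw [div_div, mul_comm]
      linarith
    have hM := Upper.mom h4' h5 T hTe y0 k hy02 hk1 hkL one_pos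
    -- the base of the power
    have hbase : (k : ℝ) * (K * Real.log y0 / y0) / 1 ^ 2 ≤ Real.exp (-2) := by
      have h1 : K * Real.log y0 / y0 = K / q := by
        rw [hq]
        field_simp
      rw [h1, one_pow, div_one]
      calc (k : ℝ) * (K / q) ≤ q / (e2 * K') * (K' / q) := by
            apply mul_le_mul hkle _ (by positivity) (by positivity)
            exact div_le_div_of_nonneg_right hK'K hq0.le
        _ = Real.exp (-2) := by
            rw [Real.exp_neg, ← he2]
            field_simp
    have hbase0 : 0 ≤ (k : ℝ) * (K * Real.log y0 / y0) / 1 ^ 2 := by positivity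
    have hpow : ((k : ℝ) * (K * Real.log y0 / y0) / 1 ^ 2) ^ k ≤ Real.exp (-(x / C)) := by
      calc ((k : ℝ) * (K * Real.log y0 / y0) / 1 ^ 2) ^ k ≤ Real.exp (-2) ^ k :=
            pow_le_pow_left₀ hbase0 hbase k
        _ = Real.exp (k * (-2)) := by rw [← Real.exp_nat_mul]
        _ ≤ Real.exp (-(x / C)) := by
            apply Real.exp_le_exp.2
            have h1 : c * x ≤ k := by
              refine le_trans ?_ hkge
              rw [hc]
              have h2 : a / (2 * e2 * K') * x = a * x / (e2 * K') / 2 := by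
                field_simp
              rw [h2]
              apply div_le_div_of_nonneg_right _ (by norm_num)
              exact div_le_div_of_nonneg_right hqx (by positivity)
            have h2 : x / C ≤ 2 * (c * x) := by
              rw [div_le_iff₀ hC0]
              have h3 : 1 ≤ 2 * c * C := by
                rw [div_le_iff₀ (by positivity)] at hCc
                linarith
              nlinarith
            linarith
    -- the sets
    have hsub : {t : ℝ | t ∈ Icc T (2 * T) ∧ τ ≤ ‖Z t‖} ⊆
        {t : ℝ | t ∈ Icc T (2 * T) ∧ 1 ≤ ‖Upper.PP T y0 t‖} ∪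
          (Upper.E1 T ∪ Upper.E2 T) := by
      rintro t ⟨ht1, ht2⟩
      by_cases hA : t ∈ Upper.E1 T
      · right; left; exact hA
      by_cases hB : t ∈ Upper.E2 T
      · right; right; exact hB
      left
      refine ⟨ht1, ?_⟩
      have h1 := hstar T t y0 (by linarith) hlarge (by omega) (by
        apply Nat.floor_mono
        refine hEexp.trans (heτ.trans ?_)
        calc L = L ^ 1 := (pow_one L).symm
          _ ≤ L ^ 32 := pow_le_pow_right₀ (by linarith) (by norm_num)) ht1 hA hB
      linarith
    have hexpT : T ^ (19 / 20 : ℝ) ≤ T * Real.exp (-(x / C)) := by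
      rw [hTL, ← Real.exp_mul, ← Real.exp_add]
      apply Real.exp_le_exp.2
      have h1 : x / C ≤ L / 20 := by
        apply div_le_div₀ hL0.le (hxe.trans heτ) (by norm_num) hC20
      linarith
    have hexpT' : T ^ (9 / 10 : ℝ) ≤ T ^ (19 / 20 : ℝ) := by
      apply Real.rpow_le_rpow_of_exponent_le
      · rw [hTL]; exact Real.one_le_exp hL0.le
      · norm_num
    have hxC : Real.exp τ / (C * (1 + τ)) = x / C := by
      rw [hx, div_div, mul_comm]
    rw [hxC]
    refine (measure_mono hsub).trans ((measure_union_le _ _).trans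
      ((add_le_add hM ((measure_union_le _ _).trans (add_le_add hE1 hE2))).trans ?_))
    rw [← ENNReal.ofReal_add (by positivity) (by positivity),
      ← ENNReal.ofReal_add (by positivity) (by positivity)]
    apply ENNReal.ofReal_le_ofReal
    have h1 : 2 * T * ((k : ℝ) * (K * Real.log y0 / y0) / 1 ^ 2) ^ k ≤
        2 * T * Real.exp (-(x / C)) := mul_le_mul_of_nonneg_left hpow (by positivity)
    have h2 : 0 < T * Real.exp (-(x / C)) := by positivity
    have h3 : 4 * (T * Real.exp (-(x / C))) ≤ C * (T * Real.exp (-(x / C))) :=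
      mul_le_mul_of_nonneg_right (by linarith) h2.le
    nlinarith

end Pool.Agent.Lib.MP_774a5f_nt.LD
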