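import Pool.Agent.Lib.MP_774a5f_nt.LD.Upper95

/-!
# Module M8: Theorem C
-/

namespace Pool.Agent.Lib.MP_774a5f_nt.LD

open MeasureTheory Complex Set
open ArithmeticFunction (vonMangoldt)
open scoped ComplexConjugate Nat

namespace M8

lemma log_le_div {L : ℝ} (hL : 512 ^ 2 ≤ L) : 256 * Real.log L ≤ L := by
  have hL0 : 0 < L := by linarith
  have hs : 0 < √L := Real.sqrt_pos.2 hL0
  have h1 : Real.log (√L) ≤ √L - 1 := Real.log_le_sub_one_of_pos hs
  rw [Real.log_sqrt hL0.le] at h1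
  have h2 : (512 : ℝ) ≤ √L := Real.le_sqrt_of_sq_le hL
  have h3 : √L * √L = L := Real.mul_self_sqrt hL0.le
  nlinarith

/-- the base of the power -/
lemma base {K C3 L u : ℝ} (hK : 0 < K) (hL : 1 ≤ L) (hlogL : 1 ≤ Real.log L) (hu1 : 1 ≤ u)
    (hu2 : 4 * (C3 + K / 8) ≤ u) (hu : u ≤ Real.log L) (hC3 : 0 ≤ C3) {y k : ℝ} (_hk0 : 0 ≤ k)
    (hk : k ≤ L / (128 * Real.log L)) (hy : Real.exp (u / 2 - C3) * L / 2 ≤ y)
    (hy' : y ≤ Real.exp (u / 2 - C3) * L) (hy2 : 2 ≤ y) :
    k * (K * Real.log y / y) / (u / 2) ^ 2 ≤ Real.exp (-(u / 4)) := by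
  have hL0 : 0 < L := by linarith
  have hlL0 : 0 < Real.log L := by linarith
  have hy0 : 0 < y := by linarith
  have hE : 0 < Real.exp (u / 2 - C3) := Real.exp_pos _
  have hlogy : Real.log y ≤ 2 * Real.log L := by
    have h1 : Real.log y ≤ Real.log (Real.exp (u / 2 - C3) * L) := Real.log_le_log hy0 hy'
    rw [Real.log_mul hE.ne' hL0.ne', Real.log_exp] at h1
    linarith
  have hlogy0 : 0 ≤ Real.log y := Real.log_nonneg (by linarith)
  have h1 : K * Real.log y / y ≤ K * (2 * Real.log L) / (Real.exp (u / 2 - C3) * L / 2) := by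
    apply div_le_div₀ (by positivity) (mul_le_mul_of_nonneg_left hlogy hK.le) (by positivity) hy
  have h2 : k * (K * Real.log y / y) ≤
      L / (128 * Real.log L) * (K * (2 * Real.log L) / (Real.exp (u / 2 - C3) * L / 2)) :=
    mul_le_mul hk h1 (by positivity) (by positivity)
  have h3 : L / (128 * Real.log L) * (K * (2 * Real.log L) / (Real.exp (u / 2 - C3) * L / 2)) =
      K / 32 * Real.exp (-(u / 2 - C3)) := by
    rw [Real.exp_neg]
    field_simp
    norm_num
  have h4 : K / 8 ≤ Real.exp (K / 8) := by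
    have := Real.add_one_le_exp (K / 8)
    linarith
  have h5 : K / 8 * Real.exp (-(u / 2 - C3)) ≤ Real.exp (-(u / 4)) := by
    calc K / 8 * Real.exp (-(u / 2 - C3)) ≤ Real.exp (K / 8) * Real.exp (-(u / 2 - C3)) :=
          mul_le_mul_of_nonneg_right h4 (Real.exp_pos _).le
      _ = Real.exp (K / 8 + -(u / 2 - C3)) := by rw [← Real.exp_add]
      _ ≤ Real.exp (-(u / 4)) := Real.exp_le_exp.2 (by linarith)
  rw [div_le_iff₀ (by positivity)]
  have h6 : 0 < Real.exp (-(u / 4)) := Real.exp_pos _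
  have h7 : 1 ≤ u ^ 2 := one_le_pow₀ hu1
  calc k * (K * Real.log y / y) ≤ K / 32 * Real.exp (-(u / 2 - C3)) := h3 ▸ h2
    _ = (K / 8 * Real.exp (-(u / 2 - C3))) * (1 / 4) := by ring
    _ ≤ Real.exp (-(u / 4)) * (u ^ 2 / 4) :=
      mul_le_mul h5 (by linarith) (by norm_num) h6.le
    _ = Real.exp (-(u / 4)) * (u / 2) ^ 2 := by ring

/-- the main range -/
lemma main {K C3 : ℝ} (hK : 0 < K) (hC3 : 2 ≤ C3)
    (h4 : ∀ y Y : ℕ, 2 ≤ y → ∑ p ∈ Pri y Y, cp p ^ 2 ≤ K * Real.log y / y) (h5 : St5)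
    {T : ℝ} (hT : Real.exp (512 ^ 2) ≤ T) (hlarge : (Real.log T) ^ 32 ≤ √T)
    (hstar : ∀ (T t : ℝ) (y0 : ℕ), 1 ≤ Real.log T →
      (Real.log T) ^ 32 ≤ √T → 1 ≤ y0 → y0 ≤ ⌊(Real.log T) ^ 32⌋₊ → t ∈ Icc T (2 * T) →
      t ∉ Upper.E1 T → t ∉ Upper.E2 T → ‖Z t‖ ≤ Real.log y0 + C3 + ‖Upper.PP T y0 t‖)
    {u : ℝ} (_hu1 : 2 * C3 ≤ u) (hu2 : 4 * (C3 + K / 8) ≤ u)
    (hu : u ≤ Real.log (Real.log T)) :
    volume {t : ℝ | t ∈ Icc T (2 * T) ∧ Real.log (Real.log T) + u ≤ ‖Z t‖} ≤
      ENNReal.ofReal (2 * T * Real.exp (-(u * Real.log T / (1024 * Real.log (Real.log T))))) +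
        (volume (Upper.E1 T) + volume (Upper.E2 T)) := by
  have hTpos : 0 < T := lt_of_lt_of_le (Real.exp_pos _) hT
  set L : ℝ := Real.log T with hLdef
  have hL : 512 ^ 2 ≤ L := by
    rw [hLdef, Real.le_log_iff_exp_le hTpos]
    exact hT
  have hL0 : 0 < L := by linarith
  have hlogL : 1 ≤ Real.log L := by
    rw [Real.le_log_iff_exp_le hL0]
    have := Real.exp_one_lt_d9
    linarith
  have hlL0 : 0 < Real.log L := by linarith
  have h256 := log_le_div hL
  set E : ℝ := Real.exp (u / 2 - C3) * L with hE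
  have hEL : L ≤ E := by
    have : 1 ≤ Real.exp (u / 2 - C3) := Real.one_le_exp (by linarith)
    nlinarith
  have hEpos : 0 < E := by linarith
  set y0 : ℕ := ⌊E⌋₊ with hy0
  have hy0E : (y0 : ℝ) ≤ E := Nat.floor_le hEpos.le
  have hEy0 : E < y0 + 1 := Nat.lt_floor_add_one _
  have hy0half : E / 2 ≤ y0 := by linarith
  have hy02R : (2 : ℝ) ≤ y0 := by linarith
  have hy02 : 2 ≤ y0 := by exact_mod_cast hy02R
  have hy00 : (0 : ℝ) < y0 := by linarith
  have hlogy0 : Real.log y0 ≤ u / 2 - C3 + Real.log L := by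
    have h1 : Real.log y0 ≤ Real.log E := Real.log_le_log hy00 hy0E
    rwa [hE, Real.log_mul (Real.exp_pos _).ne' hL0.ne', Real.log_exp] at h1
  have hEL2 : E ≤ L ^ 2 := by
    have h1 : Real.exp (u / 2 - C3) ≤ L := by
      rw [← Real.le_log_iff_exp_le hL0]
      linarith
    rw [hE, sq]
    exact mul_le_mul_of_nonneg_right h1 hL0.le
  set k : ℕ := ⌊L / (128 * Real.log L)⌋₊ with hk
  have hq2 : 2 ≤ L / (128 * Real.log L) := by
    rw [le_div_iff₀ (by positivity)]
    linarith
  have hkle : (k : ℝ) ≤ L / (128 * Real.log L) := Nat.floor_le (by positivity)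
  have hk1 : 1 ≤ k := by
    apply Nat.le_floor
    rw [Nat.cast_one]
    linarith
  have hkge : L / (128 * Real.log L) / 2 ≤ k := by
    have := Nat.lt_floor_add_one (L / (128 * Real.log L))
    rw [← hk] at this
    linarith
  have hu0 : 4 ≤ u := by linarith
  have hM := Upper.mom h4 h5 T ((Real.exp_le_exp.2 (by norm_num)).trans hT) y0 k hy02 hk1 hkle
    (V := u / 2) (by linarith)
  have hbase := base hK (by linarith : (1 : ℝ) ≤ L) hlogL (by linarith) hu2 hu (by linarith)
    (Nat.cast_nonneg k) hkle hy0half hy0E hy02R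
  have hly0 : 0 ≤ Real.log y0 := Real.log_nonneg (by linarith)
  have hbase0 : 0 ≤ (k : ℝ) * (K * Real.log y0 / y0) / (u / 2) ^ 2 := by positivity
  have hpow : ((k : ℝ) * (K * Real.log y0 / y0) / (u / 2) ^ 2) ^ k ≤
      Real.exp (-(u * L / (1024 * Real.log L))) := by
    calc ((k : ℝ) * (K * Real.log y0 / y0) / (u / 2) ^ 2) ^ k ≤ Real.exp (-(u / 4)) ^ k :=
          pow_le_pow_left₀ hbase0 hbase k
      _ = Real.exp (k * (-(u / 4))) := by rw [← Real.exp_nat_mul]
      _ ≤ Real.exp (-(u * L / (1024 * Real.log L))) := by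
          apply Real.exp_le_exp.2
          have h1 : u * L / (1024 * Real.log L) = (u / 4) * (L / (128 * Real.log L) / 2) := by
            field_simp
            norm_num
          rw [h1]
          have h2 : (u / 4) * (L / (128 * Real.log L) / 2) ≤ (u / 4) * k :=
            mul_le_mul_of_nonneg_left hkge (by linarith)
          linarith
  have hsub : {t : ℝ | t ∈ Icc T (2 * T) ∧ Real.log L + u ≤ ‖Z t‖} ⊆
      {t : ℝ | t ∈ Icc T (2 * T) ∧ u / 2 ≤ ‖Upper.PP T y0 t‖} ∪
        (Upper.E1 T ∪ Upper.E2 T) := by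
    rintro t ⟨ht1, ht2⟩
    by_cases hA : t ∈ Upper.E1 T
    · right; left; exact hA
    by_cases hB : t ∈ Upper.E2 T
    · right; right; exact hB
    left
    refine ⟨ht1, ?_⟩
    have h1 := hstar T t y0 (by linarith) hlarge (by omega) (by
      apply Nat.floor_mono
      exact hEL2.trans (pow_le_pow_right₀ (by linarith) (by norm_num))) ht1 hA hB
    linarith
  refine (measure_mono hsub).trans ((measure_union_le _ _).trans
    (add_le_add (hM.trans (ENNReal.ofReal_le_ofReal ?_)) (measure_union_le _ _)))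
  exact mul_le_mul_of_nonneg_left hpow (by positivity)

end M8

/-- Module M8. -/
theorem stC (h3 : St3) (h4 : St4) (h5 : St5) (h6 : St6) (hB : StB) : StC := by
  obtain ⟨T3, hT3, h3'⟩ := h3
  obtain ⟨K, hK, h4', -⟩ := h4
  obtain ⟨T6, hT6, h6'⟩ := h6
  obtain ⟨CB, TB, hCB, hTB, hB'⟩ := hB
  obtain ⟨C3, hC3, hstar⟩ := Upper.star
  obtain ⟨T7, hT7, h7⟩ := Upper.large
  set u1 : ℝ := max (2 * C3) (4 * (C3 + K / 8)) with hu1
  have hu10 : 0 ≤ u1 := by
    have : 2 * C3 ≤ u1 := le_max_left _ _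
    linarith
  set C : ℝ := 1024 + CB + 2 * CB * u1 with hC
  have hCB0 : 0 < CB := by linarith
  have hC0 : 0 < C := by positivity
  have hC1024 : 1024 ≤ C := by
    have : 0 ≤ 2 * CB * u1 := by positivity
    linarith
  refine ⟨C, max (max (max T3 T6) (max T7 TB)) (Real.exp (512 ^ 2)), by linarith,
    hT3.trans ((le_max_left _ _).trans ((le_max_left _ _).trans (le_max_left _ _))), ?_⟩
  intro T u hT hu0 hu
  have hT1 := (le_max_left _ _).trans hT
  have hTe : Real.exp (512 ^ 2) ≤ T := (le_max_right _ _).trans hT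
  have hT2 := (le_max_left _ _).trans hT1
  have hT3' := (le_max_right _ _).trans hT1
  have hTT3 : T3 ≤ T := (le_max_left _ _).trans hT2
  have hTT6 : T6 ≤ T := (le_max_right _ _).trans hT2
  have hTT7 : T7 ≤ T := (le_max_left _ _).trans hT3'
  have hTTB : TB ≤ T := (le_max_right _ _).trans hT3'
  have hTpos : 0 < T := lt_of_lt_of_le (Real.exp_pos _) hTe
  have hlarge := h7 T hTT7
  have hE1 : volume (Upper.E1 T) ≤ ENNReal.ofReal (T ^ (9 / 10 : ℝ)) := h3' T hTT3
  have hE2 : volume (Upper.E2 T) ≤ ENNReal.ofReal (T ^ (19 / 20 : ℝ)) := h6' T hTT6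
  have hL : 512 ^ 2 ≤ Real.log T := by
    rw [Real.le_log_iff_exp_le hTpos]
    exact hTe
  have hL0 : 0 < Real.log T := by linarith
  have hlogL : 1 ≤ Real.log (Real.log T) := by
    rw [Real.le_log_iff_exp_le hL0]
    have := Real.exp_one_lt_d9
    linarith
  rcases lt_or_ge u u1 with hlt | hge
  · -- small `u`
    have h1 := hB' T (Real.log (Real.log T)) hTTB (by linarith) le_rfl
    have hsub : {t : ℝ | t ∈ Icc T (2 * T) ∧ Real.log (Real.log T) + u ≤ ‖Z t‖} ⊆
        {t : ℝ | t ∈ Icc T (2 * T) ∧ Real.log (Real.log T) ≤ ‖Z t‖} := by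
      rintro t ⟨ht1, ht2⟩
      exact ⟨ht1, by linarith⟩
    refine (measure_mono hsub).trans (h1.trans (ENNReal.ofReal_le_ofReal ?_))
    rw [Real.exp_log hL0]
    apply mul_le_mul (mul_le_mul_of_nonneg_right ?_ hTpos.le) (Real.exp_le_exp.2 ?_)
      (Real.exp_pos _).le (by positivity)
    · have : 0 ≤ 2 * CB * u1 := by positivity
      linarith
    · rw [neg_le_neg_iff]
      set L := Real.log T
      set ll := Real.log L
      have h2 : L / (CB * (2 * ll)) ≤ L / (CB * (1 + ll)) := by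
        apply div_le_div_of_nonneg_left hL0.le (by positivity)
        apply mul_le_mul_of_nonneg_left (by linarith) hCB0.le
      refine le_trans ?_ h2
      rw [div_le_div_iff₀ (by positivity) (by positivity)]
      have h3 : u * (2 * CB) ≤ C := by
        have : u * (2 * CB) ≤ u1 * (2 * CB) := mul_le_mul_of_nonneg_right hlt.le (by positivity)
        have : u1 * (2 * CB) = 2 * CB * u1 := by ring
        linarith
      calc u * L * (CB * (2 * ll)) = (u * (2 * CB)) * (L * ll) := by ring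
        _ ≤ C * (L * ll) := mul_le_mul_of_nonneg_right h3 (by positivity)
        _ = L * (C * ll) := by ring
  · have hm := M8.main hK hC3 h4' h5 hTe hlarge hstar ((le_max_left _ _).trans hge)
      ((le_max_right _ _).trans hge) hu
    refine hm.trans ?_
    set L := Real.log T
    set ll := Real.log L
    have hTL : T = Real.exp L := (Real.exp_log hTpos).symm
    have hx : u * L / (C * ll) ≤ L / 20 := by
      rw [div_le_div_iff₀ (by positivity) (by norm_num)]
      have h1 : u * 20 ≤ C * ll := by nlinarith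
      nlinarith
    have h2 : T ^ (19 / 20 : ℝ) ≤ T * Real.exp (-(u * L / (C * ll))) := by
      rw [hTL, ← Real.exp_mul, ← Real.exp_add]
      apply Real.exp_le_exp.2
      linarith
    have h2' : T ^ (9 / 10 : ℝ) ≤ T ^ (19 / 20 : ℝ) := by
      apply Real.rpow_le_rpow_of_exponent_le
      · rw [hTL]; exact Real.one_le_exp hL0.le
      · norm_num
    have h3 : 2 * T * Real.exp (-(u * L / (1024 * ll))) ≤
        2 * T * Real.exp (-(u * L / (C * ll))) := by
      apply mul_le_mul_of_nonneg_left (Real.exp_le_exp.2 _) (by positivity)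
      rw [neg_le_neg_iff]
      apply div_le_div_of_nonneg_left (by positivity) (by positivity)
      exact mul_le_mul_of_nonneg_right hC1024 (by linarith)
    refine (add_le_add le_rfl (add_le_add hE1 hE2)).trans ?_
    rw [← ENNReal.ofReal_add (by positivity) (by positivity),
      ← ENNReal.ofReal_add (by positivity) (by positivity)]
    apply ENNReal.ofReal_le_ofReal
    have h4 : 0 < T * Real.exp (-(u * L / (C * ll))) := by positivity
    have h5 : 4 * (T * Real.exp (-(u * L / (C * ll)))) ≤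
        C * (T * Real.exp (-(u * L / (C * ll)))) :=
      mul_le_mul_of_nonneg_right (by linarith) h4.le
    rw [mul_assoc] at h3 ⊢
    rw [mul_assoc 2 T, mul_assoc C T] at *
    linarith

end Pool.Agent.Lib.MP_774a5f_nt.LD
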