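import Pool.Agent.Lib.MP_774a5f_nt.LD.Base81

/-!
# Module M9: weighted mean values (Lemma 7)
-/

namespace Pool.Agent.Lib.MP_774a5f_nt.LD

open MeasureTheory Complex Set
open scoped ComplexConjugate

namespace M939

open MP774a5f (W QQ dd Pr)

lemma X_conj_self (t : ℝ) (n : ℕ) : X t n * conj (X t n) = 1 := by
  rw [Complex.mul_conj, Complex.normSq_eq_norm_sq, norm_X]; simp

lemma int_off {a b B : ℕ} (ha : 0 < a) (haB : a ≤ B) (hb : 0 < b) (hne : a ≠ b) (T1 T2 : ℝ) :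
    ‖∫ t in T1..T2, X t a * conj (X t b)‖ ≤ 4 * B := by
  have h := MP774a5f.integral_off ha haB hb hne (-T2) (-T1)
  have e : (∫ t in T1..T2, X t a * conj (X t b)) =
      ∫ t in (-T2)..(-T1), MP774a5f.ph t a * conj (MP774a5f.ph t b) := by
    rw [← intervalIntegral.integral_comp_neg
      (fun t : ℝ => MP774a5f.ph t a * conj (MP774a5f.ph t b))]
    rfl
  rw [e]; exact h

lemma int_diag (a : ℕ) (T1 T2 : ℝ) :
    (∫ t in T1..T2, X t a * conj (X t a)) = ((T2 - T1 : ℝ) : ℂ) := by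
  simp_rw [X_conj_self]
  simp

lemma cont_XX (a b : ℕ) : Continuous fun t : ℝ => X t a * conj (X t b) :=
  (continuous_X a).mul (Complex.continuous_conj.comp (continuous_X b))

/-- mean value of a bilinear expression -/
lemma bil {ι κ : Type} (I : Finset ι) (J : Finset κ) (u : ι → ℂ) (v : κ → ℂ) (f : ι → ℕ)
    (g : κ → ℕ) (B : ℕ) (hf : ∀ i ∈ I, 0 < f i ∧ f i ≤ B) (hg : ∀ j ∈ J, 0 < g j) (T1 T2 : ℝ) :
    ‖(∫ t in T1..T2, (∑ i ∈ I, u i * X t (f i)) * conj (∑ j ∈ J, v j * X t (g j))) -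
      ((T2 - T1 : ℝ) : ℂ) * ∑ i ∈ I, ∑ j ∈ J, (if f i = g j then u i * conj (v j) else 0)‖ ≤
      4 * B * ((∑ i ∈ I, ‖u i‖) * ∑ j ∈ J, ‖v j‖) := by
  have hexp : ∀ t : ℝ, (∑ i ∈ I, u i * X t (f i)) * conj (∑ j ∈ J, v j * X t (g j)) =
      ∑ i ∈ I, ∑ j ∈ J, (u i * conj (v j)) * (X t (f i) * conj (X t (g j))) := by
    intro t
    rw [map_sum, Finset.sum_mul_sum]
    refine Finset.sum_congr rfl fun i _ => Finset.sum_congr rfl fun j _ => ?_
    rw [map_mul]; ring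
  have hint : (∫ t in T1..T2, (∑ i ∈ I, u i * X t (f i)) * conj (∑ j ∈ J, v j * X t (g j))) =
      ∑ i ∈ I, ∑ j ∈ J, (u i * conj (v j)) * ∫ t in T1..T2, X t (f i) * conj (X t (g j)) := by
    simp_rw [hexp]
    rw [intervalIntegral.integral_finsetSum]
    · refine Finset.sum_congr rfl fun i _ => ?_
      rw [intervalIntegral.integral_finsetSum]
      · refine Finset.sum_congr rfl fun j _ => ?_
        rw [intervalIntegral.integral_const_mul]
      · intro j _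
        exact (continuous_const.mul (cont_XX _ _)).intervalIntegrable _ _
    · intro i _
      exact (continuous_finsetSum _ fun j _ =>
        continuous_const.mul (cont_XX _ _)).intervalIntegrable _ _
  rw [hint, Finset.mul_sum, ← Finset.sum_sub_distrib]
  have hi : ∀ i ∈ I, ‖(∑ j ∈ J, (u i * conj (v j)) * ∫ t in T1..T2, X t (f i) * conj (X t (g j))) -
      ((T2 - T1 : ℝ) : ℂ) * ∑ j ∈ J, (if f i = g j then u i * conj (v j) else 0)‖ ≤
      4 * B * (‖u i‖ * ∑ j ∈ J, ‖v j‖) := by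
    intro i hi
    rw [Finset.mul_sum, ← Finset.sum_sub_distrib]
    refine (norm_sum_le _ _).trans ?_
    rw [Finset.mul_sum, Finset.mul_sum]
    refine Finset.sum_le_sum fun j hj => ?_
    have hn : ‖u i * conj (v j)‖ = ‖u i‖ * ‖v j‖ := by
      rw [norm_mul, RCLike.norm_conj]
    split_ifs with h
    · rw [h, int_diag, mul_comm ((T2 - T1 : ℝ) : ℂ), sub_self, norm_zero]
      positivity
    · rw [mul_zero, sub_zero, norm_mul, hn, mul_comm]
      exact mul_le_mul_of_nonneg_right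
        (int_off (hf i hi).1 (hf i hi).2 (hg j hj) h T1 T2) (by positivity)
  refine (norm_sum_le_of_le _ hi).trans (le_of_eq ?_)
  rw [Finset.sum_mul, Finset.mul_sum]

/-- number of `b ∣ Q` with `b p^k n ∣ Q` when `Q = p^d m` -/
lemma W_pm {p d m n : ℕ} (hp : p.Prime) (hm0 : m ≠ 0) (hpm : p.Coprime m) (hpn : p.Coprime n)
    (k : ℕ) : W (p ^ d * m) (p ^ k * n) = (d + 1 - k) * W m n := by
  have hq0 : p ^ d * m ≠ 0 := mul_ne_zero (pow_ne_zero _ hp.ne_zero) hm0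
  unfold W
  rw [← Finset.card_range (d + 1 - k), ← Finset.card_product]
  symm
  refine Finset.card_bij (fun ie _ => p ^ ie.1 * ie.2) ?_ ?_ ?_
  · rintro ⟨i, e⟩ h
    simp only [Finset.mem_product, Finset.mem_range, Finset.mem_filter, Nat.mem_divisors] at h ⊢
    obtain ⟨hi, ⟨he, _⟩, ⟨hen, _⟩⟩ := h
    refine ⟨⟨mul_dvd_mul (pow_dvd_pow p (by omega)) he, hq0⟩, ?_, hq0⟩
    have e1 : p ^ i * e * (p ^ k * n) = p ^ (i + k) * (e * n) := by rw [pow_add]; ring
    rw [e1]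
    exact mul_dvd_mul (pow_dvd_pow p (by omega)) hen
  · rintro ⟨i, e⟩ h ⟨i', e'⟩ h' heq
    simp only [Finset.mem_product, Finset.mem_range, Finset.mem_filter, Nat.mem_divisors] at h h' heq
    have hce : p.Coprime e := Nat.Coprime.coprime_dvd_right h.2.1.1 hpm
    have hce' : p.Coprime e' := Nat.Coprime.coprime_dvd_right h'.2.1.1 hpm
    have h1 : p ^ i ∣ p ^ i' := by
      have : p ^ i ∣ p ^ i' * e' := ⟨e, heq.symm⟩
      exact (Nat.Coprime.pow_left i hce').dvd_of_dvd_mul_right this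
    have h2 : p ^ i' ∣ p ^ i := by
      have : p ^ i' ∣ p ^ i * e := ⟨e', heq⟩
      exact (Nat.Coprime.pow_left i' hce).dvd_of_dvd_mul_right this
    have h3 : i = i' := le_antisymm ((Nat.pow_dvd_pow_iff_le_right hp.one_lt).mp h1)
      ((Nat.pow_dvd_pow_iff_le_right hp.one_lt).mp h2)
    subst h3
    have h4 : e = e' := Nat.eq_of_mul_eq_mul_left (pow_pos hp.pos i) heq
    rw [h4]
  · intro c hc
    simp only [Finset.mem_filter, Nat.mem_divisors] at hc
    obtain ⟨⟨hc1, _⟩, ⟨hc2, _⟩⟩ := hc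
    have hc0 : c ≠ 0 := by
      rintro rfl
      exact hq0 (zero_dvd_iff.mp hc1)
    obtain ⟨i, e, hpe, hce⟩ := Nat.exists_eq_pow_mul_and_not_dvd hc0 p hp.ne_one
    have hcpe : p.Coprime e := (Nat.Prime.coprime_iff_not_dvd hp).mpr hpe
    have e1 : p ^ (i + k) * (e * n) ∣ p ^ d * m := by
      have e2 : p ^ (i + k) * (e * n) = c * (p ^ k * n) := by rw [hce, pow_add]; ring
      rw [e2]; exact hc2
    have h1 : i + k ≤ d := by
      have h2 : p ^ (i + k) ∣ p ^ d := by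
        have h3 : p ^ (i + k) ∣ p ^ d * m := (Dvd.intro _ rfl).trans e1
        exact (Nat.Coprime.pow_left (i + k) hpm).dvd_of_dvd_mul_right h3
      exact (Nat.pow_dvd_pow_iff_le_right hp.one_lt).mp h2
    have h4 : e * n ∣ m := by
      have h5 : e * n ∣ p ^ d * m := (Dvd.intro_left _ rfl).trans e1
      have h6 : Nat.Coprime (e * n) (p ^ d) :=
        Nat.Coprime.pow_right d (Nat.Coprime.mul_left hcpe.symm hpn.symm)
      exact h6.dvd_of_dvd_mul_left h5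
    refine ⟨(i, e), ?_, hce.symm⟩
    simp only [Finset.mem_product, Finset.mem_range, Finset.mem_filter, Nat.mem_divisors]
    exact ⟨by omega, ⟨(Dvd.intro _ rfl).trans h4, hm0⟩, h4, hm0⟩

lemma QQ_split (y : ℕ) {p : ℕ} (hp : p.Prime) :
    ∃ m, m ≠ 0 ∧ p.Coprime m ∧ QQ y = p ^ dd y p * m := by
  by_cases hpy : p ∈ Pr y
  · refine ⟨∏ q ∈ (Pr y).erase p, q ^ dd y q, ?_, ?_, ?_⟩
    · refine (Finset.prod_pos fun q hq => pow_pos ?_ _).ne'
      exact (Finset.mem_filter.1 (Finset.mem_erase.1 hq).2).2.pos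
    · apply Nat.Coprime.prod_right
      intro q hq
      have hq' := Finset.mem_erase.1 hq
      apply Nat.Coprime.pow_right
      exact (Nat.coprime_primes hp (Finset.mem_filter.1 hq'.2).2).2 (Ne.symm hq'.1)
    · unfold QQ
      rw [Finset.mul_prod_erase (Pr y) (fun q => q ^ dd y q) hpy]
  · have hd : dd y p = 0 := by
      have h1 : y < p := by
        by_contra h
        exact hpy (Finset.mem_filter.2 ⟨Finset.mem_Icc.2 ⟨hp.one_lt.le, by omega⟩, hp⟩)
      unfold dd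
      rw [Nat.div_eq_of_lt h1]
      rfl
    refine ⟨QQ y, (MP774a5f.QQ_pos y).ne', ?_, by rw [hd]; simp⟩
    unfold QQ
    apply Nat.Coprime.prod_right
    intro q hq
    apply Nat.Coprime.pow_right
    refine (Nat.coprime_primes hp (Finset.mem_filter.1 hq).2).2 ?_
    rintro rfl
    exact hpy hq

lemma W_step (y : ℕ) {p n : ℕ} (hp : p.Prime) (hpn : p.Coprime n) :
    (W (QQ y) (p * n) : ℝ) = mu y p * W (QQ y) n := by
  obtain ⟨m, hm0, hpm, hQ⟩ := QQ_split y hp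
  have h1 : W (QQ y) (p * n) = dd y p * W m n := by
    have := W_pm (d := dd y p) hp hm0 hpm hpn 1
    rw [pow_one] at this
    rw [hQ, this]
    simp
  have h0 : W (QQ y) n = (dd y p + 1) * W m n := by
    have := W_pm (d := dd y p) hp hm0 hpm hpn 0
    rw [pow_zero, one_mul] at this
    rw [hQ, this]
    simp
  rw [h1, h0]
  unfold mu
  push_cast
  field_simp

lemma W_one (Q : ℕ) : W Q 1 = Q.divisors.card := by
  unfold W
  congr 1
  rw [Finset.filter_eq_self]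
  intro b hb
  rwa [mul_one]

lemma W_prime (y : ℕ) {p : ℕ} (hp : p.Prime) : (W (QQ y) p : ℝ) = mu y p * tau y := by
  have := W_step y hp (Nat.coprime_one_right p)
  rw [mul_one, W_one] at this
  exact this

lemma W_two (y : ℕ) {p q : ℕ} (hp : p.Prime) (hq : q.Prime) (hne : p ≠ q) :
    (W (QQ y) (p * q) : ℝ) = mu y p * (mu y q * tau y) := by
  rw [W_step y hp ((Nat.coprime_primes hp hq).2 hne), W_prime y hq]

/-- number of pairs of divisors of `Q` with `m a = n b` -/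
def NN (Q m n : ℕ) : ℕ :=
  ((Q.divisors ×ˢ Q.divisors).filter (fun ab => m * ab.1 = n * ab.2)).card

lemma NN_coprime {Q m n : ℕ} (hm : 0 < m) (hn : 0 < n) (h : m.Coprime n) :
    NN Q m n = W Q (m * n) := by
  unfold NN W
  symm
  refine Finset.card_bij (fun c _ => (n * c, m * c)) ?_ ?_ ?_
  · intro c hc
    simp only [Finset.mem_filter, Nat.mem_divisors, Finset.mem_product] at hc ⊢
    obtain ⟨⟨hc1, hQ⟩, ⟨hc2, _⟩⟩ := hc
    refine ⟨⟨⟨?_, hQ⟩, ?_, hQ⟩, by ring⟩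
    · exact (Dvd.intro_left m (by ring)).trans hc2
    · exact (Dvd.intro_left n (by ring)).trans hc2
  · intro c _ c' _ heq
    simp only [Prod.mk.injEq] at heq
    exact Nat.eq_of_mul_eq_mul_left hn heq.1
  · rintro ⟨a, b⟩ hab
    simp only [Finset.mem_filter, Nat.mem_divisors, Finset.mem_product] at hab
    obtain ⟨⟨⟨ha, hQ⟩, ⟨hb, _⟩⟩, he⟩ := hab
    have h1 : n ∣ a := by
      have : n ∣ m * a := ⟨b, he⟩
      exact h.symm.dvd_of_dvd_mul_left this
    obtain ⟨c, rfl⟩ := h1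
    have h2 : b = m * c := by
      have : n * (m * c) = n * b := by rw [← he]; ring
      exact (Nat.eq_of_mul_eq_mul_left hn this).symm
    subst h2
    refine ⟨c, ?_, rfl⟩
    simp only [Finset.mem_filter, Nat.mem_divisors]
    refine ⟨⟨(Dvd.intro_left n rfl).trans ha, hQ⟩, ?_, hQ⟩
    rcases Nat.eq_zero_or_pos c with rfl | hc
    · exfalso; exact hQ (by simpa using ha)
    · have h3 : Nat.lcm (n * c) (m * c) ∣ Q := Nat.lcm_dvd ha hb
      rw [Nat.lcm_mul_right, Nat.Coprime.lcm_eq_mul h.symm] at h3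
      have e : c * (m * n) = n * m * c := by ring
      rw [e]; exact h3

lemma NN_self {Q m : ℕ} (hm : 0 < m) : NN Q m m = Q.divisors.card := by
  unfold NN
  symm
  refine Finset.card_bij (fun c _ => (c, c)) ?_ ?_ ?_
  · intro c hc
    simp only [Finset.mem_filter, Finset.mem_product]
    exact ⟨⟨hc, hc⟩, trivial⟩
  · intro c _ c' _ heq
    simp only [Prod.mk.injEq] at heq
    exact heq.1
  · rintro ⟨a, b⟩ hab
    simp only [Finset.mem_filter, Finset.mem_product] at hab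
    refine ⟨a, hab.1.1, ?_⟩
    have : a = b := Nat.eq_of_mul_eq_mul_left hm hab.2
    rw [this]

variable {χ : ℕ → ℂ}

lemma chi_conj (h : UM χ) {n : ℕ} (hn : n ≠ 0) : χ n * conj (χ n) = 1 := by
  rw [Complex.mul_conj, Complex.normSq_eq_norm_sq, h.norm n hn]; simp

lemma RR_cont (χ : ℕ → ℂ) (y : ℕ) : Continuous (RR χ y) := by
  unfold RR
  exact continuous_finsetSum _ fun a _ => continuous_const.mul (continuous_X a)

lemma tau_nonneg (y : ℕ) : 0 ≤ tau y := by unfold tau; positivity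

lemma mu_nonneg (y p : ℕ) : 0 ≤ mu y p := by unfold mu; positivity

lemma mu_le_one (y p : ℕ) : mu y p ≤ 1 := by
  unfold mu
  rw [div_le_one (by positivity)]
  linarith

/-- the twisted mean value -/
noncomputable def JJ (χ : ℕ → ℂ) (y : ℕ) (T1 T2 : ℝ) (m n : ℕ) : ℂ :=
  ∫ t in T1..T2, (X t m * RR χ y t) * conj (X t n * RR χ y t)

lemma JJ_main (h : UM χ) (y Y : ℕ) (T1 T2 : ℝ) {m n : ℕ} (hm : 0 < m) (hmY : m ≤ Y)
    (hn : 0 < n) :
    ‖JJ χ y T1 T2 m n - ((T2 - T1 : ℝ) : ℂ) * (conj (χ m) * χ n * (NN (QQ y) m n : ℝ))‖ ≤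
      4 * Y * QQ y * tau y ^ 2 := by
  have hpos : ∀ a ∈ (QQ y).divisors, 0 < a := fun a ha => Nat.pos_of_mem_divisors ha
  have hX : ∀ (k : ℕ), 0 < k → ∀ t : ℝ, X t k * RR χ y t =
      ∑ a ∈ (QQ y).divisors, χ a * X t (k * a) := by
    intro k hk t
    unfold RR
    rw [Finset.mul_sum]
    refine Finset.sum_congr rfl fun a ha => ?_
    rw [X_mul t hk.ne' (hpos a ha).ne']
    ring
  have hb := bil (QQ y).divisors (QQ y).divisors χ χ (fun a => m * a) (fun b => n * b) (Y * QQ y)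
    (fun a ha => ⟨Nat.mul_pos hm (hpos a ha),
      Nat.mul_le_mul hmY (Nat.le_of_dvd (MP774a5f.QQ_pos y) (Nat.dvd_of_mem_divisors ha))⟩)
    (fun b hb => Nat.mul_pos hn (hpos b hb)) T1 T2
  have e1 : JJ χ y T1 T2 m n = ∫ t in T1..T2, (∑ i ∈ (QQ y).divisors, χ i * X t (m * i)) *
      conj (∑ j ∈ (QQ y).divisors, χ j * X t (n * j)) := by
    unfold JJ
    refine intervalIntegral.integral_congr fun t _ => ?_
    simp only [hX m hm t, hX n hn t]
  have e2 : ∑ i ∈ (QQ y).divisors, ∑ j ∈ (QQ y).divisors,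
      (if m * i = n * j then χ i * conj (χ j) else 0) =
      conj (χ m) * χ n * (NN (QQ y) m n : ℝ) := by
    rw [← Finset.sum_product', ← Finset.sum_filter]
    have e3 : ∀ ab ∈ ((QQ y).divisors ×ˢ (QQ y).divisors).filter
        (fun ab => m * ab.1 = n * ab.2), χ ab.1 * conj (χ ab.2) = conj (χ m) * χ n := by
      rintro ⟨a, b⟩ hab
      simp only [Finset.mem_filter, Finset.mem_product] at hab
      have ha := (hpos a hab.1.1).ne'
      have hb := (hpos b hab.1.2).ne'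
      have h1 : χ m * χ a = χ n * χ b := by
        rw [← h.mul m a hm.ne' ha, ← h.mul n b hn.ne' hb, hab.2]
      simp only
      calc χ a * conj (χ b) = (χ m * conj (χ m)) * (χ a * conj (χ b)) := by
            rw [chi_conj h hm.ne', one_mul]
        _ = conj (χ m) * (χ m * χ a) * conj (χ b) := by ring
        _ = conj (χ m) * χ n * (χ b * conj (χ b)) := by rw [h1]; ring
        _ = conj (χ m) * χ n := by rw [chi_conj h hb, mul_one]
    rw [Finset.sum_congr rfl e3, Finset.sum_const, nsmul_eq_mul]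
    unfold NN
    push_cast
    ring
  have e4 : ∑ i ∈ (QQ y).divisors, ‖χ i‖ = tau y := by
    rw [Finset.sum_congr rfl fun i hi => h.norm i (hpos i hi).ne', Finset.sum_const, nsmul_eq_mul,
      mul_one]
    rfl
  rw [e2, e4] at hb
  rw [e1]
  refine hb.trans (le_of_eq ?_)
  push_cast
  ring

lemma chi_one (h : UM χ) : χ 1 = 1 := by
  have h1 := h.mul 1 1 one_ne_zero one_ne_zero
  rw [mul_one] at h1
  have h2 : χ 1 ≠ 0 := by
    intro h0
    have := h.norm 1 one_ne_zero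
    rw [h0, norm_zero] at this
    exact zero_ne_one this
  exact (mul_right_cancel₀ h2 (by rw [one_mul]; exact h1)).symm

lemma sq_eq (z : ℂ) : z * conj z = ((‖z‖ ^ 2 : ℝ) : ℂ) := by
  rw [Complex.mul_conj, Complex.normSq_eq_norm_sq]

lemma JJ_one (χ : ℕ → ℂ) (y : ℕ) (T1 T2 : ℝ) :
    JJ χ y T1 T2 1 1 = ((∫ t in T1..T2, ‖RR χ y t‖ ^ 2 : ℝ) : ℂ) := by
  unfold JJ
  rw [← intervalIntegral.integral_ofReal]
  refine intervalIntegral.integral_congr fun t _ => ?_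
  simp only [X_one, one_mul]
  exact sq_eq _

lemma NN_one_one (Q : ℕ) : NN Q 1 1 = Q.divisors.card := NN_self one_pos

lemma NN_p_one (y : ℕ) {p : ℕ} (hp : p.Prime) : (NN (QQ y) p 1 : ℝ) = mu y p * tau y := by
  rw [NN_coprime hp.pos one_pos (Nat.coprime_one_right p), mul_one, W_prime y hp]

lemma NN_one_p (y : ℕ) {p : ℕ} (hp : p.Prime) : (NN (QQ y) 1 p : ℝ) = mu y p * tau y := by
  rw [NN_coprime one_pos hp.pos (Nat.coprime_one_left p), one_mul, W_prime y hp]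

lemma NN_two (y : ℕ) {p q : ℕ} (hp : p.Prime) (hq : q.Prime) (hne : p ≠ q) :
    (NN (QQ y) p q : ℝ) = mu y p * (mu y q * tau y) := by
  rw [NN_coprime hp.pos hq.pos ((Nat.coprime_primes hp hq).2 hne), W_two y hp hq hne]

lemma part1 (h : UM χ) (y : ℕ) (T1 T2 : ℝ) :
    (T2 - T1) * tau y - 4 * MP774a5f.QQ y * tau y ^ 2 ≤ ∫ t in T1..T2, ‖RR χ y t‖ ^ 2 := by
  have h1 := JJ_main h y 1 T1 T2 one_pos le_rfl one_pos
  rw [JJ_one, NN_one_one, chi_one h, map_one, one_mul, one_mul] at h1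
  have e : ((∫ t in T1..T2, ‖RR χ y t‖ ^ 2 : ℝ) : ℂ) -
      ((T2 - T1 : ℝ) : ℂ) * ((((QQ y).divisors.card : ℝ)) : ℂ) =
      (((∫ t in T1..T2, ‖RR χ y t‖ ^ 2) - (T2 - T1) * tau y : ℝ) : ℂ) := by
    unfold tau
    push_cast
    ring
  rw [e, Complex.norm_real, Real.norm_eq_abs] at h1
  have h2 := (abs_le.1 h1).1
  push_cast at h2
  linarith

/-- the term of the pair `p, q` -/
lemma term (h : UM χ) (y Y : ℕ) (T1 T2 : ℝ) {p q : ℕ} (hp : p.Prime) (hpY : p ≤ Y)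
    (hq : q.Prime) :
    ‖(JJ χ y T1 T2 p q - ((mu y q : ℂ) * χ q) * JJ χ y T1 T2 p 1 -
        ((mu y p : ℂ) * conj (χ p)) * JJ χ y T1 T2 1 q +
        ((mu y p : ℂ) * conj (χ p)) * ((mu y q : ℂ) * χ q) * JJ χ y T1 T2 1 1) -
      (if p = q then (((T2 - T1) * (tau y * (1 - mu y p ^ 2)) : ℝ) : ℂ) else 0)‖ ≤
      16 * Y * QQ y * tau y ^ 2 := by
  have hY : 1 ≤ Y := hp.one_lt.le.trans hpY
  set L : ℂ := ((T2 - T1 : ℝ) : ℂ) with hL
  set e : ℝ := 4 * Y * QQ y * tau y ^ 2 with he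
  obtain ⟨E1, hE1⟩ : ∃ E, E = JJ χ y T1 T2 p q - L * (conj (χ p) * χ q * (NN (QQ y) p q : ℝ)) :=
    ⟨_, rfl⟩
  obtain ⟨E2, hE2⟩ : ∃ E, E = JJ χ y T1 T2 p 1 - L * (conj (χ p) * χ 1 * (NN (QQ y) p 1 : ℝ)) :=
    ⟨_, rfl⟩
  obtain ⟨E3, hE3⟩ : ∃ E, E = JJ χ y T1 T2 1 q - L * (conj (χ 1) * χ q * (NN (QQ y) 1 q : ℝ)) :=
    ⟨_, rfl⟩
  obtain ⟨E4, hE4⟩ : ∃ E, E = JJ χ y T1 T2 1 1 - L * (conj (χ 1) * χ 1 * (NN (QQ y) 1 1 : ℝ)) :=
    ⟨_, rfl⟩
  have b1 : ‖E1‖ ≤ e := by rw [hE1]; exact JJ_main h y Y T1 T2 hp.pos hpY hq.pos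
  have b2 : ‖E2‖ ≤ e := by rw [hE2]; exact JJ_main h y Y T1 T2 hp.pos hpY one_pos
  have b3 : ‖E3‖ ≤ e := by rw [hE3]; exact JJ_main h y Y T1 T2 one_pos hY hq.pos
  have b4 : ‖E4‖ ≤ e := by rw [hE4]; exact JJ_main h y Y T1 T2 one_pos hY one_pos
  have e2 : JJ χ y T1 T2 p 1 = E2 + L * (conj (χ p) * ((mu y p * tau y : ℝ) : ℂ)) := by
    rw [hE2, chi_one h, NN_p_one y hp]; ring
  have e3 : JJ χ y T1 T2 1 q = E3 + L * (χ q * ((mu y q * tau y : ℝ) : ℂ)) := by
    rw [hE3, chi_one h, NN_one_p y hq, map_one]; ring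
  have e4 : JJ χ y T1 T2 1 1 = E4 + L * ((tau y : ℝ) : ℂ) := by
    rw [hE4, chi_one h, NN_one_one, map_one]
    unfold tau
    ring
  have hcomb : (JJ χ y T1 T2 p q - ((mu y q : ℂ) * χ q) * JJ χ y T1 T2 p 1 -
        ((mu y p : ℂ) * conj (χ p)) * JJ χ y T1 T2 1 q +
        ((mu y p : ℂ) * conj (χ p)) * ((mu y q : ℂ) * χ q) * JJ χ y T1 T2 1 1) -
      (if p = q then (((T2 - T1) * (tau y * (1 - mu y p ^ 2)) : ℝ) : ℂ) else 0) =
      E1 - ((mu y q : ℂ) * χ q) * E2 - ((mu y p : ℂ) * conj (χ p)) * E3 +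
        ((mu y p : ℂ) * conj (χ p)) * ((mu y q : ℂ) * χ q) * E4 := by
    rw [e2, e3, e4]
    split_ifs with hpq
    · subst hpq
      have e1 : JJ χ y T1 T2 p p = E1 + L * ((tau y : ℝ) : ℂ) := by
        rw [hE1, NN_self hp.pos]
        have := chi_conj h hp.ne_zero
        rw [mul_comm] at this
        rw [this, one_mul]
        unfold tau
        ring
      rw [e1, hL]
      have hc := chi_conj h hp.ne_zero
      push_cast
      have e5 : ((mu y p : ℂ) * χ p) * ((L * (conj (χ p) * ((mu y p : ℂ) * (tau y : ℂ))))) =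
          L * ((mu y p : ℂ) ^ 2 * (tau y : ℂ)) * (χ p * conj (χ p)) := by ring
      have e6 : ((mu y p : ℂ) * conj (χ p)) * (L * (χ p * ((mu y p : ℂ) * (tau y : ℂ)))) =
          L * ((mu y p : ℂ) ^ 2 * (tau y : ℂ)) * (χ p * conj (χ p)) := by ring
      have e7 : ((mu y p : ℂ) * conj (χ p)) * ((mu y p : ℂ) * χ p) * (L * (tau y : ℂ)) =
          L * ((mu y p : ℂ) ^ 2 * (tau y : ℂ)) * (χ p * conj (χ p)) := by ring
      have hL' : L = (T2 : ℂ) - T1 := by rw [hL]; push_cast; ring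
      rw [hc, mul_one, hL'] at e5 e6 e7
      linear_combination (-1 : ℂ) * e5 - e6 + e7
    · have e1 : JJ χ y T1 T2 p q =
          E1 + L * (conj (χ p) * χ q * ((mu y p * (mu y q * tau y) : ℝ) : ℂ)) := by
        rw [hE1, NN_two y hp hq hpq]; ring
      rw [e1]
      push_cast
      ring
  rw [hcomb]
  have n1 : ‖(mu y q : ℂ) * χ q‖ ≤ 1 := by
    rw [norm_mul, h.norm q hq.ne_zero, mul_one, Complex.norm_real, Real.norm_eq_abs,
      abs_of_nonneg (mu_nonneg y q)]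
    exact mu_le_one y q
  have n2 : ‖(mu y p : ℂ) * conj (χ p)‖ ≤ 1 := by
    rw [norm_mul, RCLike.norm_conj, h.norm p hp.ne_zero, mul_one, Complex.norm_real,
      Real.norm_eq_abs, abs_of_nonneg (mu_nonneg y p)]
    exact mu_le_one y p
  have he0 : 0 ≤ e := by
    have := tau_nonneg y
    rw [he]; positivity
  have m1 : ‖((mu y q : ℂ) * χ q) * E2‖ ≤ e := by
    rw [norm_mul]
    calc _ ≤ 1 * e := mul_le_mul n1 b2 (norm_nonneg _) zero_le_one
      _ = e := one_mul e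
  have m2 : ‖((mu y p : ℂ) * conj (χ p)) * E3‖ ≤ e := by
    rw [norm_mul]
    calc _ ≤ 1 * e := mul_le_mul n2 b3 (norm_nonneg _) zero_le_one
      _ = e := one_mul e
  have m3 : ‖((mu y p : ℂ) * conj (χ p)) * ((mu y q : ℂ) * χ q) * E4‖ ≤ e := by
    rw [norm_mul, norm_mul]
    calc _ ≤ 1 * 1 * e := mul_le_mul (mul_le_mul n2 n1 (norm_nonneg _) zero_le_one) b4
          (norm_nonneg _) (by norm_num)
      _ = e := by ring
  calc _ ≤ ‖E1‖ + ‖((mu y q : ℂ) * χ q) * E2‖ + ‖((mu y p : ℂ) * conj (χ p)) * E3‖ +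
        ‖((mu y p : ℂ) * conj (χ p)) * ((mu y q : ℂ) * χ q) * E4‖ := by
        refine (norm_add_le _ _).trans (add_le_add ?_ le_rfl)
        refine (norm_sub_le _ _).trans (add_le_add ?_ le_rfl)
        exact norm_sub_le _ _
    _ ≤ e + e + e + e := by linarith
    _ = 16 * Y * QQ y * tau y ^ 2 := by rw [he]; ring

lemma part2 (h : UM χ) (y : ℕ) (T1 T2 : ℝ) (P : Finset ℕ) (c : ℕ → ℝ) (Y : ℕ)
    (hP : ∀ p ∈ P, p.Prime ∧ p ≤ Y) (hc : ∀ p ∈ P, 0 ≤ c p) :
    ∫ t in T1..T2, ‖∑ p ∈ P, (c p : ℂ) * (X t p - (mu y p : ℂ) * conj (χ p))‖ ^ 2 *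
        ‖RR χ y t‖ ^ 2 ≤
      (T2 - T1) * tau y * (∑ p ∈ P, c p ^ 2 * (1 - mu y p ^ 2)) +
        16 * Y * MP774a5f.QQ y * tau y ^ 2 * (∑ p ∈ P, c p) ^ 2 := by
  obtain ⟨B, hB⟩ : ∃ B : ℕ → ℝ → ℂ, B = fun n t => X t n * RR χ y t := ⟨_, rfl⟩
  have hBc : ∀ n, Continuous (B n) := by
    intro n; rw [hB]; exact (continuous_X n).mul (RR_cont χ y)
  have hJ : ∀ m n, JJ χ y T1 T2 m n = ∫ t in T1..T2, B m t * conj (B n t) := by
    intro m n; rw [hB]; rfl
  have hint : ∀ m n, IntervalIntegrable (fun t => B m t * conj (B n t)) volume T1 T2 := by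
    intro m n
    exact ((hBc m).mul (Complex.continuous_conj.comp (hBc n))).intervalIntegrable _ _
  obtain ⟨M, hM⟩ : ∃ M : ℕ → ℂ, M = fun p => (mu y p : ℂ) * conj (χ p) := ⟨_, rfl⟩
  have hMc : ∀ q, conj (M q) = (mu y q : ℂ) * χ q := by
    intro q; rw [hM]; simp
  have hpt : ∀ t : ℝ, ((‖∑ p ∈ P, (c p : ℂ) * (X t p - (mu y p : ℂ) * conj (χ p))‖ ^ 2 *
      ‖RR χ y t‖ ^ 2 : ℝ) : ℂ) = ∑ p ∈ P, ∑ q ∈ P, ((c p : ℂ) * (c q : ℂ)) *
        (B p t * conj (B q t) - conj (M q) * (B p t * conj (B 1 t)) -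
          M p * (B 1 t * conj (B q t)) + M p * conj (M q) * (B 1 t * conj (B 1 t))) := by
    intro t
    have e1 : (∑ p ∈ P, (c p : ℂ) * (X t p - (mu y p : ℂ) * conj (χ p))) * RR χ y t =
        ∑ p ∈ P, (c p : ℂ) * (B p t - M p * B 1 t) := by
      rw [Finset.sum_mul]
      refine Finset.sum_congr rfl fun p _ => ?_
      rw [hB, hM]
      simp only [X_one]
      ring
    have e2 : ((‖∑ p ∈ P, (c p : ℂ) * (X t p - (mu y p : ℂ) * conj (χ p))‖ ^ 2 *
        ‖RR χ y t‖ ^ 2 : ℝ) : ℂ) = (∑ p ∈ P, (c p : ℂ) * (B p t - M p * B 1 t)) *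
          conj (∑ q ∈ P, (c q : ℂ) * (B q t - M q * B 1 t)) := by
      rw [← e1, sq_eq, norm_mul, mul_pow]
    rw [e2, map_sum, Finset.sum_mul_sum]
    refine Finset.sum_congr rfl fun p _ => Finset.sum_congr rfl fun q _ => ?_
    simp only [map_mul, map_sub, Complex.conj_ofReal]
    ring
  have hI : ((∫ t in T1..T2, ‖∑ p ∈ P, (c p : ℂ) * (X t p - (mu y p : ℂ) * conj (χ p))‖ ^ 2 *
      ‖RR χ y t‖ ^ 2 : ℝ) : ℂ) = ∑ p ∈ P, ∑ q ∈ P, ((c p : ℂ) * (c q : ℂ)) *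
        (JJ χ y T1 T2 p q - ((mu y q : ℂ) * χ q) * JJ χ y T1 T2 p 1 -
        ((mu y p : ℂ) * conj (χ p)) * JJ χ y T1 T2 1 q +
        ((mu y p : ℂ) * conj (χ p)) * ((mu y q : ℂ) * χ q) * JJ χ y T1 T2 1 1) := by
    rw [← intervalIntegral.integral_ofReal]
    rw [intervalIntegral.integral_congr (fun t _ => hpt t)]
    have hcc : ∀ p q, Continuous fun t => ((c p : ℂ) * (c q : ℂ)) *
        (B p t * conj (B q t) - conj (M q) * (B p t * conj (B 1 t)) -
          M p * (B 1 t * conj (B q t)) + M p * conj (M q) * (B 1 t * conj (B 1 t))) := by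
      intro p q
      have k : ∀ m n, Continuous fun t => B m t * conj (B n t) := fun m n =>
        (hBc m).mul (Complex.continuous_conj.comp (hBc n))
      exact continuous_const.mul ((((k p q).sub (continuous_const.mul (k p 1))).sub
        (continuous_const.mul (k 1 q))).add (continuous_const.mul (k 1 1)))
    rw [intervalIntegral.integral_finsetSum fun p _ =>
      (continuous_finsetSum _ fun q _ => hcc p q).intervalIntegrable _ _]
    refine Finset.sum_congr rfl fun p _ => ?_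
    rw [intervalIntegral.integral_finsetSum fun q _ => (hcc p q).intervalIntegrable _ _]
    refine Finset.sum_congr rfl fun q _ => ?_
    rw [intervalIntegral.integral_const_mul, intervalIntegral.integral_add,
      intervalIntegral.integral_sub, intervalIntegral.integral_sub,
      intervalIntegral.integral_const_mul, intervalIntegral.integral_const_mul,
      intervalIntegral.integral_const_mul, hMc, hM, hJ, hJ, hJ, hJ]
    · exact hint p q
    · exact (hint p 1).const_mul _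
    · exact (hint p q).sub ((hint p 1).const_mul _)
    · exact (hint 1 q).const_mul _
    · exact ((hint p q).sub ((hint p 1).const_mul _)).sub ((hint 1 q).const_mul _)
    · exact (hint 1 1).const_mul _
  have hmain : (((T2 - T1) * tau y * (∑ p ∈ P, c p ^ 2 * (1 - mu y p ^ 2)) : ℝ) : ℂ) =
      ∑ p ∈ P, ∑ q ∈ P, ((c p : ℂ) * (c q : ℂ)) *
        (if p = q then (((T2 - T1) * (tau y * (1 - mu y p ^ 2)) : ℝ) : ℂ) else 0) := by
    rw [Finset.mul_sum, Complex.ofReal_sum]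
    refine Finset.sum_congr rfl fun p hp => ?_
    simp only [mul_ite, mul_zero]
    rw [Finset.sum_ite_eq, if_pos hp]
    push_cast
    ring
  have hdiff : ‖((∫ t in T1..T2, ‖∑ p ∈ P, (c p : ℂ) * (X t p - (mu y p : ℂ) * conj (χ p))‖ ^ 2 *
      ‖RR χ y t‖ ^ 2 : ℝ) : ℂ) -
      (((T2 - T1) * tau y * (∑ p ∈ P, c p ^ 2 * (1 - mu y p ^ 2)) : ℝ) : ℂ)‖ ≤
      16 * Y * MP774a5f.QQ y * tau y ^ 2 * (∑ p ∈ P, c p) ^ 2 := by
    rw [hI, hmain, ← Finset.sum_sub_distrib]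
    refine (norm_sum_le _ _).trans ?_
    have hp1 : ∀ p ∈ P, ‖(∑ q ∈ P, ((c p : ℂ) * (c q : ℂ)) *
        (JJ χ y T1 T2 p q - ((mu y q : ℂ) * χ q) * JJ χ y T1 T2 p 1 -
        ((mu y p : ℂ) * conj (χ p)) * JJ χ y T1 T2 1 q +
        ((mu y p : ℂ) * conj (χ p)) * ((mu y q : ℂ) * χ q) * JJ χ y T1 T2 1 1)) -
        ∑ q ∈ P, ((c p : ℂ) * (c q : ℂ)) *
        (if p = q then (((T2 - T1) * (tau y * (1 - mu y p ^ 2)) : ℝ) : ℂ) else 0)‖ ≤
        c p * ((∑ q ∈ P, c q) * (16 * Y * QQ y * tau y ^ 2)) := by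
      intro p hp
      rw [← Finset.sum_sub_distrib]
      refine (norm_sum_le _ _).trans ?_
      rw [Finset.sum_mul, Finset.mul_sum]
      refine Finset.sum_le_sum fun q hq => ?_
      rw [← mul_sub, norm_mul, norm_mul, Complex.norm_real, Complex.norm_real, Real.norm_eq_abs,
        Real.norm_eq_abs, abs_of_nonneg (hc p hp), abs_of_nonneg (hc q hq), mul_assoc]
      exact mul_le_mul_of_nonneg_left (mul_le_mul_of_nonneg_left
        (term h y Y T1 T2 (hP p hp).1 (hP p hp).2 (hP q hq).1) (hc q hq)) (hc p hp)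
    refine (Finset.sum_le_sum hp1).trans (le_of_eq ?_)
    rw [← Finset.sum_mul]
    ring
  rw [← Complex.ofReal_sub, Complex.norm_real, Real.norm_eq_abs] at hdiff
  linarith [(abs_le.1 hdiff).2]

lemma part3 (h : UM χ) (y : ℕ) {T1 T2 : ℝ} (hT : T1 ≤ T2) :
    ∫ t in T1..T2, ‖RR χ y t‖ ^ 4 ≤
    (T2 - T1) * tau y ^ 3 + 4 * (MP774a5f.QQ y : ℝ) ^ 2 * tau y ^ 4 := by
  have hpos : ∀ a ∈ (QQ y).divisors, 0 < a := fun a ha => Nat.pos_of_mem_divisors ha
  have hle : ∀ a ∈ (QQ y).divisors, a ≤ QQ y := fun a ha =>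
    Nat.le_of_dvd (MP774a5f.QQ_pos y) (Nat.dvd_of_mem_divisors ha)
  obtain ⟨D, hD⟩ : ∃ D, D = (QQ y).divisors := ⟨_, rfl⟩
  have hDc : (D.card : ℝ) = tau y := by rw [hD]; rfl
  rw [← hD] at hpos hle
  have hb := bil (D ×ˢ D) (D ×ˢ D) (fun ab => χ ab.1 * χ ab.2) (fun ab => χ ab.1 * χ ab.2)
    (fun ab => ab.1 * ab.2) (fun ab => ab.1 * ab.2) (QQ y * QQ y)
    (fun ab hab => ⟨Nat.mul_pos (hpos _ (Finset.mem_product.1 hab).1)
      (hpos _ (Finset.mem_product.1 hab).2),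
      Nat.mul_le_mul (hle _ (Finset.mem_product.1 hab).1) (hle _ (Finset.mem_product.1 hab).2)⟩)
    (fun ab hab => Nat.mul_pos (hpos _ (Finset.mem_product.1 hab).1)
      (hpos _ (Finset.mem_product.1 hab).2)) T1 T2
  have hR2 : ∀ t, (∑ ab ∈ D ×ˢ D, χ ab.1 * χ ab.2 * X t (ab.1 * ab.2)) = RR χ y t ^ 2 := by
    intro t
    unfold RR
    rw [← hD, sq, Finset.sum_mul_sum, Finset.sum_product]
    refine Finset.sum_congr rfl fun a ha => Finset.sum_congr rfl fun b hb => ?_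
    simp only
    rw [X_mul t (hpos a ha).ne' (hpos b hb).ne']
    ring
  have e1 : (∫ t in T1..T2, (∑ ab ∈ D ×ˢ D, χ ab.1 * χ ab.2 * X t (ab.1 * ab.2)) *
      conj (∑ ab ∈ D ×ˢ D, χ ab.1 * χ ab.2 * X t (ab.1 * ab.2))) =
      ((∫ t in T1..T2, ‖RR χ y t‖ ^ 4 : ℝ) : ℂ) := by
    rw [← intervalIntegral.integral_ofReal]
    refine intervalIntegral.integral_congr fun t _ => ?_
    simp only [hR2]
    rw [sq_eq, norm_pow]
    push_cast
    ring
  have e2 : ∑ ab ∈ D ×ˢ D, ‖χ ab.1 * χ ab.2‖ = tau y ^ 2 := by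
    have : ∀ ab ∈ D ×ˢ D, ‖χ ab.1 * χ ab.2‖ = 1 := by
      intro ab hab
      rw [norm_mul, h.norm _ (hpos _ (Finset.mem_product.1 hab).1).ne',
        h.norm _ (hpos _ (Finset.mem_product.1 hab).2).ne', one_mul]
    rw [Finset.sum_congr rfl this, Finset.sum_const, nsmul_eq_mul, mul_one, Finset.card_product]
    push_cast
    rw [hDc]; ring
  have e3 : ‖∑ i ∈ D ×ˢ D, ∑ j ∈ D ×ˢ D, (if i.1 * i.2 = j.1 * j.2 then
      χ i.1 * χ i.2 * conj (χ j.1 * χ j.2) else 0)‖ ≤ tau y ^ 3 := by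
    have k1 : ∀ i ∈ D ×ˢ D, ‖∑ j ∈ D ×ˢ D, (if i.1 * i.2 = j.1 * j.2 then
      χ i.1 * χ i.2 * conj (χ j.1 * χ j.2) else 0)‖ ≤ tau y := by
      intro i hi
      rw [Finset.sum_product]
      refine (norm_sum_le _ _).trans ?_
      have k2 : ∀ a ∈ D, ‖∑ b ∈ D, (if i.1 * i.2 = a * b then
          χ i.1 * χ i.2 * conj (χ a * χ b) else 0)‖ ≤ 1 := by
        intro a ha
        refine (norm_sum_le _ _).trans ?_
        have k3 : ∀ b ∈ D, ‖(if i.1 * i.2 = a * b then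
            χ i.1 * χ i.2 * conj (χ a * χ b) else 0)‖ = if i.1 * i.2 = a * b then (1 : ℝ) else 0 := by
          intro b hb
          split_ifs
          · rw [norm_mul, norm_mul, RCLike.norm_conj, norm_mul,
              h.norm _ (hpos _ (Finset.mem_product.1 hi).1).ne',
              h.norm _ (hpos _ (Finset.mem_product.1 hi).2).ne', h.norm _ (hpos a ha).ne',
              h.norm _ (hpos b hb).ne']
            norm_num
          · exact norm_zero
        rw [Finset.sum_congr rfl k3, ← Finset.sum_filter, Finset.sum_const, nsmul_eq_mul, mul_one]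
        have k4 : (D.filter fun b => i.1 * i.2 = a * b).card ≤ 1 := by
          rw [Finset.card_le_one]
          intro b hb b' hb'
          have h1 := (Finset.mem_filter.1 hb).2
          have h2 := (Finset.mem_filter.1 hb').2
          exact Nat.eq_of_mul_eq_mul_left (hpos a ha) (h1.symm.trans h2)
        exact_mod_cast k4
      refine (Finset.sum_le_sum k2).trans (le_of_eq ?_)
      rw [Finset.sum_const, nsmul_eq_mul, mul_one, hDc]
    refine (norm_sum_le_of_le _ k1).trans (le_of_eq ?_)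
    rw [Finset.sum_const, nsmul_eq_mul, Finset.card_product]
    push_cast
    rw [hDc]; ring
  rw [e1, e2] at hb
  obtain ⟨Z, hZ⟩ : ∃ Z : ℂ, Z = ∑ i ∈ D ×ˢ D, ∑ j ∈ D ×ˢ D, (if i.1 * i.2 = j.1 * j.2 then
      χ i.1 * χ i.2 * conj (χ j.1 * χ j.2) else 0) := ⟨_, rfl⟩
  rw [← hZ] at hb e3
  have h1 : ‖((∫ t in T1..T2, ‖RR χ y t‖ ^ 4 : ℝ) : ℂ)‖ ≤
      ‖((T2 - T1 : ℝ) : ℂ) * Z‖ + 4 * ((QQ y * QQ y : ℕ) : ℝ) * (tau y ^ 2 * tau y ^ 2) := by
    have := norm_add_le (((∫ t in T1..T2, ‖RR χ y t‖ ^ 4 : ℝ) : ℂ) - ((T2 - T1 : ℝ) : ℂ) * Z)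
      (((T2 - T1 : ℝ) : ℂ) * Z)
    rw [sub_add_cancel] at this
    linarith
  rw [norm_mul, Complex.norm_real, Complex.norm_real, Real.norm_eq_abs, Real.norm_eq_abs,
    abs_of_nonneg (sub_nonneg.2 hT)] at h1
  have h2 := mul_le_mul_of_nonneg_left e3 (sub_nonneg.2 hT)
  have h3 := le_abs_self (∫ t in T1..T2, ‖RR χ y t‖ ^ 4)
  push_cast at h1
  nlinarith

end M939

theorem st7 : St7 := by
  intro χ h y _ T1 T2 hT
  exact ⟨M939.part1 h y T1 T2, fun P c Y hP hc => M939.part2 h y T1 T2 P c Y hP hc,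
    M939.part3 h y hT⟩

end Pool.Agent.Lib.MP_774a5f_nt.LD
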