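import Pool.Agent.Lib.MP_774a5f_nt.Choice
import Pool.Agent.Lib.MP_774a5f_nt.Defs

/-!
# Large deviations of `ζ'/ζ(1+it)`: definitions and the statements of all modules

Text with full proofs: team store, `MP_774a5f_nt_81.md`.
-/

namespace Pool.Agent.Lib.MP_774a5f_nt.LD

open MeasureTheory Complex Set
open ArithmeticFunction (vonMangoldt)
open scoped ComplexConjugate Nat

/-- `ζ'/ζ(1+it)`. -/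
noncomputable def Z (t : ℝ) : ℂ := deriv riemannZeta (1 + t * I) / riemannZeta (1 + t * I)

/-- `n^{-it}`. -/
noncomputable def X (t : ℝ) (n : ℕ) : ℂ := MP774a5f.ph (-t) n

/-- `log p / p`. -/
noncomputable def cp (p : ℕ) : ℝ := Real.log p / p

/-- `S(t) = ∑_{n ≤ √T} Λ(n) n^{-1-it}`. -/
noncomputable def SS (T t : ℝ) : ℂ := ∑ n ∈ Finset.Icc 1 ⌊√T⌋₊, ((vonMangoldt n / n : ℝ) : ℂ) * X t n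

/-- primes in `(a, b]` -/
def Pri (a b : ℕ) : Finset ℕ := (Finset.Ioc a b).filter Nat.Prime

/-! ### Upper bounds -/

/-- (Lemma 1) mean value. -/
def St1 : Prop := ∀ (S : Finset ℕ) (N : ℕ) (a : ℕ → ℂ) (T1 T2 : ℝ),
  (∀ n ∈ S, 1 ≤ n ∧ n ≤ N) → T1 ≤ T2 →
  ∫ t in T1..T2, ‖∑ n ∈ S, a n * X t n‖ ^ 2 ≤
    ∑ n ∈ S, ‖a n‖ ^ 2 * ((T2 - T1) + 6 * n * (1 + Real.log N))

/-- (Lemma 2) partial sums of `ζ` and `ζ'` on the 1-line. -/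
def St2 : Prop := ∃ C T0 : ℝ, 0 < C ∧ 1 ≤ T0 ∧ ∀ T t : ℝ, T0 ≤ T → T ≤ t → t ≤ 2 * T →
  ‖riemannZeta (1 + t * I) - ∑ n ∈ Finset.Icc 1 ⌊T ^ 2⌋₊, ((1 / n : ℝ) : ℂ) * X t n‖ ≤
    C / √T ∧
  ‖deriv riemannZeta (1 + t * I) +
    ∑ n ∈ Finset.Icc 1 ⌊T ^ 2⌋₊, ((Real.log n / n : ℝ) : ℂ) * X t n‖ ≤ C / √T

/-- (Lemma 3) `ζ'/ζ(1+it) = -S(t) + o(1)` outside a small set. -/
def St3 : Prop := ∃ T0 : ℝ, 16 ≤ T0 ∧ ∀ T : ℝ, T0 ≤ T →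
  volume {t : ℝ | t ∈ Icc T (2 * T) ∧ 1 / Real.log T < ‖Z t + SS T t‖} ≤
    ENNReal.ofReal (T ^ (9 / 10 : ℝ))

/-- (Lemma 4) sums over large primes. -/
def St4 : Prop := ∃ K : ℝ, 0 < K ∧
  (∀ y Y : ℕ, 2 ≤ y → ∑ p ∈ Pri y Y, cp p ^ 2 ≤ K * Real.log y / y) ∧
  (∀ y Y : ℕ, 1 ≤ y → ∑ p ∈ Pri y Y, cp p ^ 2 ≤ K / √y)

/-- (Lemma 5) high moments of a prime polynomial. -/
def St5 : Prop := ∀ (P : Finset ℕ) (c : ℕ → ℝ) (Y k : ℕ) (T1 T2 : ℝ),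
  (∀ p ∈ P, p.Prime ∧ p ≤ Y) → 1 ≤ k → T1 ≤ T2 →
  ∫ t in T1..T2, ‖∑ p ∈ P, (c p : ℂ) * X t p‖ ^ (2 * k) ≤
    ((T2 - T1) + 6 * (Y : ℝ) ^ k * (1 + Real.log ((Y : ℝ) ^ k))) *
      (k ! * (∑ p ∈ P, c p ^ 2) ^ k)

/-- (Lemma 6) the primes between `(log T)^32` and `√T` contribute at most `1`
outside a small set. -/
def St6 : Prop := ∃ T0 : ℝ, 16 ≤ T0 ∧ ∀ T : ℝ, T0 ≤ T →
  volume {t : ℝ | t ∈ Icc T (2 * T) ∧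
      1 < ‖∑ p ∈ Pri ⌊(Real.log T) ^ 32⌋₊ ⌊√T⌋₊, (cp p : ℂ) * X t p‖} ≤
    ENNReal.ofReal (T ^ (19 / 20 : ℝ))

/-- (Theorem B) upper tail. -/
def StB : Prop := ∃ C T0 : ℝ, 1 ≤ C ∧ 16 ≤ T0 ∧ ∀ T τ : ℝ, T0 ≤ T → 0 ≤ τ →
  τ ≤ Real.log (Real.log T) →
  volume {t : ℝ | t ∈ Icc T (2 * T) ∧ τ ≤ ‖Z t‖} ≤
    ENNReal.ofReal (C * T * Real.exp (-(Real.exp τ / (C * (1 + τ)))))

/-- (Theorem C) upper tail beyond `log log T`. -/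
def StC : Prop := ∃ C T0 : ℝ, 1 ≤ C ∧ 16 ≤ T0 ∧ ∀ T u : ℝ, T0 ≤ T → 0 ≤ u →
  u ≤ Real.log (Real.log T) →
  volume {t : ℝ | t ∈ Icc T (2 * T) ∧ Real.log (Real.log T) + u ≤ ‖Z t‖} ≤
    ENNReal.ofReal (C * T * Real.exp (-(u * Real.log T / (C * Real.log (Real.log T)))))

/-! ### The weights -/

/-- completely multiplicative and unimodular on the positive integers -/
structure UM (χ : ℕ → ℂ) : Prop where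
  mul : ∀ m n : ℕ, m ≠ 0 → n ≠ 0 → χ (m * n) = χ m * χ n
  norm : ∀ n : ℕ, n ≠ 0 → ‖χ n‖ = 1

/-- `μ_p = d_p/(d_p+1)`, `d_p = ⌊√(y/p)⌋` -/
noncomputable def mu (y p : ℕ) : ℝ := (MP774a5f.dd y p : ℝ) / (MP774a5f.dd y p + 1)

/-- number of divisors of `Q = ∏ p^{d_p}` -/
noncomputable def tau (y : ℕ) : ℝ := ((MP774a5f.QQ y).divisors.card : ℝ)

/-- the resonator `∑_{a ∣ Q} χ(a) a^{-it}` -/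
noncomputable def RR (χ : ℕ → ℂ) (y : ℕ) (t : ℝ) : ℂ :=
  ∑ a ∈ (MP774a5f.QQ y).divisors, χ a * X t a

/-- (Lemma 7) weighted mean values. -/
def St7 : Prop := ∀ (χ : ℕ → ℂ), UM χ → ∀ (y : ℕ), 1 ≤ y → ∀ T1 T2 : ℝ, T1 ≤ T2 →
  ((T2 - T1) * tau y - 4 * MP774a5f.QQ y * tau y ^ 2 ≤ ∫ t in T1..T2, ‖RR χ y t‖ ^ 2) ∧
  (∀ (P : Finset ℕ) (c : ℕ → ℝ) (Y : ℕ), (∀ p ∈ P, p.Prime ∧ p ≤ Y) → (∀ p ∈ P, 0 ≤ c p) →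
    ∫ t in T1..T2, ‖∑ p ∈ P, (c p : ℂ) * (X t p - (mu y p : ℂ) * conj (χ p))‖ ^ 2 *
        ‖RR χ y t‖ ^ 2 ≤
      (T2 - T1) * tau y * (∑ p ∈ P, c p ^ 2 * (1 - mu y p ^ 2)) +
        16 * Y * MP774a5f.QQ y * tau y ^ 2 * (∑ p ∈ P, c p) ^ 2) ∧
  (∫ t in T1..T2, ‖RR χ y t‖ ^ 4 ≤
    (T2 - T1) * tau y ^ 3 + 4 * (MP774a5f.QQ y : ℝ) ^ 2 * tau y ^ 4)

/-- (Lemma 8) sizes. -/
def St8 : Prop := ∃ K : ℝ, 0 < K ∧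
  (∀ y : ℕ, 2 ≤ y → Real.log (tau y) ≤ K * y / Real.log y) ∧
  (∀ y Y : ℕ, 1 ≤ y → ∑ p ∈ Pri 0 Y, cp p ^ 2 * (1 - mu y p ^ 2) ≤ K / √y) ∧
  (∀ y : ℕ, 1 ≤ y → ∑ p ∈ Pri 0 y, cp p * (1 - mu y p) ≤ K)

/-- (Lemma 9) steering. -/
def St9 : Prop := ∀ (ε : ℝ) (F : Finset ℕ) (r : ℕ → ℝ) (w : ℂ), 0 ≤ ε →
  (∀ p ∈ F, 0 ≤ r p ∧ r p ≤ ε) → ‖w‖ ≤ ∑ p ∈ F, r p →
  ∃ x : ℕ → ℂ, (∀ p, ‖x p‖ = 1) ∧ ‖(∑ p ∈ F, (r p : ℂ) * x p) - w‖ ≤ ε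

/-- (Lemma 10) completely multiplicative extension. -/
def St10 : Prop := ∀ x : ℕ → ℂ, (∀ p, ‖x p‖ = 1) →
  ∃ χ : ℕ → ℂ, UM χ ∧ ∀ p : ℕ, p.Prime → χ p = x p

/-- (Theorem A) the values of `ζ'/ζ(1+it)` fill the disc of radius `log log T - C`. -/
def StA : Prop := ∀ ε : ℝ, 0 < ε → ∃ C T0 : ℝ, 1 ≤ C ∧ 16 ≤ T0 ∧
  ∀ (T : ℝ) (w : ℂ), T0 ≤ T → ‖w‖ ≤ Real.log (Real.log T) - C →
    ENNReal.ofReal (T * Real.exp (-(C * Real.exp ‖w‖ / (1 + ‖w‖)))) ≤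
      volume {t : ℝ | t ∈ Icc T (2 * T) ∧ ‖Z t - w‖ ≤ ε}

/-- (Theorem Q) `Q1` at every level `x ≥ T^{-1/(C log log T)}`, uniformly in the direction. -/
def StQ : Prop := ∃ C T0 : ℝ, 1 ≤ C ∧ 16 ≤ T0 ∧ ∀ T θ x : ℝ, T0 ≤ T →
  Real.exp (-(Real.log T / (C * Real.log (Real.log T)))) ≤ x → x ≤ 1 / C →
  ENNReal.ofReal (x * T) ≤ volume {t : ℝ | t ∈ Icc T (2 * T) ∧
      Real.log (Real.log (1 / x)) + Real.log (Real.log (Real.log (1 / x))) - C ≤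
        MP774a5f.rotLogDeriv θ t} ∧
  volume {t : ℝ | t ∈ Icc T (2 * T) ∧
      Real.log (Real.log (1 / x)) + Real.log (Real.log (Real.log (1 / x))) + C ≤
        MP774a5f.rotLogDeriv θ t} ≤ ENNReal.ofReal (x * T)

end Pool.Agent.Lib.MP_774a5f_nt.LD
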