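import Pool.Agent.Lib.MP_774a5f_nt.LD.Base81
import Pool.Agent.Lib.MP_774a5f_nt.Weighted
import Pool.Agent.Lib.MP_774a5f_nt.Mertens

/-!
# Common lemmas for Theorems B and C
-/

namespace Pool.Agent.Lib.MP_774a5f_nt.LD

open MeasureTheory Complex Set
open ArithmeticFunction (vonMangoldt)
open scoped ComplexConjugate Nat

namespace Upper

/-- the first exceptional set -/
def E1 (T : ℝ) : Set ℝ :=
  {t : ℝ | t ∈ Icc T (2 * T) ∧ 1 / Real.log T < ‖Z t + SS T t‖}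

/-- the second exceptional set -/
def E2 (T : ℝ) : Set ℝ := {t : ℝ | t ∈ Icc T (2 * T) ∧
  1 < ‖∑ p ∈ Pri ⌊(Real.log T) ^ 32⌋₊ ⌊√T⌋₊, (cp p : ℂ) * X t p‖}

/-- the prime polynomial over `(y, (log T)^32]` -/
noncomputable def PP (T : ℝ) (y : ℕ) (t : ℝ) : ℂ :=
  ∑ p ∈ Pri y ⌊(Real.log T) ^ 32⌋₊, (cp p : ℂ) * X t p

lemma Pri_zero (y : ℕ) : Pri 0 y = (Finset.Icc 1 y).filter Nat.Prime := by
  ext p
  simp only [mem_Pri, Finset.mem_filter, Finset.mem_Icc]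
  constructor
  · rintro ⟨h1, h2, h3⟩; exact ⟨⟨h1, h2⟩, h3⟩
  · rintro ⟨⟨h1, h2⟩, h3⟩; exact ⟨h1, h2, h3⟩

lemma sum_cp_le {y : ℕ} (hy : 1 ≤ y) : ∑ p ∈ Pri 0 y, cp p ≤ Real.log y + Real.log 4 := by
  rw [Pri_zero]
  exact MP774a5f.mertens_upper y hy

lemma Pri_union {a b c : ℕ} (hab : a ≤ b) (hbc : b ≤ c) (f : ℕ → ℂ) :
    ∑ p ∈ Pri a c, f p = ∑ p ∈ Pri a b, f p + ∑ p ∈ Pri b c, f p := by
  have : Pri a c = Pri a b ∪ Pri b c := by
    ext p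
    simp only [mem_Pri, Finset.mem_union]
    constructor
    · rintro ⟨h1, h2, h3⟩
      by_cases h : p ≤ b
      · left; exact ⟨h1, h, h3⟩
      · right; exact ⟨not_le.1 h, h2, h3⟩
    · rintro (⟨h1, h2, h3⟩ | ⟨h1, h2, h3⟩)
      · exact ⟨h1, h2.trans hbc, h3⟩
      · exact ⟨lt_of_le_of_lt hab h1, h2, h3⟩
  rw [this, Finset.sum_union]
  rw [Finset.disjoint_left]
  intro p hp hq
  rw [mem_Pri] at hp hq
  omega

lemma norm_sum_cp_le (t : ℝ) {y : ℕ} (hy : 1 ≤ y) :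
    ‖∑ p ∈ Pri 0 y, (cp p : ℂ) * X t p‖ ≤ Real.log y + Real.log 4 := by
  refine (norm_sum_le_of_le _ (fun p _ => ?_)).trans (sum_cp_le hy)
  rw [norm_mul, norm_X, mul_one, Complex.norm_real, Real.norm_eq_abs, abs_of_nonneg (cp_nonneg p)]

lemma SS_split (T t : ℝ) : SS T t = ∑ p ∈ Pri 0 ⌊√T⌋₊, (cp p : ℂ) * X t p +
    ∑ n ∈ (Finset.Icc 1 ⌊√T⌋₊).filter (fun n => ¬ n.Prime),
      ((vonMangoldt n / n : ℝ) : ℂ) * X t n := by
  unfold SS
  rw [← Finset.sum_filter_add_sum_filter_not _ Nat.Prime, Pri_zero]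
  congr 1
  apply Finset.sum_congr rfl
  intro p hp
  rw [ArithmeticFunction.vonMangoldt_apply_prime (Finset.mem_filter.1 hp).2]
  rfl

/-- the decomposition (*) -/
theorem star : ∃ C3 : ℝ, 2 ≤ C3 ∧ ∀ (T t : ℝ) (y0 : ℕ), 1 ≤ Real.log T →
    (Real.log T) ^ 32 ≤ √T → 1 ≤ y0 → y0 ≤ ⌊(Real.log T) ^ 32⌋₊ → t ∈ Icc T (2 * T) →
    t ∉ E1 T → t ∉ E2 T → ‖Z t‖ ≤ Real.log y0 + C3 + ‖PP T y0 t‖ := by
  obtain ⟨C2, hC2, hnp⟩ := MP774a5f.nonprime_bound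
  have hl4 : 0 ≤ Real.log 4 := Real.log_nonneg (by norm_num)
  refine ⟨Real.log 4 + C2 + 2, by linarith, ?_⟩
  intro T t y0 hL hY hy1 hyY ht h1 h2
  have hE1 : ‖Z t + SS T t‖ ≤ 1 := by
    have h3 : ¬ (1 / Real.log T < ‖Z t + SS T t‖) := fun h => h1 ⟨ht, h⟩
    refine (not_lt.1 h3).trans ?_
    rw [div_le_one (by linarith)]
    exact hL
  have hE2 : ‖∑ p ∈ Pri ⌊(Real.log T) ^ 32⌋₊ ⌊√T⌋₊, (cp p : ℂ) * X t p‖ ≤ 1 :=
    not_lt.1 fun h => h2 ⟨ht, h⟩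
  have hYX : ⌊(Real.log T) ^ 32⌋₊ ≤ ⌊√T⌋₊ := Nat.floor_mono hY
  have hN : ‖∑ n ∈ (Finset.Icc 1 ⌊√T⌋₊).filter (fun n => ¬ n.Prime),
      ((vonMangoldt n / n : ℝ) : ℂ) * X t n‖ ≤ C2 := by
    refine le_trans ?_ (hnp (Finset.Icc 1 ⌊√T⌋₊) 1 le_rfl)
    refine norm_sum_le_of_le _ (fun n _ => ?_)
    rw [norm_mul, norm_X, mul_one, Complex.norm_real, Real.norm_eq_abs, Real.rpow_one,
      abs_of_nonneg (div_nonneg ArithmeticFunction.vonMangoldt_nonneg (Nat.cast_nonneg n))]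
  have hsplit : Z t = (Z t + SS T t) - (∑ p ∈ Pri 0 y0, (cp p : ℂ) * X t p + PP T y0 t +
      ∑ p ∈ Pri ⌊(Real.log T) ^ 32⌋₊ ⌊√T⌋₊, (cp p : ℂ) * X t p) -
      ∑ n ∈ (Finset.Icc 1 ⌊√T⌋₊).filter (fun n => ¬ n.Prime),
        ((vonMangoldt n / n : ℝ) : ℂ) * X t n := by
    have h3 := SS_split T t
    rw [Pri_union (Nat.zero_le _) hYX, Pri_union (Nat.zero_le _) hyY] at h3
    unfold PP
    rw [h3]
    ring
  have hP0 := norm_sum_cp_le t hy1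
  calc ‖Z t‖ = ‖(Z t + SS T t) - (∑ p ∈ Pri 0 y0, (cp p : ℂ) * X t p + PP T y0 t +
      ∑ p ∈ Pri ⌊(Real.log T) ^ 32⌋₊ ⌊√T⌋₊, (cp p : ℂ) * X t p) -
      ∑ n ∈ (Finset.Icc 1 ⌊√T⌋₊).filter (fun n => ¬ n.Prime),
        ((vonMangoldt n / n : ℝ) : ℂ) * X t n‖ := by rw [← hsplit]
    _ ≤ ‖Z t + SS T t‖ + (‖∑ p ∈ Pri 0 y0, (cp p : ℂ) * X t p‖ + ‖PP T y0 t‖ +
      ‖∑ p ∈ Pri ⌊(Real.log T) ^ 32⌋₊ ⌊√T⌋₊, (cp p : ℂ) * X t p‖) +
      ‖∑ n ∈ (Finset.Icc 1 ⌊√T⌋₊).filter (fun n => ¬ n.Prime),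
        ((vonMangoldt n / n : ℝ) : ℂ) * X t n‖ := by
        refine (norm_sub_le _ _).trans (add_le_add ((norm_sub_le _ _).trans
          (add_le_add le_rfl ((norm_add_le _ _).trans (add_le_add (norm_add_le _ _) le_rfl))))
          le_rfl)
    _ ≤ 1 + ((Real.log y0 + Real.log 4) + ‖PP T y0 t‖ + 1) + C2 := by
        gcongr
    _ = Real.log y0 + (Real.log 4 + C2 + 2) + ‖PP T y0 t‖ := by ring

/-- the moment bound -/
theorem mom {K : ℝ}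
    (h4 : ∀ y Y : ℕ, 2 ≤ y → ∑ p ∈ Pri y Y, cp p ^ 2 ≤ K * Real.log y / y) (h5 : St5)
    (T : ℝ) (hT : Real.exp 48 ≤ T) (y0 k : ℕ) (hy : 2 ≤ y0) (hk1 : 1 ≤ k)
    (hk : (k : ℝ) ≤ Real.log T / (128 * Real.log (Real.log T))) {V : ℝ} (hV : 0 < V) :
    volume {t : ℝ | t ∈ Icc T (2 * T) ∧ V ≤ ‖PP T y0 t‖} ≤
      ENNReal.ofReal (2 * T * (k * (K * Real.log y0 / y0) / V ^ 2) ^ k) := by
  have hTpos : 0 < T := lt_of_lt_of_le (Real.exp_pos _) hT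
  set L : ℝ := Real.log T with hLdef
  have hTL : T = Real.exp L := (Real.exp_log hTpos).symm
  have hL : 48 ≤ L := by
    rw [hLdef, Real.le_log_iff_exp_le hTpos]
    exact hT
  have hL0 : 0 < L := by linarith
  have hlogL : 1 ≤ Real.log L := by
    rw [Real.le_log_iff_exp_le hL0]
    have := Real.exp_one_lt_d9
    linarith
  have hk1R : (1 : ℝ) ≤ k := by exact_mod_cast hk1
  have hk0R : (0 : ℝ) < k := by linarith
  set Y : ℕ := ⌊L ^ 32⌋₊ with hY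
  have hY1 : 1 ≤ Y := by
    apply Nat.le_floor
    rw [Nat.cast_one]
    exact one_le_pow₀ (by linarith)
  have hYL : (Y : ℝ) ≤ L ^ 32 := Nat.floor_le (by positivity)
  have hPc : Continuous (PP T y0) := by
    unfold PP
    exact continuous_finsetSum _ fun p _ => continuous_const.mul (continuous_X p)
  have hS : ∑ p ∈ Pri y0 Y, cp p ^ 2 ≤ K * Real.log y0 / y0 := h4 y0 Y hy
  have hS0 : 0 ≤ ∑ p ∈ Pri y0 Y, cp p ^ 2 := Finset.sum_nonneg fun p _ => sq_nonneg _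
  set S : ℝ := K * Real.log y0 / y0 with hSdef
  have hSS : 0 ≤ S := hS0.trans hS
  have hYk : (Y : ℝ) ^ k ≤ Real.exp (L / 4) := by
    calc (Y : ℝ) ^ k ≤ (L ^ 32) ^ k := pow_le_pow_left₀ (Nat.cast_nonneg _) hYL k
      _ = Real.exp (k * (32 * Real.log L)) := by
          rw [Real.exp_nat_mul, show (32 : ℝ) * Real.log L = ((32 : ℕ) : ℝ) * Real.log L by norm_num,
            Real.exp_nat_mul, Real.exp_log hL0]
      _ ≤ Real.exp (L / 4) := by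
          apply Real.exp_le_exp.2
          rw [le_div_iff₀ (by positivity)] at hk
          linarith
  have hYk1 : (1 : ℝ) ≤ (Y : ℝ) ^ k := by
    apply one_le_pow₀
    exact_mod_cast hY1
  -- the moment
  have hmom : ∫ t in T..2 * T, ‖PP T y0 t‖ ^ (2 * k) ≤ 2 * T * (k * S) ^ k := by
    have h := h5 (Pri y0 Y) cp Y k T (2 * T)
      (fun p hp => ⟨(mem_Pri.1 hp).2.2, (mem_Pri.1 hp).2.1⟩) hk1 (by linarith)
    refine h.trans ?_
    have hlog : Real.log ((Y : ℝ) ^ k) ≤ L / 4 := by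
      rw [← Real.log_exp (L / 4)]
      exact Real.log_le_log (by linarith) hYk
    have hlog0 : 0 ≤ Real.log ((Y : ℝ) ^ k) := Real.log_nonneg hYk1
    have hq : 1 + L / 2 + (L / 2) ^ 2 / 2 ≤ Real.exp (L / 2) :=
      Real.quadratic_le_exp_of_nonneg (by positivity)
    have hf1 : (2 * T - T) + 6 * (Y : ℝ) ^ k * (1 + Real.log ((Y : ℝ) ^ k)) ≤ 2 * T := by
      have h1 : 6 * (Y : ℝ) ^ k * (1 + Real.log ((Y : ℝ) ^ k)) ≤
          6 * Real.exp (L / 2) * (1 + L / 2) := by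
        have h0 : Real.exp (L / 4) ≤ Real.exp (L / 2) := Real.exp_le_exp.2 (by linarith)
        apply mul_le_mul (by linarith) (by linarith) (by linarith) (by positivity)
      have hee : T = Real.exp (L / 2) * Real.exp (L / 2) := by
        rw [← Real.exp_add, hTL]
        congr 1
        ring
      have h2 : 6 * (1 + L / 2) ≤ Real.exp (L / 2) := by nlinarith
      have h3 : 6 * Real.exp (L / 2) * (1 + L / 2) ≤ T := by
        rw [hee]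
        nlinarith [Real.exp_pos (L / 2)]
      linarith
    have hfac : ((k ! : ℕ) : ℝ) ≤ (k : ℝ) ^ k := by exact_mod_cast Nat.factorial_le_pow k
    rw [mul_pow]
    apply mul_le_mul hf1 _ (by positivity) (by positivity)
    exact mul_le_mul hfac (pow_le_pow_left₀ hS0 hS k) (by positivity) (by positivity)
  have hFc : Continuous fun t => ‖PP T y0 t‖ ^ (2 * k) := (hPc.norm).pow _
  have hδ : (0 : ℝ) < V ^ (2 * k) := by positivity
  have hM := markov hFc (fun t => by positivity) (a := T) (b := 2 * T) (by linarith) hδ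
  have hsub : {t : ℝ | t ∈ Icc T (2 * T) ∧ V ≤ ‖PP T y0 t‖} ⊆
      {t : ℝ | t ∈ Icc T (2 * T) ∧ V ^ (2 * k) ≤ ‖PP T y0 t‖ ^ (2 * k)} := by
    rintro t ⟨h1, h2⟩
    exact ⟨h1, pow_le_pow_left₀ hV.le h2 _⟩
  refine (measure_mono hsub).trans (hM.trans ?_)
  apply ENNReal.ofReal_le_ofReal
  rw [div_le_iff₀ hδ]
  refine hmom.trans (le_of_eq ?_)
  have hV2 : (V ^ 2) ^ k ≠ 0 := by positivity
  rw [pow_mul, div_pow, mul_assoc (2 * T), div_mul_cancel₀ _ hV2]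

/-- for large `T` the side conditions of `star` hold -/
theorem large : ∃ T0 : ℝ, Real.exp 48 ≤ T0 ∧ ∀ T : ℝ, T0 ≤ T → (Real.log T) ^ 32 ≤ √T := by
  have h := Real.tendsto_pow_mul_exp_neg_atTop_nhds_zero 32
  have h2 : ∀ᶠ x : ℝ in Filter.atTop, x ^ 32 * Real.exp (-x) < 1 / 2 ^ 32 :=
    h.eventually_lt_const (by positivity)
  obtain ⟨x0, hx0⟩ := Filter.eventually_atTop.1 h2
  refine ⟨Real.exp (max 48 (2 * x0)), Real.exp_le_exp.2 (le_max_left _ _), ?_⟩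
  intro T hT
  have hTpos : 0 < T := lt_of_lt_of_le (Real.exp_pos _) hT
  set L : ℝ := Real.log T with hLdef
  have hTL : T = Real.exp L := (Real.exp_log hTpos).symm
  have hL : max 48 (2 * x0) ≤ L := by
    rw [hLdef, Real.le_log_iff_exp_le hTpos]
    exact hT
  have h1 : x0 ≤ L / 2 := by
    have := (le_max_right _ _).trans hL
    linarith
  have h3 := hx0 (L / 2) h1
  have h4 : √T = Real.exp (L / 2) := by
    rw [hTL, Real.sqrt_eq_rpow, ← Real.exp_mul]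
    congr 1
    ring
  rw [h4]
  rw [Real.exp_neg, ← div_eq_mul_inv, div_lt_div_iff₀ (Real.exp_pos _) (by positivity)] at h3
  have h5 : (L / 2) ^ 32 * 2 ^ 32 = L ^ 32 := by
    rw [← mul_pow]
    congr 1
    ring
  linarith

end Upper

end Pool.Agent.Lib.MP_774a5f_nt.LD
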